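import Pool.Agent.P.MP_dabb5b_ag.N.Edge

/-! The majority directions of two polynomials differ on finitely many edges of the tree. -/

namespace Pool.Agent.P.MP_dabb5b_ag.N

open MvPolynomial

variable {K : Type*} [Field K] {φ φ' : S K ≃ₐ[K] S K} {f g : S K}

theorem maj_congr (hU : VA (φ (X 0)) (φ (X 1)) = VA (φ' (X 0)) (φ' (X 1)))
    (hW : VB (φ (X 1)) = VB (φ' (X 1))) (g : S K) : Maj (φ.symm g) ↔ Maj (φ'.symm g) := by
  by_cases hg : g = 0
  · simp [hg]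
  obtain ⟨D, e, h⟩ := exists_lead (F := φ.symm g) (by simpa using hg)
  obtain ⟨D', e', h'⟩ := exists_lead (F := φ'.symm g) (by simpa using hg)
  rw [h.maj_iff, h'.maj_iff, lead_deg hU h h', lead_edge hU hW h h']

theorem maj_unique (hU : VA (φ (X 0)) (φ (X 1)) = VA (φ' (X 0)) (φ' (X 1)))
    (h : Maj (φ.symm g)) (h' : Maj (φ'.symm g)) : VB (φ (X 1)) = VB (φ' (X 1)) := by
  by_contra hW
  obtain ⟨D, e, h1, h2⟩ := h
  obtain ⟨D', e', h1', h2'⟩ := h'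
  have a1 := lead_deg hU h1 h1'
  have a2 := lead_dir hU hW h1 h1'
  omega

/-- leading data of `g` in the coordinates `P, Q` -/
def BadLd (g P Q : S K) (D e : ℕ) : Prop :=
  ∃ φ : S K ≃ₐ[K] S K, φ (X 0) = P ∧ φ (X 1) = Q ∧ Lead (φ.symm g) D e

variable {P Q P' Q' : S K} {D e D' e' : ℕ}

lemma BadLd.co (h : BadLd g P Q D e) : Co P Q := by
  obtain ⟨φ, h0, h1, -⟩ := h
  exact ⟨φ, h0, h1⟩

lemma bad_exists (hg : ∀ c, g ≠ C c) (h : Co P Q) : ∃ D e, BadLd g P Q D e := by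
  obtain ⟨φ, h0, h1⟩ := h
  obtain ⟨D, e, h⟩ := exists_lead (F := φ.symm g) (by simpa using hg 0)
  exact ⟨D, e, φ, h0, h1, h⟩

lemma BadLd.pos (hg : ∀ c, g ≠ C c) (h : BadLd g P Q D e) : 0 < D := by
  obtain ⟨φ, -, -, h⟩ := h
  refine h.pos fun c hc => hg c ?_
  rw [← φ.apply_symm_apply g, hc, ← algebraMap_eq, AlgEquiv.commutes]

lemma BadLd.deg (h : BadLd g P Q D e) (h' : BadLd g P' Q' D' e') (hU : VA P Q = VA P' Q') :
    D = D' := by
  obtain ⟨φ, rfl, rfl, h⟩ := h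
  obtain ⟨φ', rfl, rfl, h'⟩ := h'
  exact lead_deg hU h h'

lemma BadLd.dir (h : BadLd g P Q D e) (h' : BadLd g P' Q' D' e') (hU : VA P Q = VA P' Q')
    (hW : VB Q ≠ VB Q') : D ≤ e + e' := by
  obtain ⟨φ, rfl, rfl, h⟩ := h
  obtain ⟨φ', rfl, rfl, h'⟩ := h'
  exact lead_dir hU hW h h'

lemma BadLd.step [CharZero K] (h : BadLd g P Q D e) (h' : BadLd g P' Q' D' e') (hW : VB Q = VB Q')
    (hU : VA P Q ≠ VA P' Q') : e + 2 * e' ≤ D := by
  obtain ⟨φ, rfl, rfl, h⟩ := h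
  obtain ⟨φ', rfl, rfl, h'⟩ := h'
  exact one_step hW hU h h'

lemma bad_co_pos (h : Co P Q) : 0 < P.totalDegree ∧ 0 < Q.totalDegree := by
  obtain ⟨φ, rfl, rfl⟩ := h
  exact ⟨totalDegree_pos φ 0, totalDegree_pos φ 1⟩

/-- the reduction lemma -/
lemma bad_parent [CharZero K] (h : Co P Q) : ∃ ξ, Co ξ Q ∧ ξ.totalDegree ≤ Q.totalDegree ∧
    (ξ.totalDegree < Q.totalDegree ∨ Q.totalDegree ≤ 1) := by
  induction hn : P.totalDegree using Nat.strong_induction_on generalizing P with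
  | _ n ih =>
    have hp := bad_co_pos h
    by_cases h1 : P.totalDegree < Q.totalDegree
    · exact ⟨P, h, h1.le, Or.inl h1⟩
    by_cases h2 : P.totalDegree ≤ 1
    · exact ⟨P, h, by omega, Or.inr (by omega)⟩
    obtain ⟨φ, rfl, rfl⟩ := id h
    obtain ⟨c, r, hc⟩ := jung_step φ (by omega) (by omega)
    have h3 := h.elem (-c) r
    rw [map_neg, neg_mul, ← sub_eq_add_neg] at h3
    exact ih _ (hn ▸ hc) h3 rfl

/-- a low coordinate system whose second coordinate is not the majority direction -/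
def BadAt (g P Q : S K) (e : ℕ) : Prop :=
  Q.totalDegree < P.totalDegree ∧ ∃ D, BadLd g P Q D e ∧ D ≤ 2 * e

lemma BadAt.pos (hg : ∀ c, g ≠ C c) (h : BadAt g P Q e) : 0 < e := by
  obtain ⟨-, D, h1, h2⟩ := h
  have := h1.pos hg
  omega

lemma BadAt.parent [CharZero K] (hg : ∀ c, g ≠ C c) (h : BadAt g P Q e) {ξ : S K}
    (h1 : BadLd g ξ Q D' e') (h2 : ξ.totalDegree ≤ Q.totalDegree) :
    e' + 2 * e ≤ D' ∧ 2 * e' < D' := by
  have h0 := h.pos hg
  obtain ⟨h3, D, h4, h5⟩ := h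
  have hU : VA P Q ≠ VA ξ Q := fun h => by
    have := congrArg dg h
    rw [dg_VA, dg_VA] at this
    omega
  have a1 := h4.step h1 rfl hU
  have a2 := h1.step h4 rfl hU.symm
  omega

/-- the bad vertices at combinatorial depth `j` -/
def badSet (g : S K) : ℕ → Set (Set (S K))
  | 0 => {VA (X 0) (X 1)}
  | j + 1 => {U | ∃ P Q ξ e, U = VA P Q ∧ BadAt g P Q e ∧ Co ξ Q ∧
      ξ.totalDegree ≤ Q.totalDegree ∧ VA ξ Q ∈ badSet g j}

lemma badSet_sub [CharZero K] (hg : ∀ c, g ≠ C c) (j : ℕ) : (badSet g j).Subsingleton := by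
  induction j with
  | zero => exact Set.subsingleton_singleton
  | succ j ih =>
    rintro _ ⟨P, Q, ξ, e, rfl, b, c, d, m⟩ _ ⟨P', Q', ξ', e', rfl, b', c', d', m'⟩
    obtain ⟨D1, e1, l1⟩ := bad_exists hg c
    obtain ⟨D2, e2, l2⟩ := bad_exists hg c'
    have a1 := b.parent hg l1 d
    have a2 := b'.parent hg l2 d'
    have hU := ih m m'
    have hW : VB Q = VB Q' := by
      by_contra hW
      have a3 := l1.deg l2 hU
      have a4 := l1.dir l2 hU hW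
      omega
    by_contra hV
    have p := b.pos hg
    obtain ⟨-, D, h, hD⟩ := b
    obtain ⟨-, D', h', hD'⟩ := b'
    have a3 := h.step h' hW hV
    have a4 := h'.step h hW.symm (Ne.symm hV)
    omega

lemma BadAt.mem [CharZero K] (hg : ∀ c, g ≠ C c) (h : BadAt g P Q e) :
    ∃ j, 1 ≤ j ∧ e + j ≤ g.totalDegree ∧ VA P Q ∈ badSet g j := by
  induction hn : P.totalDegree using Nat.strong_induction_on generalizing P Q e with
  | _ n ih =>
    have p := h.pos hg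
    obtain ⟨ξ, c, d, hξ⟩ := bad_parent h.2.choose_spec.1.co
    obtain ⟨D1, e1, l1⟩ := bad_exists hg c
    have a1 := h.parent hg l1 d
    by_cases hQ : Q.totalDegree ≤ 1
    · have hU := VA_base c (d.trans hQ) hQ
      obtain ⟨D0, e0, l0⟩ := exists_lead (F := g) (by simpa using hg 0)
      have a2 := BadLd.deg (P := X 0) (Q := X 1) ⟨AlgEquiv.refl, rfl, rfl, l0⟩ l1 hU
      have a3 := l0.totalDegree
      exact ⟨1, le_rfl, by omega, P, Q, ξ, e, rfl, h, c, d, hU.symm⟩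
    · have hlt : ξ.totalDegree < Q.totalDegree := hξ.resolve_right hQ
      obtain ⟨D2, e2, l2⟩ := bad_exists hg c.swap
      have a2 := l1.deg l2 VA_swap
      have a3 := l1.dir l2 VA_swap fun hW => by
        have := congrArg dg hW
        rw [dg_VB, dg_VB] at this
        omega
      obtain ⟨j, j1, j2, j3⟩ := ih _ (hn ▸ h.1) (P := Q) (Q := ξ) (e := e2)
        ⟨hlt, D2, l2, by omega⟩ rfl
      exact ⟨j + 1, by omega, by omega, P, Q, ξ, e, rfl, h, c, d, by rwa [VA_swap]⟩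

lemma bad_low [CharZero K] (h : Co P Q) : VA P Q = VA (X 0) (X 1) ∨
    ∃ P' Q', Co P' Q' ∧ VA P Q = VA P' Q' ∧ Q'.totalDegree < P'.totalDegree := by
  by_cases h1 : Q.totalDegree < P.totalDegree
  · exact Or.inr ⟨P, Q, h, rfl, h1⟩
  obtain ⟨ξ, c, d, hξ⟩ := bad_parent h
  rcases hξ with hξ | hξ
  · refine Or.inr ⟨Q, ξ, c.swap, ?_, hξ⟩
    rw [VA_swap (P := Q)]
    refine ub _ _ (VB Q) ⟨P, Q, h, rfl, rfl⟩ ⟨ξ, Q, c, rfl, rfl⟩ ?_ ?_ <;>
      rw [dg_VA, dg_VB] <;> omega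
  · exact Or.inl (VA_base h (by omega) hξ).symm

lemma bad_main [CharZero K] (hf : ∀ c, f ≠ C c) (hg : ∀ c, g ≠ C c)
    (h : Maj (φ.symm f)) (h' : ¬ Maj (φ.symm g)) :
    VA (φ (X 0)) (φ (X 1)) = VA (X 0) (X 1) ∨ ∃ P Q e, VA (φ (X 0)) (φ (X 1)) = VA P Q ∧
      (BadAt f P Q e ∨ BadAt g P Q e) := by
  refine (bad_low ⟨φ, rfl, rfl⟩).imp_right ?_
  rintro ⟨_, _, ⟨ψ, rfl, rfl⟩, hU, hlow⟩
  have key : ∀ g : S K, (∀ c, g ≠ C c) → ¬ Maj (ψ.symm g) → ∃ e, BadAt g (ψ (X 0)) (ψ (X 1)) e :=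
    fun g hg hm => by
      obtain ⟨D, e, l⟩ := exists_lead (F := ψ.symm g) (by simpa using hg 0)
      rw [l.maj_iff] at hm
      exact ⟨e, hlow, D, ⟨ψ, rfl, rfl, l⟩, by omega⟩
  by_cases hW : VB (φ (X 1)) = VB (ψ (X 1))
  · obtain ⟨e, he⟩ := key g hg fun hm => h' ((maj_congr hU hW g).2 hm)
    exact ⟨_, _, e, hU, Or.inr he⟩
  · obtain ⟨e, he⟩ := key f hf fun hm => hW (maj_unique hU h hm)
    exact ⟨_, _, e, hU, Or.inl he⟩

theorem finite_edges [CharZero K] (hf : ∀ c, f ≠ C c) (hg : ∀ c, g ≠ C c) :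
    {p : Set (S K) × Set (S K) | ∃ φ : S K ≃ₐ[K] S K, p = (VA (φ (X 0)) (φ (X 1)), VB (φ (X 1))) ∧
      Maj (φ.symm f) ∧ ¬ Maj (φ.symm g)}.Finite := by
  have fin : ∀ g : S K, (∀ c, g ≠ C c) → (⋃ j ∈ Set.Iic g.totalDegree, badSet g j).Finite :=
    fun g hg => (Set.finite_Iic _).biUnion fun j _ => (badSet_sub hg j).finite
  have mem : ∀ {g P Q : S K} {e : ℕ}, (∀ c, g ≠ C c) → BadAt g P Q e →
      VA P Q ∈ ⋃ j ∈ Set.Iic g.totalDegree, badSet g j := fun {g P Q e} hg h => by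
    obtain ⟨j, -, j2, j3⟩ := h.mem hg
    exact Set.mem_biUnion (show j ≤ g.totalDegree by omega) j3
  refine Set.Finite.of_finite_image (f := Prod.fst)
    ((((fin f hf).union (fin g hg)).insert (VA (X 0) (X 1))).subset ?_) ?_
  · rintro _ ⟨_, ⟨φ, rfl, h, h'⟩, rfl⟩
    rcases bad_main hf hg h h' with h0 | ⟨P, Q, e, hU, hb | hb⟩
    · exact Or.inl h0
    · exact Or.inr (Or.inl (hU ▸ mem hf hb))
    · exact Or.inr (Or.inr (hU ▸ mem hg hb))
  · rintro _ ⟨φ, rfl, h, -⟩ _ ⟨φ', rfl, h', -⟩ hU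
    exact Prod.ext hU (maj_unique hU h h')

theorem edge_deg_one [CharZero K] (hf : f.totalDegree = 1) (hg : g.totalDegree = 1)
    (h : Maj (φ.symm f)) (h' : ¬ Maj (φ.symm g)) : VA (φ (X 0)) (φ (X 1)) = VA (X 0) (X 1) := by
  have nc : ∀ g : S K, g.totalDegree = 1 → ∀ c, g ≠ C c := by
    rintro g hg c rfl
    simp at hg
  have no : ∀ {g P Q : S K} {e : ℕ}, g.totalDegree = 1 → ¬ BadAt g P Q e := fun {g P Q e} hg h => by
    obtain ⟨j, j1, j2, -⟩ := h.mem (nc g hg)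
    have := h.pos (nc g hg)
    omega
  rcases bad_main (nc f hf) (nc g hg) h h' with h0 | ⟨P, Q, e, -, hb | hb⟩
  · exact h0
  · exact absurd hb (no hf)
  · exact absurd hb (no hg)

end Pool.Agent.P.MP_dabb5b_ag.N
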