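import Pool.Agent.P.MP_dabb5b_ag.N.Lead

/-! The chart `(P, y)` and the normal form. -/

namespace Pool.Agent.P.MP_dabb5b_ag.N

open MvPolynomial

variable {R : Type*} [CommRing R]

/-- `P = w ^ 18 x + y ^ 3` -/
noncomputable def PP (w : R) : S R := C (w ^ 18) * X 0 + X 1 ^ 3

variable [IsDomain R]

/-- rewriting a polynomial in the coordinates `(P, y)` -/
noncomputable def chart (w : R) : S (FractionRing R) →ₐ[FractionRing R] S (FractionRing R) :=
  aeval ![C (algebraMap R (FractionRing R) (w ^ 18))⁻¹ * (X 0 - X 1 ^ 3), X 1]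

/-- `f` written in the coordinates `(P, y)` -/
noncomputable def FF (w : R) (f : S R) : S (FractionRing R) := chart w (io R f)

lemma nf_ne {w : R} (hw : w ≠ 0) : algebraMap R (FractionRing R) (w ^ 18) ≠ 0 :=
  (map_ne_zero_iff _ (IsFractionRing.injective R (FractionRing R))).2 (pow_ne_zero _ hw)

lemma nf_inv {w : R} (hw : w ≠ 0) : (C (algebraMap R (FractionRing R) (w ^ 18)) *
    C (algebraMap R (FractionRing R) (w ^ 18))⁻¹ : S (FractionRing R)) = 1 := by
  rw [← C_mul, mul_inv_cancel₀ (nf_ne hw), C_1]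

omit [IsDomain R] in
lemma nf_io (w : R) :
    io R (PP w) = C (algebraMap R (FractionRing R) (w ^ 18)) * X 0 + X 1 ^ 3 := by
  simp only [io, PP, map_add, map_mul, map_C, map_X, map_pow (map _)]

lemma nf_PP {w : R} (hw : w ≠ 0) : chart w (io R (PP w)) = X 0 := by
  rw [nf_io]
  simp only [chart, map_add, map_mul, map_pow (aeval _), aeval_X, aeval_C, algebraMap_eq,
    Matrix.cons_val_zero, Matrix.cons_val_one]
  rw [← mul_assoc, nf_inv hw]
  ring

theorem exists_psi {w : R} (hw : w ≠ 0) :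
    ∃ ψ : S (FractionRing R) ≃ₐ[FractionRing R] S (FractionRing R),
      ψ (X 0) = io R (PP w) ∧ ψ (X 1) = X 1 ∧ ∀ g, ψ.symm g = chart w g := by
  refine ⟨AlgEquiv.ofAlgHom (aeval ![io R (PP w), X 1]) (chart w) (algHom_ext fun i => ?_)
    (algHom_ext fun i => ?_), by simp, by simp, fun g => rfl⟩
  · fin_cases i
    · simp only [chart, nf_io, AlgHom.comp_apply, map_sub, map_mul, map_pow (aeval _), aeval_X,
        aeval_C, algebraMap_eq, Fin.zero_eta, Matrix.cons_val_zero, Matrix.cons_val_one,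
        AlgHom.id_apply]
      rw [add_sub_cancel_right, ← mul_assoc, mul_comm (C _) (C _), nf_inv hw, one_mul]
    · simp [chart]
  · fin_cases i
    · simpa using nf_PP hw
    · simp [chart]

lemma io_inj : Function.Injective (io R) :=
  map_injective _ (IsFractionRing.injective R (FractionRing R))

lemma io_ne_C {f : S R} (hf : ∀ r, f ≠ C r) (c : FractionRing R) : io R f ≠ C c := by
  classical
  intro h
  refine hf (coeff 0 f) (io_inj ?_)
  have := congrArg (coeff 0) h
  rw [io, coeff_map, coeff_zero_C] at this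
  rw [h, io, map_C, this]

lemma FF_ne_C {w : R} (hw : w ≠ 0) {f : S R} (hf : ∀ r, f ≠ C r) (c : FractionRing R) :
    FF w f ≠ C c := by
  obtain ⟨ψ, -, -, h⟩ := exists_psi hw
  intro e
  rw [FF, ← h, AlgEquiv.symm_apply_eq] at e
  exact io_ne_C hf c (e.trans (ψ.commutes c))

lemma FF_X1 (w : R) : FF w (X 1) = X 1 := by
  simp [FF, io, chart]

lemma nf_C (w r : R) : FF w (C r) = C (algebraMap R (FractionRing R) r) := by
  simp [FF, io, chart]

lemma nf_add (w : R) (f g : S R) : FF w (f + g) = FF w f + FF w g := by simp [FF]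

lemma nf_mul (w : R) (f g : S R) : FF w (f * g) = FF w f * FF w g := by simp [FF]

lemma FF_Y {w : R} (hw : w ≠ 0) (v : R) :
    FF w (X 1 + C v * PP w) = X 1 + C (algebraMap R (FractionRing R) v) * X 0 := by
  rw [nf_add, nf_mul, FF_X1, nf_C, FF, nf_PP hw]

lemma nf_two {w : R} (hw : w ≠ 0) (Φ : S R) : FF w (aeval ![PP w, X 1] Φ) = io R Φ := by
  induction Φ using MvPolynomial.induction_on with
  | C r => simp [nf_C, io]
  | add p q hp hq => rw [map_add, nf_add, hp, hq, map_add]
  | mul_X p i hp =>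
    rw [map_mul, nf_mul, hp, map_mul, aeval_X]
    fin_cases i
    · simp [FF, nf_PP hw, show io R (X 0) = X 0 from map_X _ _]
    · simp [FF_X1, show io R (X 1) = X 1 from map_X _ _]

lemma nf_three {w : R} (hw : w ≠ 0) (G : MvPolynomial (Fin 3) R) :
    FF w (aeval ![X 0, X 1, PP w] G) =
      aeval ![C (algebraMap R (FractionRing R) (w ^ 18))⁻¹ * (X 0 - X 1 ^ 3), X 1, X 0]
        (map (algebraMap R (FractionRing R)) G) := by
  induction G using MvPolynomial.induction_on with
  | C r => simp [nf_C]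
  | add p q hp hq => rw [map_add, nf_add, hp, hq, map_add, map_add]
  | mul_X p i hp =>
    rw [map_mul, nf_mul, hp, map_mul, map_mul, aeval_X, map_X, aeval_X]
    congr 1
    fin_cases i
    · simp [FF, io, chart]
    · simp [FF_X1]
    · simp [FF, nf_PP hw]

omit [IsDomain R] in
lemma nf_mono {A : Type*} [CommRing A] [Algebra R A] (a : Fin 3 → A) (m : Fin 3 →₀ ℕ) (c : R) :
    aeval a (monomial m c) = algebraMap R A c * (a 0 ^ m 0 * a 1 ^ m 1 * a 2 ^ m 2) := by
  rw [aeval_monomial, Finsupp.prod_fintype _ _ (fun _ => pow_zero _), Fin.prod_univ_three]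

omit [IsDomain R] in
lemma nf_exists (w : R) (f : S R) : ∃ G : MvPolynomial (Fin 3) R,
    (∀ m, coeff m G ≠ 0 → m 1 < 3) ∧ aeval ![X 0, X 1, PP w] G = f := by
  classical
  let N : S R → Prop := fun f => ∃ G : MvPolynomial (Fin 3) R,
    (∀ m, coeff m G ≠ 0 → m 1 < 3) ∧ aeval ![X 0, X 1, PP w] G = f
  have add : ∀ f g, N f → N g → N (f + g) := by
    rintro _ _ ⟨G, h, rfl⟩ ⟨G', h', rfl⟩
    refine ⟨G + G', fun m hm => ?_, map_add _ _ _⟩
    by_cases a : coeff m G = 0
    · exact h' m (by simpa [a] using hm)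
    · exact h m a
  have mono : ∀ (c : R) (i r j : ℕ), r < 3 → N (C c * (X 0 ^ i * X 1 ^ r * PP w ^ j)) :=
    fun c i r j h => ⟨monomial (Finsupp.equivFunOnFinite.symm ![i, r, j]) c, fun m hm => by
      rw [coeff_monomial] at hm
      rw [← (ite_ne_right_iff.1 hm).1]
      simpa using h, by rw [nf_mono]; simp⟩
  induction f using MvPolynomial.induction_on with
  | C r => simpa only [pow_zero, mul_one] using mono r 0 0 0 (by norm_num)
  | add p q hp hq => exact add _ _ hp hq
  | mul_X p i hp =>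
    obtain ⟨G, h, rfl⟩ := hp
    rw [G.as_sum, map_sum, Finset.sum_mul]
    refine Finset.sum_induction _ N add ⟨0, by simp, by simp⟩ fun m hm => ?_
    have h1 := h m (mem_support_iff.1 hm)
    rw [nf_mono]
    simp only [Matrix.cons_val_zero, Matrix.cons_val_one, Matrix.cons_val, algebraMap_eq]
    fin_cases i
    · convert mono (coeff m G) (m 0 + 1) (m 1) (m 2) h1 using 1
      simp only [Fin.zero_eta]
      ring
    · by_cases h2 : m 1 = 2
      · convert add _ _ (mono (coeff m G) (m 0) 0 (m 2 + 1) (by norm_num))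
          (mono (-(coeff m G * w ^ 18)) (m 0 + 1) 0 (m 2) (by norm_num)) using 1
        rw [h2, pow_succ (PP w), map_neg, map_mul]
        generalize PP w ^ m 2 = Q
        simp only [PP, Fin.mk_one]
        ring
      · convert mono (coeff m G) (m 0) (m 1 + 1) (m 2) (by omega) using 1
        simp only [Fin.mk_one]
        ring

lemma nf_bound {K : Type*} [Field K] {b : K} (hb : b ≠ 0) {G : MvPolynomial (Fin 3) K}
    (hG : ∀ m, coeff m G ≠ 0 → m 1 < 3) {D : ℕ}
    (h : ∀ m : Fin 2 →₀ ℕ, coeff m (aeval ![C b * (X 0 - X 1 ^ 3), X 1, X 0] G : S K) ≠ 0 →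
      m 0 + m 1 ≤ D) {m : Fin 3 →₀ ℕ} (hm : coeff m G ≠ 0) : 3 * m 0 ≤ D := by
  classical
  have top : ∀ {σ : Type} {w : σ → ℤ} {d : ℤ} {f g : MvPolynomial σ K}, Top w d f g →
      ∀ e, coeff e g ≠ 0 → coeff e f ≠ 0 := fun t e he a => by
    have h1 := t.1 he
    have h2 := t.2 e (by rwa [coeff_sub, a, zero_sub, neg_ne_zero])
    omega
  obtain ⟨d, g, t, hg⟩ := exists_top ![3, 1, 1] (f := G) (by rintro rfl; exact hm rfl)
  have t' : Top (fun _ => 1) d (aeval ![C b * (X 0 - X 1 ^ 3), X 1, X 0] G : S K)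
      (aeval ![C (-b) * X 1 ^ 3, X 1, X 0] g) := by
    refine Top.aeval (fun i => ?_) t
    fin_cases i
    · have a1 := (Top.zero (w := fun _ : Fin 2 => (1 : ℤ)) (d := 3)
        ((Le.X (K := K) 0).mono (by norm_num))).sub ((Top.X (K := K) 1).pow 3)
      simpa using (Top.C b).mul a1
    · exact Top.X 1
    · exact Top.X 0
  let θ : (Fin 3 →₀ ℕ) → Fin 2 →₀ ℕ := fun e =>
    Finsupp.single 0 (e 2) + Finsupp.single 1 (3 * e 0 + e 1)
  have hθ : ∀ (e : Fin 3 →₀ ℕ) (c : K), (aeval ![C (-b) * X 1 ^ 3, X 1, X 0] (monomial e c) : S K) =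
      monomial (θ e) (c * (-b) ^ e 0) := fun e c => by
    rw [nf_mono, monomial_add_single, ← C_mul_X_pow_eq_monomial]
    simp only [Matrix.cons_val_zero, Matrix.cons_val_one, Matrix.cons_val, algebraMap_eq, map_mul,
      map_pow]
    ring
  obtain ⟨e, he⟩ := ne_zero_iff.1 hg
  have a1 : coeff (θ e) (aeval ![C (-b) * X 1 ^ 3, X 1, X 0] g : S K) ≠ 0 := by
    conv => enter [1, 2, 2]; rw [g.as_sum]
    rw [map_sum, coeff_sum, Finset.sum_eq_single e]
    · rw [hθ, coeff_monomial, if_pos rfl]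
      exact mul_ne_zero he (pow_ne_zero _ (neg_ne_zero.2 hb))
    · intro e' h1 h2
      rw [hθ, coeff_monomial, if_neg]
      intro a
      have b0 : e' 2 = e 2 := by simpa [θ] using DFunLike.congr_fun a 0
      have b1 : 3 * e' 0 + e' 1 = 3 * e 0 + e 1 := by simpa [θ] using DFunLike.congr_fun a 1
      have b2 := hG e (top t e he)
      have b3 := hG e' (top t e' (mem_support_iff.1 h1))
      refine h2 (Finsupp.ext fun i => ?_)
      fin_cases i
      · show e' 0 = e 0
        omega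
      · show e' 1 = e 1
        omega
      · exact b0
    · exact fun a => absurd (mem_support_iff.2 he) a
  have a2 := h _ (top t' _ a1)
  have a3 := t'.1 a1
  have a4 := t.le m hm
  rw [weight_one, sum_two] at a3
  rw [Finsupp.weight_apply, Finsupp.sum_fintype _ _ (fun _ => by simp),
    Fin.sum_univ_three] at a4
  simp at a4
  omega

/-- normal form -/
theorem nf {w : R} (hw : w ≠ 0) (f : S R) {D e : ℕ} (h : Lead (FF w f) D e) :
    ∃ (j : ℕ) (Φ : S R), C (w ^ j) * f = aeval ![PP w, X 1] Φ ∧ Lead Φ D e ∧ j ≤ 6 * D := by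
  have inj := IsFractionRing.injective R (FractionRing R)
  obtain ⟨G, h1, rfl⟩ := nf_exists w f
  have h2 : ∀ m, coeff m G ≠ 0 → 3 * m 0 ≤ D := fun m hm =>
    nf_bound (inv_ne_zero (nf_ne hw)) (G := map (algebraMap R (FractionRing R)) G)
      (fun m hm => h1 m fun a => hm (by rw [coeff_map, a, map_zero]))
      (by rw [← nf_three hw]; exact h.le) (by rwa [coeff_map, map_ne_zero_iff _ inj])
  let Φ : S R := ∑ m ∈ G.support, C (coeff m G * (w ^ 18) ^ (D / 3 - m 0)) *
    ((X 0 - X 1 ^ 3) ^ m 0 * X 1 ^ m 1 * X 0 ^ m 2)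
  have h3 : C (w ^ (18 * (D / 3))) * aeval ![X 0, X 1, PP w] G = aeval ![PP w, X 1] Φ := by
    conv_lhs => rw [G.as_sum]
    rw [map_sum, map_sum, Finset.mul_sum]
    refine Finset.sum_congr rfl fun m hm => ?_
    have a1 := h2 m (mem_support_iff.1 hm)
    obtain ⟨k, hk⟩ : ∃ k, D / 3 = m 0 + k := ⟨D / 3 - m 0, by omega⟩
    rw [nf_mono, hk, Nat.add_sub_cancel_left]
    simp only [map_mul, map_pow, map_sub, aeval_X, aeval_C, algebraMap_eq, Matrix.cons_val_zero,
      Matrix.cons_val_one, Matrix.cons_val]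
    rw [show PP w - X 1 ^ 3 = C w ^ 18 * X 0 by simp [PP]]
    ring
  refine ⟨_, Φ, h3, h.congr fun m => ?_, by omega⟩
  have h4 := congrArg (coeff m) (nf_two hw Φ)
  rw [← h3, nf_mul, nf_C, coeff_C_mul, io, coeff_map] at h4
  rw [← map_ne_zero_iff _ inj (x := coeff m Φ), ← h4, mul_ne_zero_iff, map_ne_zero_iff _ inj]
  exact ⟨fun a => ⟨pow_ne_zero _ hw, a⟩, And.right⟩

end Pool.Agent.P.MP_dabb5b_ag.N
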