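import Pool.Agent.P.MP_dabb5b_ag.N.Deform
import Pool.Agent.P.MP_dabb5b_ag.N.NF

/-! Only finitely many images of the base ring have a gap. -/

namespace Pool.Agent.P.MP_dabb5b_ag.N

open MvPolynomial NNReal

variable {k κ ι : Type*} [Field k] [Fintype κ]

/-- the ring of the problem, fibred over the base ring `MvPolynomial κ k` -/
abbrev AA (k κ : Type*) [Field k] := S (MvPolynomial κ k)

/-- the product of the base variables -/
noncomputable def ww (k κ : Type*) [Field k] [Fintype κ] : MvPolynomial κ k := ∏ i, X i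

lemma ww_ne_zero : ww k κ ≠ 0 := Finset.prod_ne_zero_iff.2 fun i _ => X_ne_zero i

/-- the image of the base ring -/
def base (φ : AA k κ ≃ₐ[k] AA k κ) : Set (AA k κ) := Set.range fun r => φ (C r)

/-- gap for the valuation `ν` -/
def Gap (ν : Valuation (AA k κ) ℝ≥0) (φ : AA k κ ≃ₐ[k] AA k κ) : Prop :=
  ∀ f, f ∉ base φ → ν (φ (C (ww k κ))) ^ 2 ≤ ν f

omit [Fintype κ] in
lemma base_z_ne (φ : AA k κ ≃ₐ[k] AA k κ) (i : κ) (c : k) :
    φ (C (X i)) ≠ algebraMap k (AA k κ) c := by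
  intro h
  rw [← φ.commutes c] at h
  have h1 : (C (X i) : AA k κ) = C (C c) := φ.injective h
  have h2 : (X i : MvPolynomial κ k) = C c := C_injective _ _ h1
  have h3 := congrArg (pderiv i) h2
  rw [pderiv_X_self, pderiv_C] at h3
  exact one_ne_zero h3

omit [Fintype κ] in
lemma base_aux_closed (φ : AA k κ ≃ₐ[k] AA k κ) {σ : Type*}
    (g : MvPolynomial σ k →ₐ[k] AA k κ) (h : ∀ i, g (X i) ∈ base φ) (r : MvPolynomial σ k) :
    g r ∈ base φ := by
  induction r using MvPolynomial.induction_on with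
  | C c =>
    refine ⟨C c, ?_⟩
    exact (φ.commutes c).trans (g.commutes c).symm
  | add p q hp hq =>
    obtain ⟨a, ha⟩ := hp
    obtain ⟨b, hb⟩ := hq
    refine ⟨a + b, ?_⟩
    simp only at ha hb ⊢
    rw [map_add, map_add, map_add, ha, hb]
  | mul_X p i hp =>
    obtain ⟨a, ha⟩ := hp
    obtain ⟨b, hb⟩ := h i
    refine ⟨a * b, ?_⟩
    simp only at ha hb ⊢
    rw [map_mul, map_mul, map_mul, ha, hb]

omit [Fintype κ] in
lemma base_subset {φ φ' : AA k κ ≃ₐ[k] AA k κ} (h : ∀ i, φ (C (X i)) ∈ base φ') :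
    base φ ⊆ base φ' := by
  rintro _ ⟨r, rfl⟩
  exact base_aux_closed φ'
    (φ.toAlgHom.comp (IsScalarTower.toAlgHom k (MvPolynomial κ k) (AA k κ))) h r

lemma base_aux_const {R σ : Type*} [CommRing R] [IsDomain R] [CharZero R]
    (f : MvPolynomial σ R) (h : ∀ i, pderiv i f = 0) : ∃ r, f = C r := by
  classical
  refine ⟨coeff 0 f, ?_⟩
  ext m
  rw [coeff_C]
  split_ifs with hm
  · rw [hm]
  · obtain ⟨i, hi⟩ : ∃ i, m i ≠ 0 := by
      by_contra hc
      push Not at hc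
      exact hm (Finsupp.ext fun i => (hc i).symm)
    have h4 := coeff_pderiv (i := i) f (m - Finsupp.single i 1)
    have e : m - Finsupp.single i 1 + Finsupp.single i 1 = m := by
      refine tsub_add_cancel_of_le ?_
      rw [Finsupp.single_le_iff]
      omega
    rw [h i, e, coeff_zero] at h4
    refine (mul_eq_zero.1 h4.symm).resolve_right ?_
    exact Nat.cast_add_one_ne_zero _

lemma base_aux_chain {R : Type*} [CommRing R] (d : S R → S R)
    (hadd : ∀ f g, d (f + g) = d f + d g) (hmul : ∀ f g, d (f * g) = d f * g + f * d g)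
    (hC : ∀ r, d (C r) = 0) (f : S R) : d f = ∑ b, d (X b) * pderiv b f := by
  induction f using MvPolynomial.induction_on with
  | C c => simp [hC]
  | add p q hp hq =>
    rw [hadd, hp, hq, ← Finset.sum_add_distrib]
    exact Finset.sum_congr rfl fun b _ => by rw [map_add, mul_add]
  | mul_X p i hp =>
    rw [hmul, hp]
    fin_cases i <;> simp [Fin.sum_univ_two, pderiv_X] <;> ring

omit [Fintype κ] in
theorem base_eq_of_subset [CharZero k] {φ φ' : AA k κ ≃ₐ[k] AA k κ} (h : base φ ⊆ base φ') :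
    base φ = base φ' := by
  refine h.antisymm ?_
  rintro _ ⟨r, rfl⟩
  set ψ : AA k κ ≃ₐ[k] AA k κ := φ'.trans φ.symm with hψ
  let d : Fin 2 → AA k κ → AA k κ := fun a f => ψ (pderiv a (ψ.symm f))
  have hd : ∀ a f, d a f = ∑ b, d a (X b) * pderiv b f := fun a => by
    refine base_aux_chain (d a) (fun f g => by simp only [d, map_add]) (fun f g => ?_) fun c => ?_
    · simp only [d, map_mul, pderiv_mul, map_add, AlgEquiv.apply_symm_apply]
    · obtain ⟨c', hc'⟩ := h ⟨c, rfl⟩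
      simp only at hc'
      have : ψ.symm (C c) = C c' := by
        rw [AlgEquiv.symm_apply_eq, hψ, AlgEquiv.trans_apply, hc', AlgEquiv.symm_apply_apply]
      simp only [d, this, pderiv_C, map_zero]
  let M : Matrix (Fin 2) (Fin 2) (AA k κ) := Matrix.of fun a b => d a (X b)
  let J : Matrix (Fin 2) (Fin 2) (AA k κ) := Matrix.of fun b c => pderiv b (ψ (X c))
  have hMJ : M * J = 1 := by
    ext a c : 2
    rw [Matrix.mul_apply]
    simp only [M, J, Matrix.of_apply]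
    rw [← hd]
    simp only [d, AlgEquiv.symm_apply_apply, pderiv_X, Matrix.one_apply, Pi.single_apply]
    by_cases hac : a = c
    · simp [hac]
    · simp [hac, Ne.symm hac]
  have hJM : J * M = 1 := mul_eq_one_comm.1 hMJ
  have h0 : M.mulVec (fun b => pderiv b (ψ (C r))) = 0 := by
    ext a : 1
    simp only [Matrix.mulVec, dotProduct, M, Matrix.of_apply]
    rw [← hd]
    simp only [d, AlgEquiv.symm_apply_apply, pderiv_C, map_zero, Pi.zero_apply]
  have h1 : (fun b => pderiv b (ψ (C r))) = 0 := by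
    rw [← Matrix.one_mulVec (fun b => pderiv b (ψ (C r))), ← hJM, ← Matrix.mulVec_mulVec, h0,
      Matrix.mulVec_zero]
  obtain ⟨r', hr'⟩ := base_aux_const (ψ (C r)) fun b => congrFun h1 b
  refine ⟨r', ?_⟩
  simp only
  rw [← hr', hψ, AlgEquiv.trans_apply, AlgEquiv.apply_symm_apply]

omit [Fintype κ] in
lemma exists_not_base (θ : MvPolynomial ι k ≃ₐ[k] AA k κ) (φ : AA k κ ≃ₐ[k] AA k κ) :
    ∃ i, θ (X i) ∉ base φ := by
  by_contra hc
  push Not at hc
  obtain ⟨r, hr⟩ := base_aux_closed φ θ.toAlgHom hc (θ.symm (φ (X 0)))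
  have h1 : φ (C r) = φ (X 0) := by simpa using hr
  have h3 := congrArg (pderiv 0) (φ.injective h1)
  rw [pderiv_X_self, pderiv_C] at h3
  exact zero_ne_one h3

lemma nu_z_le (θ θ' : MvPolynomial ι k ≃ₐ[k] AA k κ) (τ : ℝ) (φ : AA k κ ≃ₐ[k] AA k κ) (i : κ) :
    nu θ θ' τ (φ (C (X i))) ≤ nu θ θ' τ (φ (C (ww k κ))) := by
  classical
  have e : ww k κ = X i * ∏ j ∈ Finset.univ.erase i, X j :=
    (Finset.mul_prod_erase _ _ (Finset.mem_univ i)).symm
  rw [e, map_mul, map_mul, map_mul]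
  refine le_mul_of_one_le_right' (one_le_nu θ θ' τ ?_)
  rw [map_ne_zero_iff _ φ.injective, C_ne_zero]
  exact Finset.prod_ne_zero_iff.2 fun j _ => X_ne_zero j

lemma base_aux_near [CharZero k] (θ θ' : MvPolynomial ι k ≃ₐ[k] AA k κ) {τ τ' : ℝ}
    {φ φ' : AA k κ ≃ₐ[k] AA k κ} (h1 : τ ≤ τ') (h2 : ∀ f, nu θ θ' τ' f ≤ nu θ θ' τ f ^ 2)
    (g : Gap (nu θ θ' τ) φ) (g' : Gap (nu θ θ' τ') φ') : base φ = base φ' := by
  by_cases a : ∀ i, φ (C (X i)) ∈ base φ'
  · exact base_eq_of_subset (base_subset a)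
  by_cases b : ∀ j, φ' (C (X j)) ∈ base φ
  · exact (base_eq_of_subset (base_subset b)).symm
  exfalso
  push Not at a b
  obtain ⟨i, hi⟩ := a
  obtain ⟨j, hj⟩ := b
  have c1 := g' _ hi
  have c2 := nu_z_le θ θ' τ' φ' j
  have c3 := nu_mono θ θ' h1 (φ' (C (X j)))
  have c4 := g _ hj
  have c5 := nu_z_le θ θ' τ φ i
  have c6 := h2 (φ (C (X i)))
  have c7 := one_lt_ex_one.trans_le (ex_one_le_nu θ θ' τ (base_z_ne φ i))
  have c8 : (nu θ θ' τ (φ (C (X i))) ^ 2) ^ 2 ≤ nu θ θ' τ (φ (C (X i))) ^ 2 :=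
    calc (nu θ θ' τ (φ (C (X i))) ^ 2) ^ 2 ≤ (nu θ θ' τ (φ (C (ww k κ))) ^ 2) ^ 2 := by gcongr
      _ ≤ nu θ θ' τ' (φ' (C (ww k κ))) ^ 2 := by
        gcongr
        exact c4.trans (c3.trans c2)
      _ ≤ _ := c1.trans c6
  rw [← pow_mul] at c8
  exact absurd c8 (not_le.2 (pow_lt_pow_right₀ c7 (by norm_num)))

theorem finite_base [CharZero k] [Finite ι] (θ θ' : MvPolynomial ι k ≃ₐ[k] AA k κ) (lo hi : ℝ) :
    {b | ∃ φ, b = base φ ∧ ∃ τ ∈ Set.Icc lo hi, Gap (nu θ θ' τ) φ}.Finite := by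
  obtain ⟨-, -, Δ, -, hΔ, -, -, hw⟩ := exists_window θ θ'
  have near : ∀ {τ τ' : ℝ} {φ φ' : AA k κ ≃ₐ[k] AA k κ}, τ ≤ τ' → ⌊τ / Δ⌋ = ⌊τ' / Δ⌋ →
      Gap (nu θ θ' τ) φ → Gap (nu θ θ' τ') φ' → base φ = base φ' := by
    intro τ τ' φ φ' h1 h2 g g'
    refine base_aux_near θ θ' h1 (fun f => hw τ τ' f ?_) g g'
    have a1 := Int.floor_le (τ / Δ)
    have a2 := Int.lt_floor_add_one (τ' / Δ)
    rw [← h2] at a2
    have a3 : τ' / Δ ≤ τ / Δ + 1 := by linarith
    rw [div_add_one hΔ.ne', div_le_div_iff_of_pos_right hΔ] at a3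
    exact a3
  refine Set.Finite.subset (Set.Finite.biUnion (Set.finite_Icc ⌊lo / Δ⌋ ⌊hi / Δ⌋)
    (t := fun n => {b | ∃ φ, b = base φ ∧ ∃ τ, ⌊τ / Δ⌋ = n ∧ Gap (nu θ θ' τ) φ})
    fun n _ => Set.Subsingleton.finite ?_) ?_
  · rintro _ ⟨φ, rfl, τ, h, g⟩ _ ⟨φ', rfl, τ', h', g'⟩
    rcases le_total τ τ' with a | a
    · exact near a (h.trans h'.symm) g g'
    · exact (near a (h'.trans h.symm) g' g).symm
  · rintro _ ⟨φ, rfl, τ, ⟨h1, h2⟩, g⟩
    refine Set.mem_biUnion (x := ⌊τ / Δ⌋) ⟨Int.floor_mono ?_, Int.floor_mono ?_⟩ ⟨φ, rfl, τ, rfl, g⟩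
    · exact div_le_div_of_nonneg_right h1 hΔ.le
    · exact div_le_div_of_nonneg_right h2 hΔ.le

end Pool.Agent.P.MP_dabb5b_ag.N
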