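import Mathlib

/-! The transfer character of a commensurated set; exponentials are divisible. -/

namespace Pool.Agent.P.MP_dabb5b_ag.N

open Polynomial

open Classical in
/-- The indicator of a set. -/
noncomputable def chi_ind {H : Type*} (T : Set H) (x : H) : ℤ := if x ∈ T then 1 else 0

lemma chi_supp {H : Type*} {T : Set H} (h : T.Finite) : Function.HasFiniteSupport (chi_ind T) :=
  h.subset fun x hx => by
    by_contra h1
    exact hx (if_neg h1)

lemma chi_sum {H : Type*} {T : Set H} (h : T.Finite) : ∑ᶠ x, chi_ind T x = T.ncard := by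
  rw [finsum_eq_sum_of_support_subset (s := h.toFinset) _ fun x hx => by
    by_contra h1
    exact hx (if_neg (by simpa using h1)), Set.ncard_eq_toFinset_card T h, Finset.card_eq_sum_ones,
    Nat.cast_sum]
  exact Finset.sum_congr rfl fun x hx => by simp [chi_ind, h.mem_toFinset.1 hx]

lemma chi_diff {H : Type*} (A B : Set H) :
    (fun x => chi_ind A x - chi_ind B x) = fun x => chi_ind (A \ B) x - chi_ind (B \ A) x := by
  funext x
  by_cases h1 : x ∈ A <;> by_cases h2 : x ∈ B <;> simp [chi_ind, h1, h2]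

theorem exists_transfer {G H : Type*} [Group G] [MulAction G H] (T : Set H)
    (h : ∀ g : G, (T \ (fun x => g • x) '' T).Finite) :
    ∃ χ : G →* Multiplicative ℤ, ∀ g : G, χ g = Multiplicative.ofAdd
      (((T \ (fun x => g • x) '' T).ncard : ℤ) - (((fun x => g • x) '' T \ T).ncard : ℤ)) := by
  have hm : ∀ (g : G) (x : H), x ∈ (fun x => g • x) '' T ↔ g⁻¹ • x ∈ T := fun g x =>
    ⟨by rintro ⟨y, hy, rfl⟩; simpa using hy, fun hx => ⟨_, hx, by simp⟩⟩
  have h' : ∀ g : G, ((fun x => g • x) '' T \ T).Finite := fun g =>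
    ((h g⁻¹).image fun x => g • x).subset fun x hx =>
      ⟨g⁻¹ • x, ⟨(hm g x).1 hx.1, fun h1 => hx.2 (by simpa using (hm _ _).1 h1)⟩, by simp⟩
  have hi : ∀ (g : G) (x : H), chi_ind ((fun x => g • x) '' T) x = chi_ind T (g⁻¹ • x) :=
    fun g x => by
      unfold chi_ind
      rw [hm g x]
  let f : G → H → ℤ := fun g x => chi_ind T x - chi_ind ((fun x => g • x) '' T) x
  have hf : ∀ g, Function.HasFiniteSupport (f g) := fun g => by
    simp only [f]
    rw [chi_diff]
    exact ((h g).union (h' g)).subset fun x hx => by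
      by_contra h1
      rw [Set.mem_union, not_or] at h1
      exact hx (by simp only [chi_ind, if_neg h1.1, if_neg h1.2, sub_self])
  have hs : ∀ g, ∑ᶠ x, f g x =
      ((T \ (fun x => g • x) '' T).ncard : ℤ) - (((fun x => g • x) '' T \ T).ncard : ℤ) := by
    intro g
    simp only [f]
    rw [chi_diff, finsum_sub_distrib (chi_supp (h g)) (chi_supp (h' g)), chi_sum (h g),
      chi_sum (h' g)]
  refine ⟨MonoidHom.mk' (fun g => Multiplicative.ofAdd (∑ᶠ x, f g x)) fun g g' => ?_, fun g => ?_⟩
  · have e : f (g * g') = fun x => f g x + f g' (MulAction.toPerm g⁻¹ x) := by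
      funext x
      simp only [f, hi, MulAction.toPerm_apply, mul_inv_rev, mul_smul]
      ring
    have h2 : Function.HasFiniteSupport fun x => f g' (MulAction.toPerm g⁻¹ x) :=
      (hf g').preimage (MulAction.toPerm g⁻¹).injective.injOn
    rw [← ofAdd_add, e, finsum_add_distrib (hf g) h2, finsum_comp_equiv (MulAction.toPerm g⁻¹)]
  · rw [MonoidHom.mk'_apply, hs]

section Exp

variable {k A : Type*} [Field k] [CharZero k] [CommRing A] [Algebra k A]

lemma chi_succ (k : Type*) [Field k] [CharZero k] [Algebra k A] {p q : A[X]} {j : ℕ}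
    (h : (derivative p).coeff j = (derivative q).coeff j) : p.coeff (j + 1) = q.coeff (j + 1) := by
  rw [coeff_derivative, coeff_derivative] at h
  have hu : IsUnit ((j : A) + 1) := by
    have := (IsUnit.mk0 ((j : k) + 1) (Nat.cast_add_one_ne_zero j)).map (algebraMap k A)
    simpa using this
  exact hu.mul_right_cancel h

lemma chi_exists (D : Derivation k A A) (hD : ∀ h, ∃ m : ℕ, (⇑D)^[m] h = 0) :
    ∃ e : A →ₐ[k] A[X], (∀ h j, (e h).coeff j = (j.factorial : k)⁻¹ • (⇑D)^[j] h) ∧
      ∀ h, derivative (e h) = e (D h) := by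
  choose N hN using hD
  let e : A → A[X] := fun h => ∑ j ∈ Finset.range (N h),
    monomial j ((j.factorial : k)⁻¹ • (⇑D)^[j] h)
  have he : ∀ h j, (e h).coeff j = (j.factorial : k)⁻¹ • (⇑D)^[j] h := by
    intro h j
    simp only [e, finset_sum_coeff, coeff_monomial, Finset.sum_ite_eq', Finset.mem_range]
    split_ifs with hj
    · rfl
    · obtain ⟨i, rfl⟩ := Nat.exists_eq_add_of_le' (not_lt.1 hj)
      rw [Function.iterate_add_apply, hN, Function.iterate_fixed (map_zero D), smul_zero]
  have hit : ∀ (j : ℕ) (h : A), (⇑D)^[j] h = ((D : A →ₗ[k] A) ^ j) h := fun j h => by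
    rw [Module.End.pow_apply]; rfl
  have hadd : ∀ a b, e (a + b) = e a + e b := fun a b => by
    ext j
    rw [coeff_add, he, he, he, hit, hit, hit, map_add, smul_add]
  have hder : ∀ h, derivative (e h) = e (D h) := fun h => by
    ext j
    have h1 : ((j : A) + 1) = algebraMap k A ((j : k) + 1) := by simp
    rw [coeff_derivative, he, he, Function.iterate_succ_apply, h1, mul_comm, ← Algebra.smul_def,
      smul_smul, Nat.factorial_succ, Nat.cast_mul, mul_inv, Nat.cast_succ, ← mul_assoc,
      mul_inv_cancel₀ (Nat.cast_add_one_ne_zero j), one_mul]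
  have h0 : ∀ h, (e h).coeff 0 = h := fun h => by simp [he]
  have hmul : ∀ (j : ℕ) a b, (e (a * b)).coeff j = (e a * e b).coeff j := by
    intro j
    induction j with
    | zero => intro a b; rw [mul_coeff_zero, h0, h0, h0]
    | succ j ih =>
      intro a b
      refine chi_succ k ?_
      rw [hder, derivative_mul, hder, hder, D.leibniz, hadd, coeff_add, coeff_add, smul_eq_mul,
        smul_eq_mul, ih, ih, add_comm, mul_comm]
  have hc : ∀ c : k, e (algebraMap k A c) = algebraMap k A[X] c := fun c => by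
    ext j
    rw [he, Polynomial.algebraMap_apply, coeff_C]
    rcases j with _ | j
    · simp
    · rw [Function.iterate_succ_apply, D.map_algebraMap, Function.iterate_fixed (map_zero D),
        smul_zero, if_neg j.succ_ne_zero]
  exact ⟨{ toFun := e
           map_one' := by simpa using hc 1
           map_mul' := fun a b => Polynomial.ext fun j => hmul j a b
           map_zero' := by simpa using hc 0
           map_add' := hadd
           commutes' := hc }, he, hder⟩

end Exp

theorem exp_root {k A : Type*} [Field k] [CharZero k] [CommRing A] [Algebra k A]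
    (D : Derivation k A A) (hD : ∀ h, ∃ m : ℕ, (⇑D)^[m] h = 0) (τ : A ≃ₐ[k] A)
    (hτ : ∀ h, τ h = ∑ᶠ m : ℕ, (m.factorial : k)⁻¹ • (⇑D)^[m] h) {n : ℕ} (hn : 0 < n) :
    ∃ τ' : A ≃ₐ[k] A, τ' ^ n = τ := by
  obtain ⟨e, he, hder⟩ := chi_exists D hD
  let T : k → A →ₐ[k] A := fun c =>
    ((Polynomial.aeval (R := A) (algebraMap k A c)).restrictScalars k).comp e
  have hT : ∀ c h, T c h = (e h).eval (algebraMap k A c) := fun c h => by simp [T]
  have h0 : ∀ h, (e h).coeff 0 = h := fun h => by simp [he]
  have hmap : ∀ (c : k) (j : ℕ) h, ((e h).map (T c : A →+* A)).coeff j =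
      (taylor (algebraMap k A c) (e h)).coeff j := by
    intro c j
    induction j with
    | zero => intro h; rw [coeff_map, h0, taylor_coeff_zero]; exact hT c h
    | succ j ih =>
      intro h
      refine chi_succ k ?_
      rw [derivative_map, hder, ih, taylor_apply, taylor_apply, derivative_comp, hder]
      simp
  have hadd : ∀ c c' h, T c' (T c h) = T (c + c') h := by
    intro c c' h
    have h1 := eval_map_apply (T c' : A →+* A) (p := e h) (algebraMap k A c)
    rw [Polynomial.ext (hmap c' · h)] at h1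
    rw [hT c, hT (c + c'), map_add, ← taylor_eval]
    simpa using h1.symm
  have hz : ∀ h, T 0 h = h := fun h => by rw [hT, map_zero, ← coeff_zero_eq_eval_zero, h0]
  let U : A ≃ₐ[k] A := AlgEquiv.ofAlgHom (T (n : k)⁻¹) (T (-(n : k)⁻¹))
    (AlgHom.ext fun h => by rw [AlgHom.comp_apply, hadd, neg_add_cancel, hz]; rfl)
    (AlgHom.ext fun h => by rw [AlgHom.comp_apply, hadd, add_neg_cancel, hz]; rfl)
  have hU : ∀ (m : ℕ) h, (U ^ m) h = T (m * (n : k)⁻¹) h := by
    intro m
    induction m with
    | zero => intro h; rw [Nat.cast_zero, zero_mul, hz]; rfl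
    | succ m ih =>
      intro h
      rw [pow_succ', AlgEquiv.mul_apply, ih, Nat.cast_succ, add_mul, one_mul, ← hadd]
      rfl
  refine ⟨U, AlgEquiv.ext fun h => ?_⟩
  rw [hU, mul_inv_cancel₀ (Nat.cast_ne_zero.2 hn.ne'), hT, map_one, hτ, eval_eq_sum, sum_def,
    finsum_eq_sum_of_support_subset (s := (e h).support) _ fun j hj => by
      rw [Finset.mem_coe, mem_support_iff, he]; exact hj]
  exact Finset.sum_congr rfl fun j _ => by rw [he, one_pow, mul_one]

lemma eq_one_of_roots {G : Type*} [Group G] (χ : G →* Multiplicative ℤ) {g : G}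
    (h : ∀ n : ℕ, 0 < n → ∃ g' : G, g' ^ n = g) : χ g = 1 := by
  obtain ⟨g', hg⟩ := h ((χ g).toAdd.natAbs + 1) (Nat.succ_pos _)
  have h1 : (χ g).toAdd = (((χ g).toAdd.natAbs + 1 : ℕ) : ℤ) * (χ g').toAdd := by
    conv_lhs => rw [← hg, map_pow, toAdd_pow, nsmul_eq_mul]
  have h2 : (χ g).toAdd = 0 := Int.eq_zero_of_abs_lt_dvd ⟨_, h1⟩ (by
    rw [Int.abs_eq_natAbs]; exact_mod_cast Nat.lt_succ_self _)
  exact toAdd_eq_zero.1 h2

end Pool.Agent.P.MP_dabb5b_ag.N
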