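import Pool.Agent.P.MP_dabb5b_ag.N.Gauss

/-! A one-parameter family of valuations joining two coordinate systems. -/

namespace Pool.Agent.P.MP_dabb5b_ag.N

open MvPolynomial NNReal

variable {k A ι : Type*} [Field k] [CommRing A] [Algebra k A]

/-- shift of the coordinates `θ (X j)` by the first block of new variables -/
noncomputable def iot (θ : MvPolynomial ι k ≃ₐ[k] A) : A →ₐ[k] MvPolynomial (ι ⊕ ι) A :=
  (aeval fun j => C (θ (X j)) + X (Sum.inl j)).comp θ.symm.toAlgHom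

/-- shift in the coordinates `θ'`, then in the coordinates `θ` -/
noncomputable def eps (θ θ' : MvPolynomial ι k ≃ₐ[k] A) : A →ₐ[k] MvPolynomial (ι ⊕ ι) A :=
  (aeval fun i => iot θ' (θ (X i)) + X (Sum.inr i)).comp θ.symm.toAlgHom

lemma iot_X (θ : MvPolynomial ι k ≃ₐ[k] A) (j : ι) :
    iot θ (θ (X j)) = C (θ (X j)) + X (Sum.inl j) := by simp [iot]

lemma eps_X (θ θ' : MvPolynomial ι k ≃ₐ[k] A) (i : ι) :
    eps θ θ' (θ (X i)) = iot θ' (θ (X i)) + X (Sum.inr i) := by simp [eps]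

lemma deform_ext {B : Type*} [CommRing B] [Algebra k B] (θ : MvPolynomial ι k ≃ₐ[k] A)
    (F G : A →ₐ[k] B) (h : ∀ i, F (θ (X i)) = G (θ (X i))) (f : A) : F f = G f := by
  have h1 : F.comp θ.toAlgHom = G.comp θ.toAlgHom := algHom_ext h
  obtain ⟨p, rfl⟩ := θ.surjective f
  exact DFunLike.congr_fun h1 p

/-- the constant coefficient as an algebra map over the base field -/
noncomputable def deformCC (k : Type*) (σ A : Type*) [Field k] [CommRing A] [Algebra k A] :
    MvPolynomial σ A →ₐ[k] A :=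
  { (constantCoeff : MvPolynomial σ A →+* A) with
    commutes' := fun c => by
      change constantCoeff (algebraMap k (MvPolynomial σ A) c) = algebraMap k A c
      rw [MvPolynomial.algebraMap_apply, constantCoeff_C] }

lemma deformCC_apply {σ : Type*} (p : MvPolynomial σ A) : deformCC k σ A p = constantCoeff p := rfl

lemma deform_const_iot (θ : MvPolynomial ι k ≃ₐ[k] A) (f : A) : constantCoeff (iot θ f) = f :=
  deform_ext θ ((deformCC k (ι ⊕ ι) A).comp (iot θ)) (AlgHom.id k A) (fun j => by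
    rw [AlgHom.comp_apply, iot_X, deformCC_apply]; simp) f

lemma const_eps (θ θ' : MvPolynomial ι k ≃ₐ[k] A) (f : A) : constantCoeff (eps θ θ' f) = f :=
  deform_ext θ ((deformCC k (ι ⊕ ι) A).comp (eps θ θ')) (AlgHom.id k A) (fun j => by
    rw [AlgHom.comp_apply, eps_X, deformCC_apply, map_add, deform_const_iot]; simp) f

lemma deform_iot_map (θ : MvPolynomial ι k ≃ₐ[k] A) (φ : A ≃ₐ[k] A) (f : A) :
    iot (θ.trans φ) (φ f) = map (φ : A →+* A) (iot θ f) :=
  deform_ext θ ((iot (θ.trans φ)).comp φ.toAlgHom) ((mapAlgHom φ.toAlgHom).comp (iot θ))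
    (fun j => by
      have h := iot_X (θ.trans φ) j
      rw [AlgEquiv.trans_apply] at h
      change iot (θ.trans φ) (φ (θ (X j))) = map (φ : A →+* A) (iot θ (θ (X j)))
      rw [h, iot_X]; simp) f

lemma deform_eps_map (θ θ' : MvPolynomial ι k ≃ₐ[k] A) (φ : A ≃ₐ[k] A) (f : A) :
    eps (θ.trans φ) (θ'.trans φ) (φ f) = map (φ : A →+* A) (eps θ θ' f) :=
  deform_ext θ ((eps (θ.trans φ) (θ'.trans φ)).comp φ.toAlgHom)
    ((mapAlgHom φ.toAlgHom).comp (eps θ θ')) (fun j => by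
      have h := eps_X (θ.trans φ) (θ'.trans φ) j
      rw [AlgEquiv.trans_apply] at h
      change eps (θ.trans φ) (θ'.trans φ) (φ (θ (X j))) = map (φ : A →+* A) (eps θ θ' (θ (X j)))
      rw [h, eps_X, deform_iot_map]; simp) f

/-- evaluation of the coefficients at the origin of the coordinates `θ` -/
noncomputable def deformEv (θ : MvPolynomial ι k ≃ₐ[k] A) (y : ι ⊕ ι → MvPolynomial ι k) :
    MvPolynomial (ι ⊕ ι) A →ₐ[k] MvPolynomial ι k :=
  aevalTower ((Algebra.ofId k (MvPolynomial ι k)).comp ((deformCC k ι k).comp θ.symm.toAlgHom)) y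

lemma deformEv_C (θ : MvPolynomial ι k ≃ₐ[k] A) (y : ι ⊕ ι → MvPolynomial ι k) (a : A) :
    deformEv θ y (C a) = C (constantCoeff (θ.symm a)) := by
  rw [deformEv, aevalTower_C]; rfl

lemma deformEv_X (θ : MvPolynomial ι k ≃ₐ[k] A) (y : ι ⊕ ι → MvPolynomial ι k) (v : ι ⊕ ι) :
    deformEv θ y (X v) = y v := by
  rw [deformEv, aevalTower_X]

lemma deform_ev_left (θ θ' : MvPolynomial ι k ≃ₐ[k] A) (f : A) :
    deformEv θ' (Sum.elim X 0) (eps θ θ' f) = θ'.symm f := by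
  have h1 : ∀ f, deformEv θ' (Sum.elim X 0) (iot θ' f) = θ'.symm f := fun f =>
    deform_ext θ' ((deformEv θ' (Sum.elim X 0)).comp (iot θ')) θ'.symm.toAlgHom (fun j => by
      rw [AlgHom.comp_apply, iot_X, map_add, deformEv_C, deformEv_X]; simp) f
  exact deform_ext θ ((deformEv θ' (Sum.elim X 0)).comp (eps θ θ')) θ'.symm.toAlgHom (fun j => by
    rw [AlgHom.comp_apply, eps_X, map_add, h1, deformEv_X]; simp) f

lemma deform_ev_right (θ θ' : MvPolynomial ι k ≃ₐ[k] A) (f : A) :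
    deformEv θ (Sum.elim 0 X) (eps θ θ' f) = θ.symm f := by
  have h1 : ∀ f, deformEv θ (Sum.elim 0 X) (iot θ' f) = deformEv θ (Sum.elim 0 X) (C f) :=
    fun f => deform_ext θ' ((deformEv θ (Sum.elim 0 X)).comp (iot θ'))
      ((deformEv θ (Sum.elim 0 X)).comp (IsScalarTower.toAlgHom k A (MvPolynomial (ι ⊕ ι) A)))
      (fun j => by
        rw [AlgHom.comp_apply, iot_X, map_add, deformEv_X]
        simp) f
  exact deform_ext θ ((deformEv θ (Sum.elim 0 X)).comp (eps θ θ')) θ.symm.toAlgHom (fun j => by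
    rw [AlgHom.comp_apply, eps_X, map_add, h1, deformEv_C, deformEv_X]; simp) f

lemma deform_kill (θ θ' : MvPolynomial ι k ≃ₐ[k] A) (f : A) :
    killCompl Sum.inl_injective (eps θ θ' f) = killCompl Sum.inl_injective (iot θ' f) := by
  refine deform_ext θ (((killCompl Sum.inl_injective).restrictScalars k).comp (eps θ θ'))
    (((killCompl Sum.inl_injective).restrictScalars k).comp (iot θ')) (fun j => ?_) f
  change killCompl Sum.inl_injective (eps θ θ' (θ (X j))) =
    killCompl Sum.inl_injective (iot θ' (θ (X j)))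
  rw [eps_X, map_add]
  simp [killCompl]

lemma deform_deg_pos (θ : MvPolynomial ι k ≃ₐ[k] A) {f : A} (hf : ∀ c, f ≠ algebraMap k A c) :
    θ.symm f ≠ 0 ∧ 1 ≤ (θ.symm f).totalDegree := by
  have h : (θ.symm f).totalDegree ≠ 0 := by
    intro h
    rw [totalDegree_eq_zero_iff_eq_C] at h
    refine hf (coeff 0 (θ.symm f)) ?_
    rw [← θ.commutes, MvPolynomial.algebraMap_eq, ← h, AlgEquiv.apply_symm_apply]
  refine ⟨fun h0 => h (by rw [h0, totalDegree_zero]), by omega⟩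

/-- the weights: `1` on the first block, `τ` on the second -/
def wt (ι : Type*) (τ : ℝ) : ι ⊕ ι → ℝ := Sum.elim (fun _ => 1) fun _ => τ

variable [IsDomain A]

/-- the valuation at time `τ` -/
noncomputable def nu (θ θ' : MvPolynomial ι k ≃ₐ[k] A) (τ : ℝ) : Valuation A ℝ≥0 :=
  (gv (wt ι τ)).comap (eps θ θ').toRingHom

variable (θ θ' : MvPolynomial ι k ≃ₐ[k] A)

lemma nu_apply (τ : ℝ) (f : A) : nu θ θ' τ f = gv (wt ι τ) (eps θ θ' f) := rfl

lemma nu_equiv (φ : A ≃ₐ[k] A) (τ : ℝ) (f : A) :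
    nu (θ.trans φ) (θ'.trans φ) τ (φ f) = nu θ θ' τ f := by
  rw [nu_apply, nu_apply, deform_eps_map]
  refine le_antisymm (gv_mono_supp fun m hm => ?_) (gv_mono_supp fun m hm => ?_)
  · rw [coeff_map] at hm
    intro h0
    exact hm (by rw [h0, map_zero])
  · rw [coeff_map]
    intro h0
    exact hm (φ.injective (by rw [map_zero]; exact h0))

lemma one_le_nu (τ : ℝ) {f : A} (hf : f ≠ 0) : 1 ≤ nu θ θ' τ f := by
  rw [nu_apply]
  exact one_le_gv (by rwa [const_eps])

lemma deform_gv_const_le {σ B : Type*} [CommRing B] [IsDomain B] {t : ℝ} (ht : 0 ≤ t)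
    (g : MvPolynomial σ B) : gv (fun _ => t) g ≤ ex (t * g.totalDegree) := by
  by_cases h : g = 0
  · rw [h, map_zero]; exact zero_le
  · exact (gv_const ht h).le

lemma deform_left_le (τ : ℝ) (f : A) : gv (fun _ => (1 : ℝ)) (θ'.symm f) ≤ nu θ θ' τ f := by
  rw [← deform_ev_left θ θ' f, nu_apply]
  refine gv_contr (gv fun _ => (1 : ℝ)) (deformEv θ' (Sum.elim X 0)).toRingHom (fun a => ?_)
    (fun v => ?_) _
  · change gv _ (deformEv θ' _ (C a)) ≤ 1
    rw [deformEv_C]; exact gv_C_le _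
  · change gv _ (deformEv θ' _ (X v)) ≤ _
    rw [deformEv_X]
    rcases v with j | j
    · exact (gv_X j).le
    · change gv _ 0 ≤ _
      rw [map_zero]; exact zero_le

lemma deform_right_le (τ : ℝ) (f : A) : gv (fun _ => τ) (θ.symm f) ≤ nu θ θ' τ f := by
  rw [← deform_ev_right θ θ' f, nu_apply]
  refine gv_contr (gv fun _ => τ) (deformEv θ (Sum.elim 0 X)).toRingHom (fun a => ?_)
    (fun v => ?_) _
  · change gv _ (deformEv θ _ (C a)) ≤ 1
    rw [deformEv_C]; exact gv_C_le _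
  · change gv _ (deformEv θ _ (X v)) ≤ _
    rw [deformEv_X]
    rcases v with j | j
    · change gv _ 0 ≤ _
      rw [map_zero]; exact zero_le
    · exact (gv_X j).le

lemma ex_one_le_nu (τ : ℝ) {f : A} (hf : ∀ c, f ≠ algebraMap k A c) : ex 1 ≤ nu θ θ' τ f := by
  obtain ⟨h1, h2⟩ := deform_deg_pos θ' hf
  refine le_trans ?_ (deform_left_le θ θ' τ f)
  rw [gv_const zero_le_one h1, ex_le_ex, one_mul]
  exact_mod_cast h2

lemma ex_le_nu (τ : ℝ) {f : A} (hf : ∀ c, f ≠ algebraMap k A c) : ex τ ≤ nu θ θ' τ f := by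
  rcases le_total τ 1 with h | h
  · exact (ex_le_ex.2 h).trans (ex_one_le_nu θ θ' τ hf)
  · obtain ⟨h1, h2⟩ := deform_deg_pos θ hf
    refine le_trans ?_ (deform_right_le θ θ' τ f)
    rw [gv_const (by linarith) h1, ex_le_ex]
    have h3 : (1 : ℝ) ≤ (θ.symm f).totalDegree := by exact_mod_cast h2
    nlinarith

lemma nu_mono {τ τ' : ℝ} (h : τ ≤ τ') (f : A) : nu θ θ' τ f ≤ nu θ θ' τ' f := by
  have h1 := gv_shift (ρ := wt ι τ') (ρ' := wt ι τ) (g := eps θ θ' f) (Δ := 0) le_rfl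
    (fun v => by rcases v with j | j <;> simp [wt, h])
  rwa [zero_mul, ex_zero, mul_one] at h1

lemma deform_iot_le (τ : ℝ) (f : A) :
    gv (wt ι τ) (iot θ' f) ≤ ex ((θ'.symm f).totalDegree : ℝ) := by
  have h1 := gv_contr (ρ := fun _ => (1 : ℝ)) (gv (wt ι τ))
    ((iot θ').comp θ'.toAlgHom).toRingHom (fun a => ?_) (fun v => ?_) (θ'.symm f)
  · have h2 := deform_gv_const_le zero_le_one (θ'.symm f)
    rw [one_mul] at h2
    refine le_trans (le_of_eq ?_) (h1.trans h2)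
    change _ = gv _ (iot θ' (θ' (θ'.symm f)))
    rw [AlgEquiv.apply_symm_apply]
  · change gv _ (((iot θ').comp θ'.toAlgHom) (algebraMap k _ a)) ≤ 1
    rw [AlgHom.commutes, MvPolynomial.algebraMap_apply]
    exact gv_C_le _
  · change gv _ (iot θ' (θ' (X v))) ≤ _
    rw [iot_X]
    exact Valuation.map_add_le _ ((gv_C_le _).trans one_lt_ex_one.le) (gv_X _).le

lemma deform_deg_eps {M : ℕ} (hM : ∀ j, (eps θ θ' (θ' (X j))).totalDegree ≤ M) {f : A}
    (hf : f ≠ 0) : ((eps θ θ' f).totalDegree : ℝ) ≤ M * (θ'.symm f).totalDegree := by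
  have h0 : eps θ θ' f ≠ 0 := fun h => hf (by rw [← const_eps θ θ' f, h, map_zero])
  have h1 := gv_contr (ρ := fun _ => (M : ℝ)) (gv fun _ : ι ⊕ ι => (1 : ℝ))
    ((eps θ θ').comp θ'.toAlgHom).toRingHom (fun a => ?_) (fun v => ?_) (θ'.symm f)
  · have h2 := deform_gv_const_le (Nat.cast_nonneg M) (θ'.symm f)
    have h3 : gv (fun _ : ι ⊕ ι => (1 : ℝ)) (eps θ θ' f) ≤
        ex ((M : ℝ) * (θ'.symm f).totalDegree) := by
      refine le_trans (le_of_eq ?_) (h1.trans h2)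
      change _ = gv _ (eps θ θ' (θ' (θ'.symm f)))
      rw [AlgEquiv.apply_symm_apply]
    rwa [gv_const zero_le_one h0, ex_le_ex, one_mul] at h3
  · change gv _ (((eps θ θ').comp θ'.toAlgHom) (algebraMap k _ a)) ≤ 1
    rw [AlgHom.commutes, MvPolynomial.algebraMap_apply]
    exact gv_C_le _
  · change gv _ (eps θ θ' (θ' (X v))) ≤ _
    refine (deform_gv_const_le zero_le_one _).trans ?_
    rw [ex_le_ex, one_mul]
    exact_mod_cast hM v

lemma deform_lo [Fintype ι] {M : ℕ} (j : ι) (hM : (eps θ θ' (θ' (X j))).totalDegree ≤ M) :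
    nu θ θ' (-M) (θ' (X j)) ≤ ex 1 := by
  rw [nu_apply, gv_le_iff]
  intro m hm
  rw [ex_le_ex, Finsupp.weight_eq_sum, Fintype.sum_sum_type]
  simp only [wt, Sum.elim_inl, Sum.elim_inr, nsmul_eq_mul, mul_one]
  rw [← Finset.sum_mul, ← Nat.cast_sum, ← Nat.cast_sum]
  have h1 : (∑ i, m (Sum.inl i)) + ∑ i, m (Sum.inr i) ≤ M := by
    have h2 := (le_totalDegree (mem_support_iff.2 hm)).trans hM
    rwa [Finsupp.sum_fintype _ _ (fun _ => rfl), Fintype.sum_sum_type] at h2
  by_cases hb : ∑ i, m (Sum.inr i) = 0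
  · rw [hb, Nat.cast_zero, zero_mul, add_zero]
    have h2 : (m.support : Set (ι ⊕ ι)) ⊆ Set.range Sum.inl := by
      rintro (i | i) hi
      · exact ⟨i, rfl⟩
      · exact absurd ((Finset.sum_eq_zero_iff.1 hb) i (Finset.mem_univ i))
          (Finsupp.mem_support_iff.1 hi)
    rw [← m.mapDomain_comapDomain Sum.inl Sum.inl_injective h2,
      ← coeff_killCompl Sum.inl_injective, deform_kill, iot_X, map_add, killCompl_C,
      ← rename_X, killCompl_rename_app] at hm
    have h3 := (le_totalDegree (mem_support_iff.2 hm)).trans (totalDegree_add _ _)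
    rw [totalDegree_C, totalDegree_X, Finsupp.sum_fintype _ _ (fun _ => rfl)] at h3
    simp only [Finsupp.comapDomain_apply] at h3
    exact_mod_cast h3
  · have h2 : (1 : ℝ) ≤ (∑ i, m (Sum.inr i) : ℕ) := by
      exact_mod_cast Nat.one_le_iff_ne_zero.2 hb
    have h3 : ((∑ i, m (Sum.inl i) : ℕ) : ℝ) ≤ M := by
      exact_mod_cast (Nat.le_add_right _ _).trans h1
    have h4 : (0 : ℝ) ≤ M := Nat.cast_nonneg M
    nlinarith

theorem exists_window [Finite ι] : ∃ (lo hi Δ : ℝ), lo ≤ hi ∧ 0 < Δ ∧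
    (∀ j, nu θ θ' lo (θ' (X j)) ≤ ex 1) ∧ (∀ i, nu θ θ' hi (θ (X i)) ≤ ex hi) ∧
    ∀ τ τ' f, τ' ≤ τ + Δ → nu θ θ' τ' f ≤ nu θ θ' τ f ^ 2 := by
  have := Fintype.ofFinite ι
  obtain ⟨M, hM⟩ : ∃ M : ℕ, ∀ j, (eps θ θ' (θ' (X j))).totalDegree ≤ M :=
    ⟨Finset.univ.sup fun j => (eps θ θ' (θ' (X j))).totalDegree, fun j =>
      Finset.le_sup (f := fun j => (eps θ θ' (θ' (X j))).totalDegree) (Finset.mem_univ j)⟩
  obtain ⟨N, hN⟩ : ∃ N : ℕ, ∀ i, (θ'.symm (θ (X i))).totalDegree ≤ N :=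
    ⟨Finset.univ.sup fun i => (θ'.symm (θ (X i))).totalDegree, fun i =>
      Finset.le_sup (f := fun i => (θ'.symm (θ (X i))).totalDegree) (Finset.mem_univ i)⟩
  have hM0 : (0 : ℝ) ≤ M := Nat.cast_nonneg M
  have hN0 : (0 : ℝ) ≤ N := Nat.cast_nonneg N
  have hΔ : (0 : ℝ) < 1 / (M + 1) := by positivity
  refine ⟨-M, N, 1 / (M + 1), by linarith, hΔ, fun j => deform_lo θ θ' j (hM j), fun i => ?_,
    fun τ τ' f h => ?_⟩
  · rw [nu_apply, eps_X]
    refine Valuation.map_add_le _ ((deform_iot_le θ' _ _).trans (ex_le_ex.2 ?_)) (gv_X _).le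
    exact_mod_cast hN i
  · by_cases hf : f = 0
    · rw [hf, map_zero]; exact zero_le
    have h1 := gv_shift (ρ := wt ι τ) (ρ' := wt ι τ') (g := eps θ θ' f) hΔ.le
      (fun v => by
        rcases v with j | j
        · simp only [wt, Sum.elim_inl]; linarith
        · exact h)
    rw [sq]
    refine h1.trans (mul_le_mul_right (le_trans ?_ (deform_left_le θ θ' τ f)) _)
    have h2 : θ'.symm f ≠ 0 := fun h0 => hf (by rw [← θ'.apply_symm_apply f, h0, map_zero])
    rw [gv_const zero_le_one h2, ex_le_ex, one_mul, one_div, inv_mul_le_iff₀ (by positivity)]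
    have h3 := deform_deg_eps θ θ' hM hf
    have h4 : (0 : ℝ) ≤ (θ'.symm f).totalDegree := Nat.cast_nonneg _
    nlinarith

end Pool.Agent.P.MP_dabb5b_ag.N
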