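import Mathlib

/-! Coefficientwise derivations and determinant derivations. -/

namespace Pool.Agent.P.MP_dabb5b_ag.N

open MvPolynomial NNReal

variable {k A σ : Type*} [CommRing k] [CommRing A] [Algebra k A]

/-- the coefficientwise action as a function -/
noncomputable def deriv_fn (E : Derivation k A A) (g : MvPolynomial σ A) : MvPolynomial σ A :=
  ∑ m ∈ g.support, monomial m (E (coeff m g))

lemma deriv_coeff_fn (E : Derivation k A A) (g : MvPolynomial σ A) (m : σ →₀ ℕ) :
    coeff m (deriv_fn E g) = E (coeff m g) := by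
  classical
  rw [deriv_fn, coeff_sum]
  simp only [coeff_monomial]
  rw [Finset.sum_ite_eq']
  split_ifs with h
  · rfl
  · rw [notMem_support_iff.1 h, map_zero]

theorem exists_cw (σ : Type*) (E : Derivation k A A) :
    ∃ E' : Derivation k (MvPolynomial σ A) (MvPolynomial σ A),
      ∀ g m, coeff m (E' g) = E (coeff m g) := by
  classical
  let L : MvPolynomial σ A →ₗ[k] MvPolynomial σ A :=
    { toFun := deriv_fn E
      map_add' := fun f g => by
        ext m; simp only [deriv_coeff_fn, coeff_add, map_add]
      map_smul' := fun c f => by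
        ext m; simp only [deriv_coeff_fn, coeff_smul, RingHom.id_apply, Derivation.map_smul] }
  have hL : ∀ g m, coeff m (L g) = E (coeff m g) := fun g m => deriv_coeff_fn E g m
  refine ⟨Derivation.mk' L fun f g => ?_, hL⟩
  ext m
  rw [hL, smul_eq_mul, smul_eq_mul, mul_comm g, coeff_add, coeff_mul, coeff_mul, coeff_mul,
    map_sum, ← Finset.sum_add_distrib]
  refine Finset.sum_congr rfl fun x _ => ?_
  rw [hL, hL, Derivation.leibniz, smul_eq_mul, smul_eq_mul, mul_comm (coeff x.2 g)]

/-- a derivation applied to the coefficients -/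
noncomputable def cw (σ : Type*) (E : Derivation k A A) :
    Derivation k (MvPolynomial σ A) (MvPolynomial σ A) := (exists_cw σ E).choose

lemma coeff_cw (E : Derivation k A A) (g : MvPolynomial σ A) (m : σ →₀ ℕ) :
    coeff m (cw σ E g) = E (coeff m g) := (exists_cw σ E).choose_spec g m

lemma cw_C (E : Derivation k A A) (a : A) : cw σ E (C a) = C (E a) := by
  classical
  ext m
  rw [coeff_cw, coeff_C, coeff_C]
  split_ifs
  · rfl
  · exact map_zero _

lemma cw_X (E : Derivation k A A) (v : σ) : cw σ E (X v) = 0 := by
  classical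
  ext m
  rw [coeff_cw, coeff_X, coeff_zero]
  split_ifs
  · exact E.map_one_eq_zero
  · exact map_zero _

variable {κ : Type*} [Fintype κ] [DecidableEq κ]

lemma deriv_det (d : Option κ → Derivation k A A) (z : κ → A) (g : A) :
    (Matrix.of fun i l : Option κ => d l (Option.elim i g z)).det =
      ∑ s : Equiv.Perm (Option κ),
        (((Equiv.Perm.sign s : ℤ) : A) * ∏ i, d (s (some i)) (z i)) * d (s none) g := by
  rw [← Matrix.det_transpose, Matrix.det_apply']
  refine Finset.sum_congr rfl fun s _ => ?_
  rw [Fintype.prod_option]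
  simp only [Matrix.transpose_apply, Matrix.of_apply, Option.elim]
  ring

theorem exists_dd (d : Option κ → Derivation k A A) (z : κ → A) :
    ∃ E : Derivation k A A,
      ∀ g, E g = (Matrix.of fun i l : Option κ => d l (Option.elim i g z)).det := by
  refine ⟨∑ s : Equiv.Perm (Option κ),
    (((Equiv.Perm.sign s : ℤ) : A) * ∏ i, d (s (some i)) (z i)) • d (s none), fun g => ?_⟩
  rw [deriv_det]
  change (Derivation.coeFnAddMonoidHom _) g = _
  rw [map_sum, Finset.sum_apply]
  rfl

/-- the derivation `g ↦ det (d l (g, z))` -/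
noncomputable def dd (d : Option κ → Derivation k A A) (z : κ → A) : Derivation k A A :=
  (exists_dd d z).choose

lemma dd_apply (d : Option κ → Derivation k A A) (z : κ → A) (g : A) :
    dd d z g = (Matrix.of fun i l : Option κ => d l (Option.elim i g z)).det :=
  (exists_dd d z).choose_spec g

lemma dd_z (d : Option κ → Derivation k A A) (z : κ → A) (i : κ) : dd d z (z i) = 0 := by
  rw [dd_apply]
  exact Matrix.det_zero_of_row_eq (i := none) (j := some i) (by simp) rfl

lemma dd_le (ν : Valuation A ℝ≥0) (d : Option κ → Derivation k A A) (z : κ → A)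
    (h : ∀ l g, ν (d l g) ≤ ν g) (g : A) : ν (dd d z g) ≤ (∏ i, ν (z i)) * ν g := by
  rw [dd_apply, deriv_det]
  refine ν.map_sum_le fun s _ => ?_
  have hs : ν ((Equiv.Perm.sign s : ℤ) : A) = 1 := by
    rcases Int.units_eq_one_or (Equiv.Perm.sign s) with h1 | h1 <;> simp [h1]
  rw [map_mul, map_mul, hs, one_mul, map_prod]
  exact mul_le_mul' (Finset.prod_le_prod' fun i _ => h _ _) (h _ _)

lemma map_dd {A' : Type*} [CommRing A'] (π : A →+* A') (d : Option κ → Derivation k A A)
    (z : κ → A) (h0 : ∀ i, π (d none (z i)) = 0)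
    (h1 : ∀ i l, π (d (some l) (z i)) = if i = l then 1 else 0) (g : A) :
    π (dd d z g) = π (d none g) := by
  rw [dd_apply, deriv_det, map_sum, Finset.sum_eq_single 1]
  · simp [h1]
  · intro s _ hs
    have : ∃ i, s (some i) ≠ some i := by
      by_contra h2
      push Not at h2
      refine hs (Equiv.ext fun x => ?_)
      rcases x with _ | i
      · rcases h3 : s none with _ | j
        · rfl
        · exact absurd (s.injective (h3.trans (h2 j).symm)) (by simp)
      · exact h2 i
    obtain ⟨i, hi⟩ := this
    rw [map_mul, map_mul, map_prod, Finset.prod_eq_zero (Finset.mem_univ i), mul_zero, zero_mul]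
    rcases h3 : s (some i) with _ | l
    · exact h0 i
    · rw [h1, if_neg]
      rintro rfl
      exact hi h3
  · simp

end Pool.Agent.P.MP_dabb5b_ag.N
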