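import Pool.Agent.P.MP_dabb5b_ag.N.Lead

/-! Behaviour of the leading data under affine and triangular changes of coordinates. -/

namespace Pool.Agent.P.MP_dabb5b_ag.N

open MvPolynomial

variable {K : Type*} [Field K] {φ φ' : S K ≃ₐ[K] S K} {g : S K} {D e D' e' : ℕ}

section aux

open Finsupp (weight)

variable {w : Fin 2 → ℤ} {d : ℤ} {F G : S K}

lemma edge_le_aeval {w' : Fin 2 → ℤ} (β : S K ≃ₐ[K] S K) (hβ : ∀ i, Le w' (w i) (β (X i)))
    (h : Le w d F) : Le w' d (β F) := by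
  have := (Top.aeval (a := fun i => β (X i)) (fun i => Top.of_le (hβ i)) (Top.of_le h)).le
  rwa [show aeval (fun i => β (X i)) F = β F from
    (congrArg (fun f : S K →ₐ[K] S K => f F) (aeval_unique (β : S K →ₐ[K] S K))).symm] at this

lemma edge_top_aeval (β : S K ≃ₐ[K] S K) {p q : S K} (h0 : Top w (w 0) (β (X 0)) p)
    (h1 : Top w (w 1) (β (X 1)) q) (h : Top w d F G) : Top w d (β F) (aeval ![p, q] G) := by
  have := Top.aeval (a := fun i => β (X i)) (b := ![p, q]) (w' := w)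
    (Fin.forall_fin_two.2 ⟨h0, h1⟩) h
  rwa [show aeval (fun i => β (X i)) F = β F from
    (congrArg (fun f : S K →ₐ[K] S K => f F) (aeval_unique (β : S K →ₐ[K] S K))).symm] at this

lemma edge_of_top (h : Top w d F G) {m : Fin 2 →₀ ℕ} (hm : coeff m G ≠ 0) :
    coeff m F ≠ 0 ∧ weight w m = d := by
  have h1 := h.1 hm
  refine ⟨fun h0 => ?_, h1⟩
  have := h.2 m (by rw [coeff_sub, h0, zero_sub]; exact neg_ne_zero.2 hm)
  omega

lemma edge_to_top (h : Top w d F G) {m : Fin 2 →₀ ℕ} (hm : coeff m F ≠ 0)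
    (h1 : weight w m = d) : coeff m G ≠ 0 := fun h0 => by
  have := h.2 m (by rwa [coeff_sub, h0, sub_zero])
  omega

lemma edge_dvd (p q : S K) {n : ℕ} (i : Fin 2) (h : ∀ m, coeff m G ≠ 0 → n ≤ m i) :
    (![p, q] i) ^ n ∣ aeval ![p, q] G := by
  rw [G.as_sum, map_sum]
  refine Finset.dvd_sum fun m hm => ?_
  have := h m (mem_support_iff.1 hm)
  rw [aeval_mono2]
  fin_cases i
  · exact ((pow_dvd_pow _ this).mul_right _).mul_left _
  · exact ((pow_dvd_pow _ this).mul_left _).mul_left _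

lemma edge_key {l l0 : S K} {k : ℤ} {n : ℕ} (hG : G ≠ 0) (hd : l ^ n ∣ G) (hl : Top w k l l0)
    (h0 : l0 ≠ 0) (hw : ∀ m : Fin 2 →₀ ℕ, 0 ≤ weight w m) :
    ∃ m : Fin 2 →₀ ℕ, coeff m G ≠ 0 ∧ n * k ≤ weight w m := by
  obtain ⟨U, rfl⟩ := hd
  obtain ⟨d, u, h1, h2⟩ := exists_top w (right_ne_zero_of_mul hG)
  obtain ⟨m, hm⟩ := exists_coeff_ne_zero h2
  have h3 := (edge_of_top h1 hm).2
  obtain ⟨m', hm'⟩ := exists_coeff_ne_zero (mul_ne_zero (pow_ne_zero n h0) h2)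
  obtain ⟨h4, h5⟩ := edge_of_top ((hl.pow n).mul h1) hm'
  refine ⟨m', h4, ?_⟩
  rw [h5, nsmul_eq_mul]
  linarith [hw m]

lemma edge_lin (a : K) (i : Fin 2) : Top w (w i) (C a * X i : S K) (C a * X i) := by
  simpa using (Top.C (w := w) a).mul (Top.X i)

lemma edge_pow (a : K) (n : ℕ) : Top w (n * w 1) (C a * X 1 ^ n : S K) (C a * X 1 ^ n) := by
  simpa using (Top.C (w := w) a).mul ((Top.X 1).pow n)

lemma edge_le_r (s : ℤ) (r : Polynomial K) :
    Le ![s, 1] r.natDegree (Polynomial.aeval (X 1 : S K) r) := by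
  rw [Polynomial.aeval_eq_sum_range]
  refine Le.sum _ fun i hi => ?_
  rw [smul_eq_C_mul]
  refine (edge_pow _ _).le.mono ?_
  have := Finset.mem_range.1 hi
  simp only [Matrix.cons_val_one, Matrix.cons_val_zero]
  omega

lemma edge_top_r (s : ℤ) {r : Polynomial K} (hr : 1 ≤ r.natDegree) :
    Top ![s, 1] r.natDegree (Polynomial.aeval (X 1 : S K) r)
      (C r.leadingCoeff * X 1 ^ r.natDegree) := by
  have h1 : Top ![s, 1] r.natDegree (Polynomial.aeval (X 1 : S K) r.eraseLead) 0 :=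
    Top.zero ((edge_le_r s _).mono (by have := r.eraseLead_natDegree_le; omega))
  have h2 := h1.add (by simpa using edge_pow (w := ![s, 1]) r.leadingCoeff r.natDegree)
  rw [zero_add] at h2
  convert h2 using 1
  have := congrArg (Polynomial.aeval (X 1 : S K)) r.eraseLead_add_C_mul_X_pow
  rw [← this, map_add, map_mul, map_pow, Polynomial.aeval_C, Polynomial.aeval_X, algebraMap_eq]

lemma edge_C (β : S K ≃ₐ[K] S K) (a : K) : β (C a) = C a := β.commutes a

lemma edge_aff {P : S K} (h : φ' P ∈ VA (φ (X 0)) (φ (X 1))) :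
    ∃ a b c : K, φ'.trans φ.symm P = C a * X 0 + C b * X 1 + C c := by
  obtain ⟨a, b, c, h⟩ := h
  exact ⟨a, b, c, by simp [h, edge_C]⟩

lemma edge_aff1 (h : φ' (X 1) ∈ VB (φ (X 1))) :
    ∃ b c : K, b ≠ 0 ∧ φ'.trans φ.symm (X 1) = C b * X 1 + C c := by
  obtain ⟨b, c, h⟩ := h
  refine ⟨b, c, ?_, by simp [h, edge_C]⟩
  rintro rfl
  have := totalDegree_pos φ' 1
  rw [h] at this
  simp at this

lemma edge_back {P Q : S K} (h : φ'.trans φ.symm P = Q) : φ' P = φ Q := by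
  rw [← h]; simp

lemma edge_app : φ'.trans φ.symm (φ'.symm g) = φ.symm g := by simp

lemma edge_mem (hU : VA (φ (X 0)) (φ (X 1)) = VA (φ' (X 0)) (φ' (X 1))) (i : Fin 2) :
    φ' (X i) ∈ VA (φ (X 0)) (φ (X 1)) := by
  rw [hU]
  fin_cases i
  · exact left_mem_VA
  · exact right_mem_VA

lemma edge_le_aff (a b c : K) {s t u : ℤ} (h0 : s ≤ u) (h1 : t ≤ u) (h2 : 0 ≤ u) :
    Le ![s, t] u (C a * X 0 + C b * X 1 + C c : S K) :=
  (((edge_lin a 0).le.mono h0).add ((edge_lin b 1).le.mono h1)).add ((Le.C c).mono h2)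

lemma edge_top_aff (a b c : K) :
    Top ![1, 1] 1 (C a * X 0 + C b * X 1 + C c : S K) (C a * X 0 + C b * X 1) := by
  have := ((edge_lin (w := ![1, 1]) a 0).add (edge_lin b 1)).add (Top.zero (Le.C c))
  rwa [add_zero] at this

lemma edge_deg_le (hU : VA (φ (X 0)) (φ (X 1)) = VA (φ' (X 0)) (φ' (X 1)))
    (h : Lead (φ.symm g) D e) (h' : Lead (φ'.symm g) D' e') : D ≤ D' := by
  have h1 : Le ![1, 1] D' (φ'.symm g) := fun m hm => by
    have := h'.le m hm
    rw [weight2]; omega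
  have h2 := edge_le_aeval (w' := ![1, 1]) (φ'.trans φ.symm) (fun i => by
    obtain ⟨a, b, c, h⟩ := edge_aff (edge_mem hU i)
    rw [h]
    fin_cases i <;> exact edge_le_aff a b c le_rfl le_rfl zero_le_one) h1
  obtain ⟨m, hm, -, h3⟩ := h.ex
  have := h2 m (by rwa [edge_app])
  rw [weight2] at this
  omega

lemma edge_e_le (hU : VA (φ (X 0)) (φ (X 1)) = VA (φ' (X 0)) (φ' (X 1)))
    (hW : VB (φ (X 1)) = VB (φ' (X 1)))
    (h : Lead (φ.symm g) D e) (h' : Lead (φ'.symm g) D e') : e ≤ e' := by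
  have h1 : Le ![(D : ℤ) + 1, D] (D * D + e') (φ'.symm g) := fun m hm => by
    have a1 : (m 0 : ℤ) + m 1 ≤ D := by exact_mod_cast h'.le m hm
    have a2 := h'.top m hm
    rw [weight2]
    rcases a1.eq_or_lt with a | a
    · have : (m 0 : ℤ) ≤ e' := by exact_mod_cast a2 (by exact_mod_cast a)
      nlinarith
    · nlinarith [mul_le_mul_of_nonneg_left (show (m 0 : ℤ) + m 1 ≤ D - 1 by omega)
        (Int.natCast_nonneg D), Int.natCast_nonneg (m 1), Int.natCast_nonneg e']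
  have h2 := edge_le_aeval (w' := ![(D : ℤ) + 1, D]) (φ'.trans φ.symm) (Fin.forall_fin_two.2 ⟨by
    obtain ⟨a, b, c, h⟩ := edge_aff (edge_mem hU 0)
    rw [h]
    exact edge_le_aff a b c le_rfl (by simp) (by simp; omega), by
    obtain ⟨b, c, -, h⟩ := edge_aff1 (hW ▸ mem_VB : φ' (X 1) ∈ VB (φ (X 1)))
    rw [h]
    exact (edge_lin b 1).le.add ((Le.C c).mono (by simp))⟩) h1
  obtain ⟨m, hm, h3, h4⟩ := h.ex
  have := h2 m (by rwa [edge_app])
  have a1 : (m 0 : ℤ) + m 1 = D := by exact_mod_cast h4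
  have a2 : (m 0 : ℤ) = e := by exact_mod_cast h3
  rw [weight2] at this
  have : (e : ℤ) ≤ e' := by nlinarith
  exact_mod_cast this

lemma edge_VB (h : φ' (X 1) ∈ VB (φ (X 1))) : VB (φ (X 1)) = VB (φ' (X 1)) := by
  obtain ⟨b, c, hb, h1⟩ := edge_aff1 h
  refine (VB_sub ⟨b⁻¹, -(b⁻¹ * c), ?_⟩).antisymm (VB_sub h)
  rw [edge_back h1]
  simp only [map_add, map_mul, edge_C, map_neg]
  linear_combination (-φ (X 1)) * (C_mul (σ := Fin 2) (a := b⁻¹) (a' := b)).symm.trans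
    (by rw [inv_mul_cancel₀ hb, C_1])

lemma edge_low {F : S K} {D e m : ℕ} (h : Lead F D e) (hm : 2 ≤ m) (ht : Top ![m, 1] d F G) :
    ∀ n, coeff n G ≠ 0 → e ≤ n 0 := fun n hn => by
  obtain ⟨h1, h2⟩ := edge_of_top ht hn
  obtain ⟨k, h3, h4, h5⟩ := h.ex
  have h6 := ht.le k h3
  have h7 : (n 0 : ℤ) + n 1 ≤ D := by exact_mod_cast h.le n h1
  have h8 : (k 0 : ℤ) + k 1 = D := by exact_mod_cast h5
  rw [weight2] at h2 h6
  by_contra hc
  have h9 : (n 0 : ℤ) + 1 ≤ k 0 := by rw [h4]; exact_mod_cast not_le.1 hc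
  have : (2 : ℤ) ≤ m := by exact_mod_cast hm
  nlinarith [mul_le_mul_of_nonneg_left h9 (show (0 : ℤ) ≤ m - 2 by omega)]

lemma edge_inj {a b : K} (ha : a ≠ 0) (hb : b ≠ 0) (c : K) (m : ℕ) (hG : G ≠ 0) :
    aeval ![C a * X 0 + C c * X 1 ^ m, (C b * X 1 : S K)] G ≠ 0 := fun h => hG (by
  have key : (aeval ![C a⁻¹ * (X 0 - C c * (C b⁻¹ * X 1) ^ m), (C b⁻¹ * X 1 : S K)]).comp
      (aeval ![C a * X 0 + C c * X 1 ^ m, (C b * X 1 : S K)]) = AlgHom.id K (S K) := by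
    refine algHom_ext (Fin.forall_fin_two.2 ⟨?_, ?_⟩) <;>
      simp [← mul_assoc, ← C_mul, mul_inv_cancel₀ ha, mul_inv_cancel₀ hb]
  have := congrArg (fun f : S K →ₐ[K] S K => f G) key
  simp only [AlgHom.comp_apply, h, map_zero, AlgHom.id_apply] at this
  exact this.symm)

end aux

/-- the degree depends only on the affine vertex -/
theorem lead_deg (hU : VA (φ (X 0)) (φ (X 1)) = VA (φ' (X 0)) (φ' (X 1)))
    (h : Lead (φ.symm g) D e) (h' : Lead (φ'.symm g) D' e') : D = D' := by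
  exact (edge_deg_le hU h h').antisymm (edge_deg_le hU.symm h' h)

/-- the leading data depend only on the edge -/
theorem lead_edge (hU : VA (φ (X 0)) (φ (X 1)) = VA (φ' (X 0)) (φ' (X 1)))
    (hW : VB (φ (X 1)) = VB (φ' (X 1)))
    (h : Lead (φ.symm g) D e) (h' : Lead (φ'.symm g) D' e') : e = e' := by
  obtain rfl := lead_deg hU h h'
  exact (edge_e_le hU hW h h').antisymm (edge_e_le hU.symm hW.symm h' h)

/-- two different directions at one affine vertex -/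
theorem lead_dir (hU : VA (φ (X 0)) (φ (X 1)) = VA (φ' (X 0)) (φ' (X 1)))
    (hW : VB (φ (X 1)) ≠ VB (φ' (X 1)))
    (h : Lead (φ.symm g) D e) (h' : Lead (φ'.symm g) D' e') : D ≤ e + e' := by
  obtain rfl := lead_deg hU h h'
  obtain ⟨a0, b0, c0, h0⟩ := edge_aff (edge_mem hU 0)
  obtain ⟨a, b, c, h1⟩ := edge_aff (edge_mem hU 1)
  have ha : a ≠ 0 := by
    rintro rfl
    refine hW (edge_VB ⟨b, c, ?_⟩)
    rw [edge_back h1]
    simp [edge_C]
  have t1 := Top.of_le (show Le ![1, 1] D (φ'.symm g) from fun m hm => by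
    have := h'.le m hm
    rw [weight2]; omega)
  have t2 := edge_top_aeval (φ'.trans φ.symm) (h0 ▸ edge_top_aff a0 b0 c0)
    (h1 ▸ edge_top_aff a b c) t1
  rw [edge_app] at t2
  obtain ⟨k, k1, -, k2⟩ := h.ex
  have k3 := edge_to_top t2 k1 (by rw [weight2]; omega)
  have l1 : Top ![1, 0] 1 (C a * X 0 + C b * X 1 : S K) (C a * X 0) := by
    have := (edge_lin (w := ![1, 0]) a 0).add (Top.zero (edge_lin (w := ![1, 0]) b 1).le)
    rwa [add_zero] at this
  obtain ⟨m, m1, m2⟩ := edge_key (n := D - e') (ne_zero_iff.2 ⟨k, k3⟩)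
    (edge_dvd _ _ 1 fun m hm => by
      obtain ⟨u1, u2⟩ := edge_of_top t1 hm
      rw [weight2] at u2
      have := h'.top m u1 (by omega)
      omega) l1 (mul_ne_zero (C_ne_zero.2 ha) (X_ne_zero _)) (fun m => by rw [weight2]; omega)
  obtain ⟨u1, u2⟩ := edge_of_top t2 m1
  rw [weight2] at m2 u2
  have := h.top m u1 (by omega)
  omega

/-- one step across a triangular vertex -/
theorem one_step [CharZero K] (hW : VB (φ (X 1)) = VB (φ' (X 1)))
    (hU : VA (φ (X 0)) (φ (X 1)) ≠ VA (φ' (X 0)) (φ' (X 1)))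
    (h : Lead (φ.symm g) D e) (h' : Lead (φ'.symm g) D' e') : e + 2 * e' ≤ D := by
  obtain ⟨b, c, hb, h1⟩ := edge_aff1 (hW ▸ mem_VB : φ' (X 1) ∈ VB (φ (X 1)))
  obtain ⟨a, r, h0⟩ := triangular _ h1
  have ha : a ≠ 0 := by
    rintro rfl
    refine not_both (φ'.trans φ.symm).symm (Fin.forall_fin_two.2 ⟨?_, ?_⟩)
    · rw [AlgEquiv.symm_symm, h0, C_0, zero_mul, zero_add, Polynomial.aeval_eq_sum_range]
      refine Le.sum _ fun i _ => ?_
      rw [smul_eq_C_mul]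
      simpa using (edge_pow (w := ![1, 0]) (r.coeff i) i).le
    · rw [AlgEquiv.symm_symm, h1]
      exact (edge_lin (w := ![1, 0]) b 1).le.add (Le.C c)
  have hr : 2 ≤ r.natDegree := by
    by_contra hc
    have e1 := Polynomial.eq_X_add_C_of_natDegree_le_one (show r.natDegree ≤ 1 by omega)
    have e2 : φ' (X 0) = C a * φ (X 0) + C (r.coeff 1) * φ (X 1) + C (r.coeff 0) := by
      rw [edge_back h0]
      conv_lhs => rw [e1]
      simp [edge_C, add_assoc]
    have e3 : φ (X 1) ∈ VA (φ' (X 0)) (φ' (X 1)) := VB_sub_VA (hW ▸ mem_VB)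
    obtain ⟨p, q, s, e4⟩ := e3
    refine hU ((VA_sub ⟨a⁻¹ * (1 - r.coeff 1 * p), -(a⁻¹ * r.coeff 1 * q),
      -(a⁻¹ * (r.coeff 1 * s + r.coeff 0)), ?_⟩ ⟨p, q, s, e4⟩).antisymm
      (VA_sub ⟨_, _, _, e2⟩ (VB_sub_VA (hW ▸ mem_VB))))
    have e5 : (C a⁻¹ * C a : S K) = 1 := by rw [← C_mul, inv_mul_cancel₀ ha, C_1]
    simp only [map_mul, map_neg, map_add, map_sub, map_one]
    linear_combination (-φ (X 0)) * e5 - C a⁻¹ * e2 - C a⁻¹ * C (r.coeff 1) * e4
  obtain ⟨d, G, t1, hG⟩ := exists_top ![(r.natDegree : ℤ), 1] h'.ne_zero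
  have t2 := edge_top_aeval (φ'.trans φ.symm)
    (h0 ▸ (edge_lin a 0).add (edge_top_r _ (by omega)))
    (q := C b * X 1) (by
      have := (edge_lin (w := ![(r.natDegree : ℤ), 1]) b 1).add (Top.zero (Le.C c))
      rwa [add_zero, ← h1] at this) t1
  rw [edge_app] at t2
  have lc : r.leadingCoeff ≠ 0 := Polynomial.leadingCoeff_ne_zero.2 (by rintro rfl; simp at hr)
  have l1 : Top ![0, 1] r.natDegree (C a * X 0 + C r.leadingCoeff * X 1 ^ r.natDegree : S K)
      (C r.leadingCoeff * X 1 ^ r.natDegree) := by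
    have := (Top.zero (d := r.natDegree) ((edge_lin (w := ![0, 1]) a 0).le.mono
      (by simp; omega))).add (by simpa using edge_pow (w := ![0, 1]) r.leadingCoeff r.natDegree)
    rwa [zero_add] at this
  obtain ⟨m, m1, m2⟩ := edge_key (edge_inj ha hb _ _ hG) (edge_dvd _ _ 0 (edge_low h' hr t1)) l1
    (mul_ne_zero (C_ne_zero.2 lc) (pow_ne_zero _ (X_ne_zero _))) (fun m => by rw [weight2]; omega)
  have u1 := edge_low h hr t2 m m1
  have u2 := h.le m (edge_of_top t2 m1).1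
  rw [weight2] at m2
  have u3 : (e' : ℤ) * 2 ≤ e' * r.natDegree :=
    mul_le_mul_of_nonneg_left (by exact_mod_cast hr) (Int.natCast_nonneg _)
  omega

end Pool.Agent.P.MP_dabb5b_ag.N
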