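import Mathlib

/-! Weighted Gauss valuations with trivial valuation on the coefficients. -/

namespace Pool.Agent.P.MP_dabb5b_ag.N

open MvPolynomial NNReal

/-- the exponential as a nonnegative real -/
noncomputable def ex (t : ℝ) : ℝ≥0 := ⟨Real.exp t, (Real.exp_pos t).le⟩

@[simp] lemma coe_ex (t : ℝ) : (ex t : ℝ) = Real.exp t := rfl
lemma ex_pos (t : ℝ) : 0 < ex t := Real.exp_pos t
lemma ex_add (s t : ℝ) : ex (s + t) = ex s * ex t := NNReal.eq (Real.exp_add s t)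
@[simp] lemma ex_zero : ex 0 = 1 := NNReal.eq Real.exp_zero
lemma ex_le_ex {s t : ℝ} : ex s ≤ ex t ↔ s ≤ t := Real.exp_le_exp
lemma ex_lt_ex {s t : ℝ} : ex s < ex t ↔ s < t := Real.exp_lt_exp
lemma ex_nat_mul (n : ℕ) (t : ℝ) : ex (n * t) = ex t ^ n := NNReal.eq (by
  rw [coe_ex, Real.exp_nat_mul, NNReal.coe_pow, coe_ex])
lemma one_lt_ex_one : 1 < ex 1 := by rw [← ex_zero, ex_lt_ex]; exact one_pos
lemma continuous_ex : Continuous ex := Real.continuous_exp.subtype_mk _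

variable {σ A : Type*} [CommRing A]

/-- the largest exponential weight of a monomial of `g` -/
noncomputable def gvF (ρ : σ → ℝ) (g : MvPolynomial σ A) : ℝ≥0 :=
  g.support.sup fun m => ex (Finsupp.weight ρ m)

lemma gauss_le_iff {ρ : σ → ℝ} {g : MvPolynomial σ A} {c : ℝ≥0} :
    gvF ρ g ≤ c ↔ ∀ m, coeff m g ≠ 0 → ex (Finsupp.weight ρ m) ≤ c := by
  simp only [gvF, Finset.sup_le_iff, mem_support_iff]

lemma gauss_le {ρ : σ → ℝ} {g : MvPolynomial σ A} {m : σ →₀ ℕ} (h : coeff m g ≠ 0) :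
    ex (Finsupp.weight ρ m) ≤ gvF ρ g := gauss_le_iff.1 le_rfl m h

lemma gauss_max (ρ : σ → ℝ) {g : MvPolynomial σ A} (h : g ≠ 0) :
    ∃ m, coeff m g ≠ 0 ∧ gvF ρ g = ex (Finsupp.weight ρ m) := by
  obtain ⟨m, hm, h1⟩ := Finset.exists_mem_eq_sup g.support (support_nonempty.2 h)
    (fun m => ex (Finsupp.weight ρ m))
  exact ⟨m, mem_support_iff.1 hm, h1⟩

lemma gvF_mul [IsDomain A] (ρ : σ → ℝ) (f g : MvPolynomial σ A) :
    gvF ρ (f * g) = gvF ρ f * gvF ρ g := by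
  classical
  refine le_antisymm (gauss_le_iff.2 fun m hm => ?_) ?_
  · rw [coeff_mul] at hm
    obtain ⟨p, hp, h1⟩ := Finset.exists_ne_zero_of_sum_ne_zero hm
    rw [← Finset.HasAntidiagonal.mem_antidiagonal.1 hp, map_add, ex_add]
    exact mul_le_mul' (gauss_le (left_ne_zero_of_mul h1)) (gauss_le (right_ne_zero_of_mul h1))
  by_cases hf : f = 0
  · simp [hf, gvF]
  by_cases hg : g = 0
  · simp [hg, gvF]
  obtain ⟨a, ha, ea⟩ := gauss_max ρ hf
  obtain ⟨b, hb, eb⟩ := gauss_max ρ hg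
  have hfa : ∀ m, coeff m f ≠ 0 → Finsupp.weight ρ m ≤ Finsupp.weight ρ a := fun m hm =>
    ex_le_ex.1 (ea ▸ gauss_le hm)
  have hgb : ∀ m, coeff m g ≠ 0 → Finsupp.weight ρ m ≤ Finsupp.weight ρ b := fun m hm =>
    ex_le_ex.1 (eb ▸ gauss_le hm)
  obtain ⟨a0, ha0, b0, hb0, hu⟩ := UniqueSums.uniqueAdd_of_nonempty
    (A := f.support.filter fun m => Finsupp.weight ρ m = Finsupp.weight ρ a)
    (B := g.support.filter fun m => Finsupp.weight ρ m = Finsupp.weight ρ b)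
    ⟨a, Finset.mem_filter.2 ⟨mem_support_iff.2 ha, rfl⟩⟩
    ⟨b, Finset.mem_filter.2 ⟨mem_support_iff.2 hb, rfl⟩⟩
  rw [Finset.mem_filter, mem_support_iff] at ha0 hb0
  have hc : coeff (a0 + b0) (f * g) = coeff a0 f * coeff b0 g := by
    rw [coeff_mul, Finset.sum_eq_single (a0, b0)]
    · intro p hp hne
      by_contra h1
      have h2 := left_ne_zero_of_mul h1
      have h3 := right_ne_zero_of_mul h1
      have h4 := Finset.HasAntidiagonal.mem_antidiagonal.1 hp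
      have h5 := congrArg (Finsupp.weight ρ) h4
      rw [map_add, map_add, ha0.2, hb0.2] at h5
      have h6 := hfa _ h2
      have h7 := hgb _ h3
      have h8 : Finsupp.weight ρ p.1 = Finsupp.weight ρ a := le_antisymm h6 (by linarith)
      have h9 : Finsupp.weight ρ p.2 = Finsupp.weight ρ b := le_antisymm h7 (by linarith)
      obtain ⟨e1, e2⟩ := @hu p.1 p.2 (Finset.mem_filter.2 ⟨mem_support_iff.2 h2, h8⟩)
        (Finset.mem_filter.2 ⟨mem_support_iff.2 h3, h9⟩) h4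
      exact hne (Prod.ext e1 e2)
    · intro h
      exact absurd (Finset.HasAntidiagonal.mem_antidiagonal.2
        (show ((a0, b0) : (σ →₀ ℕ) × (σ →₀ ℕ)).1 + (a0, b0).2 = a0 + b0 from rfl)) h
  have := gauss_le (ρ := ρ) (hc ▸ mul_ne_zero ha0.1 hb0.1 : coeff (a0 + b0) (f * g) ≠ 0)
  rwa [map_add, ex_add, ha0.2, hb0.2, ← ea, ← eb] at this

lemma gvF_add (ρ : σ → ℝ) (f g : MvPolynomial σ A) :
    gvF ρ (f + g) ≤ max (gvF ρ f) (gvF ρ g) := by
  refine gauss_le_iff.2 fun m hm => ?_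
  by_cases h1 : coeff m f = 0
  · exact le_max_of_le_right (gauss_le (by simpa [h1] using hm))
  · exact le_max_of_le_left (gauss_le h1)

lemma gauss_monomial (ρ : σ → ℝ) (m : σ →₀ ℕ) {a : A} (h : a ≠ 0) :
    gvF ρ (monomial m a) = ex (Finsupp.weight ρ m) := by
  classical
  simp [gvF, support_monomial, h]

lemma gvF_one [Nontrivial A] (ρ : σ → ℝ) : gvF ρ (1 : MvPolynomial σ A) = 1 := by
  have := gauss_monomial ρ 0 (one_ne_zero (α := A))
  rwa [map_zero, ex_zero] at this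

variable [IsDomain A]

/-- the Gauss valuation with radii `exp (ρ v)` -/
noncomputable def gv (ρ : σ → ℝ) : Valuation (MvPolynomial σ A) ℝ≥0 where
  toFun := gvF ρ
  map_zero' := by simp [gvF]
  map_one' := gvF_one ρ
  map_mul' := gvF_mul ρ
  map_add_le_max' := gvF_add ρ

variable {ρ ρ' : σ → ℝ} {g g' : MvPolynomial σ A}

lemma gv_apply : gv ρ g = g.support.sup fun m => ex (Finsupp.weight ρ m) := rfl

lemma gv_le_iff {c : ℝ≥0} : gv ρ g ≤ c ↔ ∀ m, coeff m g ≠ 0 → ex (Finsupp.weight ρ m) ≤ c :=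
  gauss_le_iff

lemma le_gv {m : σ →₀ ℕ} (h : coeff m g ≠ 0) : ex (Finsupp.weight ρ m) ≤ gv ρ g :=
  gauss_le h

lemma gv_mono_supp {A' : Type*} [CommRing A'] [IsDomain A'] {g' : MvPolynomial σ A'}
    (h : ∀ m, coeff m g ≠ 0 → coeff m g' ≠ 0) : gv ρ g ≤ gv ρ g' :=
  gv_le_iff.2 fun m hm => le_gv (h m hm)

lemma gv_pos (h : g ≠ 0) : 0 < gv ρ g := by
  obtain ⟨m, hm, -⟩ := gauss_max ρ h
  exact (ex_pos _).trans_le (le_gv hm)

lemma gv_C {a : A} (h : a ≠ 0) : gv ρ (C a) = 1 := by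
  have := gauss_monomial ρ 0 h
  rwa [map_zero, ex_zero] at this

lemma gv_C_le (a : A) : gv ρ (C a) ≤ 1 := by
  by_cases h : a = 0
  · simp [h]
  · exact (gv_C h).le

lemma gv_X (v : σ) : gv ρ (X v : MvPolynomial σ A) = ex (ρ v) := by
  have := gauss_monomial ρ (Finsupp.single v 1) (one_ne_zero (α := A))
  rwa [Finsupp.weight_single, one_smul] at this

lemma one_le_gv (h : constantCoeff g ≠ 0) : 1 ≤ gv ρ g := by
  have := le_gv (ρ := ρ) (m := 0) (g := g) h
  rwa [map_zero, ex_zero] at this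

omit [IsDomain A] in
lemma gauss_weight (ρ : σ → ℝ) (m : σ →₀ ℕ) :
    Finsupp.weight ρ m = ∑ v ∈ m.support, (m v : ℝ) * ρ v := by
  rw [Finsupp.weight_apply, Finsupp.sum]
  simp only [nsmul_eq_mul]

lemma gauss_ex_sum {ι : Type*} (s : Finset ι) (t : ι → ℝ) :
    ex (∑ v ∈ s, t v) = ∏ v ∈ s, ex (t v) := by
  classical
  induction s using Finset.induction_on with
  | empty => simp
  | insert a s ha ih => rw [Finset.sum_insert ha, Finset.prod_insert ha, ex_add, ih]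

/-- contraction -/
lemma gv_contr {B : Type*} [CommRing B] (ν : Valuation B ℝ≥0) (ψ : MvPolynomial σ A →+* B)
    (hC : ∀ a, ν (ψ (C a)) ≤ 1) (hX : ∀ v, ν (ψ (X v)) ≤ ex (ρ v)) (g : MvPolynomial σ A) :
    ν (ψ g) ≤ gv ρ g := by
  conv_lhs => rw [g.as_sum, map_sum]
  refine ν.map_sum_le fun m hm => le_trans ?_ (le_gv (mem_support_iff.1 hm))
  rw [monomial_eq, map_mul, map_mul, Finsupp.prod, map_prod, map_prod, gauss_weight, gauss_ex_sum]
  refine (mul_le_mul' (hC _) (Finset.prod_le_prod' fun v _ => ?_)).trans (one_mul _).le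
  rw [map_pow, map_pow, ex_nat_mul]
  exact pow_le_pow_left' (hX v) _

lemma gv_cont (ρ : ℝ → σ → ℝ) (h : ∀ v, Continuous fun t => ρ t v) (g : MvPolynomial σ A) :
    Continuous fun t => gv (ρ t) g := by
  simp only [gv_apply]
  refine Continuous.finset_sup_apply fun m _ => continuous_ex.comp ?_
  simp only [gauss_weight]
  exact continuous_finsetSum _ fun v _ => continuous_const.mul (h v)

omit [IsDomain A] in
lemma gauss_deg {m : σ →₀ ℕ} (hm : coeff m g ≠ 0) :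
    ∑ v ∈ m.support, (m v : ℝ) ≤ g.totalDegree := by
  have := le_totalDegree (mem_support_iff.2 hm)
  rw [Finsupp.sum] at this
  exact_mod_cast this

lemma gv_shift {Δ : ℝ} (hΔ : 0 ≤ Δ) (h : ∀ v, ρ' v ≤ ρ v + Δ) :
    gv ρ' g ≤ gv ρ g * ex (Δ * g.totalDegree) := by
  refine gv_le_iff.2 fun m hm => le_trans ?_ (mul_le_mul' (le_gv hm) le_rfl)
  rw [← ex_add, ex_le_ex, gauss_weight, gauss_weight]
  have h1 := mul_le_mul_of_nonneg_left (gauss_deg hm) hΔ
  have h2 : ∑ v ∈ m.support, (m v : ℝ) * ρ' v ≤ ∑ v ∈ m.support, (m v : ℝ) * (ρ v + Δ) :=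
    Finset.sum_le_sum fun v _ => mul_le_mul_of_nonneg_left (h v) (Nat.cast_nonneg _)
  simp only [mul_add, Finset.sum_add_distrib, ← Finset.sum_mul] at h2
  linarith

lemma gv_const {t : ℝ} (ht : 0 ≤ t) (h : g ≠ 0) :
    gv (fun _ => t) g = ex (t * g.totalDegree) := by
  refine le_antisymm (gv_le_iff.2 fun m hm => ?_) ?_
  · rw [ex_le_ex, gauss_weight, ← Finset.sum_mul, mul_comm]
    exact mul_le_mul_of_nonneg_left (gauss_deg hm) ht
  · obtain ⟨m, hm, e⟩ := Finset.exists_mem_eq_sup g.support (support_nonempty.2 h)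
      (fun m => m.sum fun _ n => n)
    refine le_trans ?_ (le_gv (mem_support_iff.1 hm))
    rw [ex_le_ex, gauss_weight, ← Finset.sum_mul, mul_comm, totalDegree, e, Finsupp.sum]
    push_cast
    exact le_rfl

end Pool.Agent.P.MP_dabb5b_ag.N
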