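import Pool.Agent.P.MP_dabb5b_ag.N.Lead

/-! The key inequality. -/

namespace Pool.Agent.P.MP_dabb5b_ag.N

namespace KeyP

open Polynomial

/-- the combinatorial core -/
lemma comb (S : ℕ → ℕ → Prop) (L : ℕ → ℕ → ℝ) (g : ℝ) (hg : 0 ≤ g) (D : ℕ)
    (hD : ∀ i j, S i j → i + j ≤ D)
    (h1a : ∀ j, S 1 j → S 0 j ∧ L 1 j ≤ L 0 j)
    (h1 : ∀ i j, S (i + 2) j → (S (i + 1) j ∧ L (i + 2) j ≤ L (i + 1) j) ∨
      (S i (j + 1) ∧ L (i + 2) j ≤ L i (j + 1)))
    (h2 : ∀ j, S 0 (j + 1) → S 0 j ∧ L 0 (j + 1) ≤ L 0 j + g)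
    (h3 : 0 < g → ∀ i j, S i (j + 1) → (S (i + 2) j ∧ L i (j + 1) ≤ L (i + 2) j) ∨
      (S (i + 1) j ∧ L i (j + 1) ≤ L (i + 1) j) ∨
      (S (i + 1) (j + 1) ∧ L i (j + 1) ≤ L (i + 1) (j + 1) - g))
    (i0 j0 : ℕ) (h0 : S i0 j0) : S 0 0 ∧ L i0 j0 ≤ L 0 0 + (D : ℝ) / 2 * g := by
  classical
  have hfin : {q : ℕ × ℕ | S q.1 q.2}.Finite := by
    refine ((Finset.range (D + 1) ×ˢ Finset.range (D + 1)).finite_toSet).subset ?_
    intro q hq
    have := hD _ _ hq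
    simp only [Finset.coe_product, Finset.coe_range, Set.mem_prod, Set.mem_Iio]
    omega
  obtain ⟨q, hq, hmax⟩ := Set.exists_max_image _ (fun q : ℕ × ℕ => L q.1 q.2) hfin ⟨(i0, j0), h0⟩
  set T := L q.1 q.2 with hT
  have hle : ∀ i j, S i j → L i j ≤ T := fun i j h => hmax (i, j) h
  have hex : ∃ m, ∃ i j, S i j ∧ T ≤ L i j ∧ i + 2 * j = m := ⟨_, q.1, q.2, hq, le_rfl, rfl⟩
  set m := Nat.find hex with hm
  have hmin : ∀ i j, S i j → T ≤ L i j → m ≤ i + 2 * j := fun i j h h' =>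
    Nat.find_min' hex ⟨i, j, h, h', rfl⟩
  have hdown : ∀ i j, S i j → T ≤ L i j → i + 2 * j = m → ∃ n, S 0 n ∧ T ≤ L 0 n ∧ 2 * n = m := by
    intro i
    induction i using Nat.strong_induction_on with
    | _ i ih =>
      intro j h h' hw
      match i, ih, h, h', hw with
      | 0, _, h, h', hw => exact ⟨j, h, h', by omega⟩
      | 1, _, h, h', hw =>
        obtain ⟨a, b⟩ := h1a j h
        have := hmin 0 j a (h'.trans b)
        omega
      | (i + 2), ih, h, h', hw =>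
        rcases h1 i j h with ⟨a, b⟩ | ⟨a, b⟩
        · have := hmin _ _ a (h'.trans b)
          omega
        · exact ih i (by omega) (j + 1) a (h'.trans b) (by omega)
  obtain ⟨i, j, a, b, c⟩ := Nat.find_spec hex
  obtain ⟨n, hn, hn', hnm⟩ := hdown i j a b c
  have hchain : ∀ k, S 0 k → S 0 0 ∧ L 0 k ≤ L 0 0 + k * g := by
    intro k
    induction k with
    | zero => intro h; exact ⟨h, by simp⟩
    | succ k ih =>
      intro h
      obtain ⟨a, b⟩ := h2 k h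
      obtain ⟨c, d⟩ := ih a
      exact ⟨c, by push_cast; linarith⟩
  obtain ⟨h00, hL⟩ := hchain n hn
  refine ⟨h00, ?_⟩
  have hi := hle _ _ h0
  rcases hg.eq_or_lt with hg0 | hg0
  · subst hg0
    simp only [mul_zero, add_zero] at hL ⊢
    linarith
  have hup : ∀ j i, S i j → T ≤ L i j → i + 2 * j = m → m ≤ D := by
    intro j
    induction j with
    | zero => intro i h _ hw; have := hD _ _ h; omega
    | succ j ih =>
      intro i h h' hw
      rcases h3 hg0 i j h with ⟨a, b⟩ | ⟨a, b⟩ | ⟨a, b⟩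
      · exact ih (i + 2) a (h'.trans b) (by omega)
      · have := hmin _ _ a (h'.trans b)
        omega
      · have := hle _ _ a
        linarith
  have h2n : 2 * n ≤ D := hnm ▸ hup n 0 hn hn' (by omega)
  have h2n' : (n : ℝ) ≤ (D : ℝ) / 2 := by
    have : ((2 * n : ℕ) : ℝ) ≤ D := by exact_mod_cast h2n
    push_cast at this
    linarith
  have := mul_le_mul_of_nonneg_right h2n' hg
  linarith

variable {B : Type*} [CommRing B]

/-- Leibniz rule for an additive map -/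
def Lb (E : B →+ B) : Prop := ∀ a b, E (a * b) = a * E b + b * E a

lemma Lb.pow_zero {E : B →+ B} (h : Lb E) {a : B} (ha : E a = 0) (n : ℕ) : E (a ^ n) = 0 := by
  induction n with
  | zero =>
    have := h 1 1
    simp only [mul_one, one_mul] at this
    rw [_root_.pow_zero]
    linear_combination -this
  | succ n ih => rw [pow_succ, h, ha, ih]; simp

/-- an additive map acting on coefficients -/
noncomputable def mc (E : B →+ B) : B[X] →+ B[X] where
  toFun p := ∑ i ∈ p.support, monomial i (E (p.coeff i))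
  map_zero' := by simp
  map_add' p q := by
    have h : ∀ (p : B[X]) i,
        (∑ i ∈ p.support, monomial i (E (p.coeff i))).coeff i = E (p.coeff i) := fun p i => by
      simp only [finsetSum_coeff, coeff_monomial, Finset.sum_ite_eq']
      split_ifs with h
      · rfl
      · rw [notMem_support_iff.1 h, map_zero]
    ext i
    rw [coeff_add, h, h, h, coeff_add, map_add]

lemma coeff_mc (E : B →+ B) (p : B[X]) (i : ℕ) : (mc E p).coeff i = E (p.coeff i) := by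
  change (∑ i ∈ p.support, monomial i (E (p.coeff i))).coeff i = E (p.coeff i)
  simp only [finsetSum_coeff, coeff_monomial, Finset.sum_ite_eq']
  split_ifs with h
  · rfl
  · rw [notMem_support_iff.1 h, map_zero]

lemma mc_C (E : B →+ B) (b : B) : mc E (C b) = C (E b) := by
  ext i
  rw [coeff_mc, coeff_C, coeff_C]
  split_ifs <;> simp

lemma Lb.mc {E : B →+ B} (h : Lb E) : Lb (mc E) := fun a b => by
  ext i
  rw [coeff_mc, coeff_add, mul_comm b, coeff_mul, coeff_mul, coeff_mul, map_sum,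
    ← Finset.sum_add_distrib]
  refine Finset.sum_congr rfl fun x _ => ?_
  rw [h, coeff_mc, coeff_mc, mul_comm (b.coeff _)]

lemma Lb.mc_X {E : B →+ B} (h : Lb E) : KeyP.mc E X = 0 := by
  ext i
  have h1 : E 1 = 0 := by
    have := h 1 1
    simp only [mul_one, one_mul] at this
    linear_combination -this
  rw [coeff_mc, coeff_X]
  split_ifs <;> simp [h1]

/-- `d/dX` as an additive map -/
noncomputable def dz (B : Type*) [CommRing B] : B[X] →+ B[X] :=
  (derivative (R := B)).toAddMonoidHom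

lemma dz_apply (p : B[X]) : dz B p = derivative p := rfl

lemma lb_dz : Lb (dz B) := fun a b => by
  simp only [dz_apply, derivative_mul]
  ring

/-- the shifted polynomial `Φ(P + h' + p h, y + u h)` -/
noncomputable def Psi (P y p u : B) (Φ : MvPolynomial (Fin 2) B) : B[X][X] :=
  MvPolynomial.eval₂ (C.comp C) ![X + C (C P + C p * X), C (C y + C u * X)] Φ

lemma Psi_eq (P y p u : B) (Φ : MvPolynomial (Fin 2) B) : Psi P y p u Φ =
    ∑ m ∈ Φ.support, C (C (Φ.coeff m)) *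
      ((X + C (C P + C p * X)) ^ m 0 * C (C y + C u * X) ^ m 1) := by
  rw [Psi, MvPolynomial.eval₂_eq']
  refine Finset.sum_congr rfl fun m _ => ?_
  simp [Fin.prod_univ_two]

/-- coefficients -/
noncomputable def cf (P y p u : B) (Φ : MvPolynomial (Fin 2) B) (i j : ℕ) : B :=
  ((Psi P y p u Φ).coeff j).coeff i

lemma cf_eq (P y p u : B) (Φ : MvPolynomial (Fin 2) B) (i j : ℕ) : cf P y p u Φ i j =
    ∑ m ∈ Φ.support, Φ.coeff m * (((m 0).choose j : B) *
      ((C P + C p * X) ^ (m 0 - j) * (C y + C u * X) ^ m 1).coeff i) := by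
  rw [cf, Psi_eq, finsetSum_coeff, finsetSum_coeff]
  refine Finset.sum_congr rfl fun m _ => ?_
  rw [coeff_C_mul, coeff_C_mul, ← C_pow, coeff_mul_C, coeff_X_add_C_pow]
  congr 1
  rw [← C_eq_natCast, mul_right_comm, coeff_mul_C, mul_comm]

lemma cf_zero (P y p u : B) (Φ : MvPolynomial (Fin 2) B) :
    cf P y p u Φ 0 0 = MvPolynomial.eval ![P, y] Φ := by
  rw [cf_eq, MvPolynomial.eval_eq']
  refine Finset.sum_congr rfl fun m _ => ?_
  simp [Fin.prod_univ_two, coeff_zero_eq_eval_zero]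

lemma nd_lin (a b : B) : (C a + C b * X : B[X]).natDegree ≤ 1 := by
  compute_degree

lemma nd_prod (P y p u : B) (a b : ℕ) :
    ((C P + C p * X) ^ a * (C y + C u * X) ^ b : B[X]).natDegree ≤ a + b := by
  refine natDegree_mul_le.trans (add_le_add ?_ ?_)
  · simpa using natDegree_pow_le_of_le a (nd_lin P p)
  · simpa using natDegree_pow_le_of_le b (nd_lin y u)

lemma cf_vanish (P y p u : B) (Φ : MvPolynomial (Fin 2) B) (D : ℕ)
    (hD : ∀ m ∈ Φ.support, m 0 + m 1 ≤ D) (i j : ℕ) (h : D < i + j) : cf P y p u Φ i j = 0 := by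
  rw [cf_eq]
  refine Finset.sum_eq_zero fun m hm => ?_
  have := hD m hm
  by_cases hj : m 0 < j
  · simp [Nat.choose_eq_zero_of_lt hj]
  · rw [coeff_eq_zero_of_natDegree_lt ((nd_prod ..).trans_lt (by omega))]
    simp

lemma cf_top (P y p u : B) (Φ : MvPolynomial (Fin 2) B) (D e : ℕ) (m0 : Fin 2 →₀ ℕ)
    (h0 : m0 0 = e) (h1 : m0 0 + m0 1 = D)
    (hD : ∀ m ∈ Φ.support, m 0 + m 1 ≤ D ∧ (m 0 + m 1 = D → m 0 ≤ e)) :
    cf P y p u Φ (D - e) e = Φ.coeff m0 * u ^ (D - e) := by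
  classical
  rw [cf_eq, Finset.sum_eq_single m0]
  · have : m0 1 = D - e := by omega
    rw [h0, this, Nat.choose_self, Nat.sub_self, pow_zero, one_mul, Nat.cast_one, one_mul]
    congr 1
    have := coeff_pow_of_natDegree_le (m := D - e) (nd_lin y u)
    rw [mul_one] at this
    rw [this]
    simp
  · intro m hm hne
    obtain ⟨a, b⟩ := hD m hm
    by_cases hj : m 0 < e
    · simp [Nat.choose_eq_zero_of_lt hj]
    · have hlt : m 0 + m 1 < D := by
        rcases a.lt_or_eq with a | a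
        · exact a
        · exfalso
          apply hne
          have := b a
          ext k
          fin_cases k
          · simp only [Fin.zero_eta]; omega
          · simp only [Fin.mk_one]; omega
      rw [coeff_eq_zero_of_natDegree_lt ((nd_prod ..).trans_lt (by omega))]
      simp
  · intro h
    rw [MvPolynomial.notMem_support_iff.1 h, zero_mul]

/-- the differential identity for `Psi` -/
lemma Psi_id (E : B →+ B) (hE : Lb E) (P y p u : B) (Φ : MvPolynomial (Fin 2) B)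
    (hΦ : ∀ m, E (Φ.coeff m) = 0) :
    C (C u) * mc (mc E) (Psi P y p u Φ) =
      C (C (E y) + C (E u) * X) * mc (dz B) (Psi P y p u Φ) +
      C (C (u * E P - p * E y) + C (u * E p - p * E u) * X) * derivative (Psi P y p u Φ) := by
  let 𝒟 : B[X][X] →+ B[X][X] := AddMonoidHom.mk' (fun F => C (C u) * mc (mc E) F -
      C (C (E y) + C (E u) * X) * mc (dz B) F -
      C (C (u * E P - p * E y) + C (u * E p - p * E u) * X) * derivative F) (fun a b => by
        simp only [map_add]; ring)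
  have h𝒟 : ∀ F, 𝒟 F = C (C u) * mc (mc E) F - C (C (E y) + C (E u) * X) * mc (dz B) F -
      C (C (u * E P - p * E y) + C (u * E p - p * E u) * X) * derivative F := fun F => rfl
  have hL : Lb 𝒟 := fun a b => by
    rw [h𝒟, h𝒟, h𝒟, hE.mc.mc, lb_dz.mc, derivative_mul]
    ring
  have ha : 𝒟 (X + C (C P + C p * X)) = 0 := by
    rw [h𝒟, map_add (mc (mc E)), map_add (mc (dz B)), mc_C, mc_C, hE.mc.mc_X, lb_dz.mc_X,
      map_add (mc E), hE.mc, mc_C, mc_C, hE.mc_X, dz_apply]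
    simp only [map_add, zero_add, mul_zero, derivative_C, derivative_X, derivative_mul, map_sub,
      map_mul, add_zero, zero_mul, mul_one]
    ring
  have hb : 𝒟 (C (C y + C u * X)) = 0 := by
    rw [h𝒟, mc_C, mc_C, map_add (mc E), hE.mc, mc_C, mc_C, hE.mc_X, dz_apply]
    simp only [map_add, zero_add, mul_zero, derivative_C, derivative_X, derivative_mul, map_sub,
      map_mul, add_zero, zero_mul, mul_one]
    ring
  have hc : ∀ m, 𝒟 (C (C (Φ.coeff m))) = 0 := fun m => by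
    rw [h𝒟, mc_C, mc_C, mc_C, hΦ, dz_apply]
    simp
  have : 𝒟 (Psi P y p u Φ) = 0 := by
    rw [Psi_eq, map_sum]
    refine Finset.sum_eq_zero fun m _ => ?_
    rw [hL, hL, hL.pow_zero ha, hL.pow_zero hb, hc]
    simp
  rw [h𝒟] at this
  linear_combination this

lemma star0 (E : B →+ B) (hE : Lb E) (P y p u : B) (Φ : MvPolynomial (Fin 2) B)
    (hΦ : ∀ m, E (Φ.coeff m) = 0) (j : ℕ) :
    u * E (cf P y p u Φ 0 j) = E y * cf P y p u Φ 1 j +
      ((j + 1 : ℕ) : B) * ((u * E P - p * E y) * cf P y p u Φ 0 (j + 1)) := by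
  have := congrArg (fun F : B[X][X] => (F.coeff j).coeff 0) (Psi_id E hE P y p u Φ hΦ)
  simp only [coeff_C_mul, coeff_add, coeff_mc, dz_apply, coeff_derivative, add_mul, mul_assoc,
    coeff_X_mul_zero, mul_zero, add_zero] at this
  simp only [cf]
  rw [this]
  simp only [mul_add, mul_one, coeff_add, ← C_eq_natCast, coeff_mul_C]
  push_cast
  ring

lemma star1 (E : B →+ B) (hE : Lb E) (P y p u : B) (Φ : MvPolynomial (Fin 2) B)
    (hΦ : ∀ m, E (Φ.coeff m) = 0) (i j : ℕ) :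
    u * E (cf P y p u Φ (i + 1) j) = ((i + 2 : ℕ) : B) * (E y * cf P y p u Φ (i + 2) j) +
      ((i + 1 : ℕ) : B) * (E u * cf P y p u Φ (i + 1) j) +
      ((j + 1 : ℕ) : B) * ((u * E P - p * E y) * cf P y p u Φ (i + 1) (j + 1)) +
      ((j + 1 : ℕ) : B) * ((u * E p - p * E u) * cf P y p u Φ i (j + 1)) := by
  have := congrArg (fun F : B[X][X] => (F.coeff j).coeff (i + 1)) (Psi_id E hE P y p u Φ hΦ)
  simp only [coeff_C_mul, coeff_add, coeff_mc, dz_apply, coeff_derivative, add_mul, mul_assoc,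
    coeff_X_mul] at this
  simp only [cf]
  rw [this]
  simp only [mul_add, mul_one, coeff_add, ← C_eq_natCast, coeff_mul_C]
  push_cast
  ring

/-- a real degree function `δ` on the set `N` of elements of nonzero value -/
structure IsDeg (N : B → Prop) (δ : B → ℝ) : Prop where
  mul_iff : ∀ a b, N (a * b) ↔ N a ∧ N b
  mul : ∀ a b, N a → N b → δ (a * b) = δ a + δ b
  add : ∀ a b, N (a + b) → (N a ∧ δ (a + b) ≤ δ a) ∨ (N b ∧ δ (a + b) ≤ δ b)
  neg_iff : ∀ a, N (-a) ↔ N a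
  neg : ∀ a, δ (-a) = δ a
  nat : ∀ n : ℕ, N ((n + 1 : ℕ) : B) ∧ δ ((n + 1 : ℕ) : B) = 0
  zero : ¬ N 0

/-- `a` has degree at most `t` -/
def Le (N : B → Prop) (δ : B → ℝ) (a : B) (t : ℝ) : Prop := N a → δ a ≤ t

variable {N : B → Prop} {δ : B → ℝ}

lemma IsDeg.mem_mul (h : IsDeg N δ) {a b : B} (ha : N a) (hb : N b) : N (a * b) :=
  (h.mul_iff a b).2 ⟨ha, hb⟩

lemma IsDeg.dom (h : IsDeg N δ) {x a b : B} (hx : N x) (e : x = a + b) :
    (N a ∧ δ x ≤ δ a) ∨ (N b ∧ δ x ≤ δ b) := by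
  subst e
  exact h.add a b hx

lemma IsDeg.mul_le (h : IsDeg N δ) {a b : B} {s : ℝ} (ha : Le N δ a s) (hx : N (a * b)) :
    N b ∧ δ (a * b) ≤ s + δ b := by
  obtain ⟨h1, h2⟩ := (h.mul_iff a b).1 hx
  refine ⟨h2, ?_⟩
  rw [h.mul a b h1 h2]
  have := ha h1
  linarith

lemma IsDeg.nmul (h : IsDeg N δ) (n : ℕ) {a : B} (ha : N a) :
    N (((n + 1 : ℕ) : B) * a) ∧ δ (((n + 1 : ℕ) : B) * a) = δ a :=
  ⟨h.mem_mul (h.nat n).1 ha, by rw [h.mul _ _ (h.nat n).1 ha, (h.nat n).2, zero_add]⟩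

lemma IsDeg.nmul' (h : IsDeg N δ) (n : ℕ) {a : B} (ha : N (-(((n + 1 : ℕ) : B) * a))) :
    N a ∧ δ (-(((n + 1 : ℕ) : B) * a)) = δ a := by
  have h2 := ((h.mul_iff _ _).1 ((h.neg_iff _).1 ha)).2
  exact ⟨h2, by rw [h.neg, (h.nmul n h2).2]⟩

lemma IsDeg.pow (h : IsDeg N δ) {a : B} (ha : N a) (n : ℕ) : N (a ^ n) ∧ δ (a ^ n) = n * δ a := by
  induction n with
  | zero => simpa using h.nat 0
  | succ n ih =>
    rw [pow_succ]
    refine ⟨h.mem_mul ih.1 ha, ?_⟩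
    rw [h.mul _ _ ih.1 ha, ih.2]; push_cast; ring

lemma Le.mul (h : IsDeg N δ) {a b : B} {s t : ℝ} (ha : Le N δ a s) (hb : Le N δ b t) :
    Le N δ (a * b) (s + t) := fun hx => by
  obtain ⟨h1, h2⟩ := h.mul_le ha hx
  have := hb h1
  linarith

lemma Le.add (h : IsDeg N δ) {a b : B} {s : ℝ} (ha : Le N δ a s) (hb : Le N δ b s) :
    Le N δ (a + b) s := fun hx => by
  rcases h.add a b hx with ⟨h1, h2⟩ | ⟨h1, h2⟩
  · exact h2.trans (ha h1)
  · exact h2.trans (hb h1)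

lemma Le.neg (h : IsDeg N δ) {a : B} {s : ℝ} (ha : Le N δ a s) : Le N δ (-a) s := fun hx => by
  rw [h.neg]; exact ha ((h.neg_iff a).1 hx)

omit [CommRing B] in
lemma Le.mono {a : B} {s t : ℝ} (ha : Le N δ a s) (hst : s ≤ t) : Le N δ a t :=
  fun h => (ha h).trans hst

/-- (G) when `δ (E₁ y)` is the maximum `β` and `t¹` attains `γ` -/
lemma core (h : IsDeg N δ) (E₁ E₂ : B →+ B) (hL₁ : Lb E₁) (hL₂ : Lb E₂) (o β γ : ℝ)
    (ho₁ : ∀ a, N (E₁ a) → N a ∧ δ (E₁ a) ≤ δ a + o)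
    (ho₂ : ∀ a, N (E₂ a) → N a ∧ δ (E₂ a) ≤ δ a + o) (P y : B)
    (hu : N (E₁ y)) (hβ : δ (E₁ y) = β) (hβ₂ : Le N δ (E₂ y) β)
    (hW : N (E₁ y * E₂ P - E₁ P * E₂ y))
    (hγ : δ (E₁ y * E₂ P - E₁ P * E₂ y) - 2 * β ≤ γ)
    (ht : Le N δ (E₁ y * E₁ (E₁ P) - E₁ P * E₁ (E₁ y)) (γ + 2 * β + o))
    (hatt : δ (E₁ y * E₂ P - E₁ P * E₂ y) - 2 * β < γ → ∃ E : B →+ B, (E = E₁ ∨ E = E₂) ∧
      N (E₁ y * E (E₁ P) - E₁ P * E (E₁ y)) ∧
      γ + 2 * β + o ≤ δ (E₁ y * E (E₁ P) - E₁ P * E (E₁ y)))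
    (Φ : MvPolynomial (Fin 2) B) (hΦ₁ : ∀ m, E₁ (Φ.coeff m) = 0) (hΦ₂ : ∀ m, E₂ (Φ.coeff m) = 0)
    (D e : ℕ) (m0 : Fin 2 →₀ ℕ) (h0 : m0 0 = e) (h1 : m0 0 + m0 1 = D)
    (hD : ∀ m ∈ Φ.support, m 0 + m 1 ≤ D ∧ (m 0 + m 1 = D → m 0 ≤ e))
    (hc : N (Φ.coeff m0)) :
    N (MvPolynomial.eval ![P, y] Φ) ∧
      δ (Φ.coeff m0) + D * (δ (E₁ y * E₂ P - E₁ P * E₂ y) / 2 - o) + (e - D / 2) * γ ≤
        δ (MvPolynomial.eval ![P, y] Φ) := by
  set u := E₁ y with hu'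
  set p := E₁ P with hp'
  set W := u * E₂ P - p * E₂ y with hW'
  set c := cf P y p u Φ with hc'
  have hLu : Le N δ u β := fun _ => hβ.le
  have hE : ∀ E : B →+ B, (∀ a, N (E a) → N a ∧ δ (E a) ≤ δ a + o) → ∀ a, N (u * E a) →
      N a ∧ δ (u * E a) ≤ β + (δ a + o) := fun E hE a hx => by
    obtain ⟨h1, h2⟩ := h.mul_le hLu hx
    obtain ⟨h3, h4⟩ := hE a h1
    exact ⟨h3, by linarith⟩
  have s1a : ∀ j, N (c 1 j) → N (c 0 j) ∧ δ (c 1 j) ≤ δ (c 0 j) + o := fun j hj => by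
    have := star0 E₁ hL₁ P y p u Φ hΦ₁ j
    have e0 : u * E₁ P - p * E₁ y = 0 := by rw [← hu', ← hp']; ring
    rw [e0, zero_mul, mul_zero, add_zero, ← hc', ← hu'] at this
    have hx : N (u * E₁ (c 0 j)) := this ▸ h.mem_mul hu hj
    obtain ⟨a, b⟩ := hE E₁ ho₁ _ hx
    rw [this, h.mul _ _ hu hj] at b
    exact ⟨a, by linarith⟩
  have key := comb (fun i j => N (c i j)) (fun i j => δ (c i j) - i * o + j * (β - o + γ))
    (γ - (δ W - 2 * β)) (by linarith) D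
    (fun i j hij => by
      by_contra hlt
      rw [hc', cf_vanish P y p u Φ D (fun m hm => (hD m hm).1) i j (by omega)] at hij
      exact h.zero hij)
    (fun j hj => by
      obtain ⟨a, b⟩ := s1a j hj
      exact ⟨a, by push_cast; linarith⟩)
    (fun i j hj => by
      have := star1 E₁ hL₁ P y p u Φ hΦ₁ i j
      have e0 : u * E₁ P - p * E₁ y = 0 := by rw [← hu', ← hp']; ring
      rw [e0, ← hc', ← hu'] at this
      obtain ⟨x0, x1⟩ := h.nmul (i + 1) (h.mem_mul hu hj)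
      rw [h.mul _ _ hu hj] at x1
      have e : ((i + 1 + 1 : ℕ) : B) * (u * c (i + 2) j) = u * E₁ (c (i + 1) j) +
          (-(((i + 1 : ℕ) : B) * (E₁ u * c (i + 1) j)) +
          -(((j + 1 : ℕ) : B) * ((u * E₁ p - p * E₁ u) * c i (j + 1)))) := by
        rw [this]; push_cast; ring
      rcases h.dom x0 e with ⟨a, b⟩ | ⟨a, b⟩
      · obtain ⟨a', b'⟩ := hE E₁ ho₁ _ a
        exact Or.inl ⟨a', by push_cast; linarith⟩
      rcases h.dom a rfl with ⟨a, b'⟩ | ⟨a, b'⟩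
      · obtain ⟨a1, a2⟩ := h.nmul' i a
        obtain ⟨a3, a4⟩ := h.mul_le (fun x => (ho₁ u x).2) a1
        exact Or.inl ⟨a3, by push_cast; linarith⟩
      · obtain ⟨a1, a2⟩ := h.nmul' j a
        obtain ⟨a3, a4⟩ := h.mul_le ht a1
        exact Or.inr ⟨a3, by push_cast; linarith⟩)
    (fun j hj => by
      have := star0 E₂ hL₂ P y p u Φ hΦ₂ j
      rw [← hc', ← hW'] at this
      obtain ⟨x0, x1⟩ := h.nmul j (h.mem_mul hW hj)
      rw [h.mul _ _ hW hj] at x1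
      have e : ((j + 1 : ℕ) : B) * (W * c 0 (j + 1)) = u * E₂ (c 0 j) + -(E₂ y * c 1 j) := by
        rw [this]; ring
      rcases h.dom x0 e with ⟨a, b⟩ | ⟨a, b⟩
      · obtain ⟨a', b'⟩ := hE E₂ ho₂ _ a
        exact ⟨a', by push_cast; linarith⟩
      · have a0 := (h.neg_iff _).1 a
        rw [h.neg] at b
        obtain ⟨a3, a4⟩ := h.mul_le hβ₂ a0
        obtain ⟨a5, a6⟩ := s1a j a3
        exact ⟨a5, by push_cast; linarith⟩)
    (fun hg i j hj => by
      obtain ⟨E, hE', ht0, ht1⟩ := hatt (by linarith)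
      have hL : Lb E := by rcases hE' with rfl | rfl <;> assumption
      have ho : ∀ a, N (E a) → N a ∧ δ (E a) ≤ δ a + o := by
        rcases hE' with rfl | rfl <;> assumption
      have hΦ : ∀ m, E (Φ.coeff m) = 0 := by rcases hE' with rfl | rfl <;> assumption
      have hy : Le N δ (E y) β := by rcases hE' with rfl | rfl <;> assumption
      have hq : Le N δ (u * E P - p * E y) (δ W) := by
        rcases hE' with rfl | rfl
        · intro hx
          have e0 : u * E P - p * E y = 0 := by rw [← hu', ← hp']; ring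
          rw [e0] at hx
          exact absurd hx h.zero
        · exact fun _ => le_rfl
      have := star1 E hL P y p u Φ hΦ i j
      rw [← hc'] at this
      obtain ⟨x0, x1⟩ := h.nmul j (h.mem_mul ht0 hj)
      rw [h.mul _ _ ht0 hj] at x1
      have e : ((j + 1 : ℕ) : B) * ((u * E p - p * E u) * c i (j + 1)) = u * E (c (i + 1) j) +
          (-(((i + 1 : ℕ) : B) * (E u * c (i + 1) j)) +
          (-(((i + 1 + 1 : ℕ) : B) * (E y * c (i + 2) j)) +
          -(((j + 1 : ℕ) : B) * ((u * E P - p * E y) * c (i + 1) (j + 1))))) := by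
        rw [this]; push_cast; ring
      rcases h.dom x0 e with ⟨a, b⟩ | ⟨a, b⟩
      · obtain ⟨a', b'⟩ := hE E ho _ a
        exact Or.inr (Or.inl ⟨a', by push_cast; linarith⟩)
      rcases h.dom a rfl with ⟨a, b'⟩ | ⟨a, b'⟩
      · obtain ⟨a1, a2⟩ := h.nmul' i a
        obtain ⟨a3, a4⟩ := h.mul_le (fun x => (ho u x).2) a1
        exact Or.inr (Or.inl ⟨a3, by push_cast; linarith⟩)
      rcases h.dom a rfl with ⟨a, b''⟩ | ⟨a, b''⟩
      · obtain ⟨a1, a2⟩ := h.nmul' (i + 1) a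
        obtain ⟨a3, a4⟩ := h.mul_le hy a1
        exact Or.inl ⟨a3, by push_cast; linarith⟩
      · obtain ⟨a1, a2⟩ := h.nmul' j a
        obtain ⟨a3, a4⟩ := h.mul_le hq a1
        exact Or.inr (Or.inr ⟨a3, by push_cast; linarith⟩))
    (D - e) e (by
      rw [hc', cf_top P y p u Φ D e m0 h0 h1 hD]
      exact h.mem_mul hc (h.pow hu _).1)
  rw [hc', cf_top P y p u Φ D e m0 h0 h1 hD, cf_zero, h.mul _ _ hc (h.pow hu _).1,
    (h.pow hu _).2, Nat.cast_sub (by omega : e ≤ D), hβ] at key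
  refine ⟨key.1, ?_⟩
  have := key.2
  push_cast at this
  linarith

/-- if `t²` attains `γ` then so does `t¹` -/
lemma att (h : IsDeg N δ) (E : B →+ B) (hL : Lb E) (o β γ : ℝ)
    (ho : ∀ a, N (E a) → N a ∧ δ (E a) ≤ δ a + o) (u p u' p' : B)
    (hu : N u) (hβ : δ u = β) (hβ₂ : Le N δ u' β) (hγ : δ (u * p' - p * u') - 2 * β < γ)
    (ht : N (u' * E p' - p' * E u')) (ht' : γ + 2 * β + o ≤ δ (u' * E p' - p' * E u')) :
    N (u * E p - p * E u) ∧ γ + 2 * β + o ≤ δ (u * E p - p * E u) := by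
  have hLu : Le N δ u β := fun _ => hβ.le
  have hLE : ∀ {a s}, Le N δ a s → Le N δ (E a) (s + o) := fun {a s} ha hx => by
    obtain ⟨h1, h2⟩ := ho a hx
    have := ha h1
    linarith
  have hLW : Le N δ (u * p' - p * u') (δ (u * p' - p * u')) := fun _ => le_rfl
  have e : u * u * (u' * E p' - p' * E u') = u' * u' * (u * E p - p * E u) +
      (u * u' * E (u * p' - p * u') + -((u * p' - p * u') * (u * E u' + u' * E u))) := by
    rw [map_sub, hL, hL]
    ring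
  have x0 := h.mem_mul (h.mem_mul hu hu) ht
  have x1 := h.mul _ _ (h.mem_mul hu hu) ht
  rw [h.mul _ _ hu hu] at x1
  rcases h.dom x0 e with ⟨a, b⟩ | ⟨a, b⟩
  · obtain ⟨a1, a2⟩ := h.mul_le (hβ₂.mul h hβ₂) a
    exact ⟨a1, by linarith⟩
  · have := ((((hLu.mul h hβ₂).mul h (hLE hLW)).mono (le_of_eq (by ring))).add h
      (((hLW.mul h ((hLu.mul h (hLE hβ₂)).add h (hβ₂.mul h (hLE hLu)))).neg h).mono
        (t := δ (u * p' - p * u') + 2 * β + o) (le_of_eq (by ring)))) a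
    linarith

/-- (G) when `δ (E₁ y)` is the maximum `β` -/
lemma core' (h : IsDeg N δ) (E₁ E₂ : B →+ B) (hL₁ : Lb E₁) (hL₂ : Lb E₂) (o β γ : ℝ)
    (ho₁ : ∀ a, N (E₁ a) → N a ∧ δ (E₁ a) ≤ δ a + o)
    (ho₂ : ∀ a, N (E₂ a) → N a ∧ δ (E₂ a) ≤ δ a + o) (P y : B)
    (hu : N (E₁ y)) (hβ : δ (E₁ y) = β) (hβ₂ : Le N δ (E₂ y) β)
    (hW : N (E₁ y * E₂ P - E₁ P * E₂ y))
    (hγ : δ (E₁ y * E₂ P - E₁ P * E₂ y) - 2 * β ≤ γ)
    (ht : Le N δ (E₁ y * E₁ (E₁ P) - E₁ P * E₁ (E₁ y)) (γ + 2 * β + o))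
    (hatt : δ (E₁ y * E₂ P - E₁ P * E₂ y) - 2 * β < γ → ∃ E' E : B →+ B, (E' = E₁ ∨ E' = E₂) ∧
      (E = E₁ ∨ E = E₂) ∧ N (E' y * E (E' P) - E' P * E (E' y)) ∧
      γ + 2 * β + o ≤ δ (E' y * E (E' P) - E' P * E (E' y)))
    (Φ : MvPolynomial (Fin 2) B) (hΦ₁ : ∀ m, E₁ (Φ.coeff m) = 0) (hΦ₂ : ∀ m, E₂ (Φ.coeff m) = 0)
    (D e : ℕ) (m0 : Fin 2 →₀ ℕ) (h0 : m0 0 = e) (h1 : m0 0 + m0 1 = D)
    (hD : ∀ m ∈ Φ.support, m 0 + m 1 ≤ D ∧ (m 0 + m 1 = D → m 0 ≤ e))
    (hc : N (Φ.coeff m0)) :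
    N (MvPolynomial.eval ![P, y] Φ) ∧
      δ (Φ.coeff m0) + D * (δ (E₁ y * E₂ P - E₁ P * E₂ y) / 2 - o) + (e - D / 2) * γ ≤
        δ (MvPolynomial.eval ![P, y] Φ) := by
  refine core h E₁ E₂ hL₁ hL₂ o β γ ho₁ ho₂ P y hu hβ hβ₂ hW hγ ht (fun hlt => ?_) Φ hΦ₁ hΦ₂ D e
    m0 h0 h1 hD hc
  obtain ⟨E', E, hE', hE, a, b⟩ := hatt hlt
  refine ⟨E, hE, ?_⟩
  rcases hE' with rfl | rfl
  · exact ⟨a, b⟩
  · refine att h E ?_ o β γ ?_ _ _ _ _ hu hβ hβ₂ hlt a b <;>
      rcases hE with rfl | rfl <;> assumption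

open NNReal in
lemma isDeg (ν : Valuation B ℝ≥0) (hn : ∀ n : ℕ, ν ((n : B) + 1) = 1) :
    IsDeg (fun a => ν a ≠ 0) (fun a => Real.log (ν a)) where
  mul_iff a b := by rw [map_mul, mul_ne_zero_iff]
  mul a b ha hb := by
    rw [map_mul, NNReal.coe_mul, Real.log_mul (by exact_mod_cast ha) (by exact_mod_cast hb)]
  add a b hx := by
    have hx' : (0 : ℝ) < ν (a + b) := by exact_mod_cast pos_iff_ne_zero.2 hx
    rcases le_max_iff.1 (ν.map_add a b) with h | h
    · exact Or.inl ⟨fun h0 => hx (le_antisymm (h0 ▸ h) zero_le), Real.log_le_log hx' h⟩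
    · exact Or.inr ⟨fun h0 => hx (le_antisymm (h0 ▸ h) zero_le), Real.log_le_log hx' h⟩
  neg_iff a := by rw [ν.map_neg]
  neg a := by rw [ν.map_neg]
  nat n := by
    rw [Nat.cast_succ, hn]
    simp
  zero := by simp

end KeyP

open MvPolynomial NNReal

variable {k B : Type*} [CommRing k] [CommRing B] [Algebra k B]

/-- `W = u₁ p₂ - u₂ p₁` -/
def kW (E : Fin 2 → Derivation k B B) (P y : B) : B := E 0 y * E 1 P - E 1 y * E 0 P

/-- `t = u_j E_a p_j - p_j E_a u_j` -/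
def kt (E : Fin 2 → Derivation k B B) (P y : B) (j a : Fin 2) : B :=
  E j y * E a (E j P) - E j P * E a (E j y)

/-- the exponential of `γ` -/
noncomputable def gam (ν : Valuation B ℝ≥0) (E : Fin 2 → Derivation k B B) (O : ℝ≥0) (P y : B) :
    ℝ≥0 :=
  max (ν (kW E P y) * O) (max (max (ν (kt E P y 0 0)) (ν (kt E P y 0 1)))
    (max (ν (kt E P y 1 0)) (ν (kt E P y 1 1)))) / (max (ν (E 0 y)) (ν (E 1 y)) ^ 2 * O)

theorem key (ν : Valuation B ℝ≥0) (hn : ∀ n : ℕ, ν ((n : B) + 1) = 1)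
    (E : Fin 2 → Derivation k B B) {O : ℝ≥0} (hO : 0 < O) (hE : ∀ a g, ν (E a g) ≤ O * ν g)
    (P y : B) (hW : ν (kW E P y) ≠ 0) (Φ : S B) (hΦ : ∀ a m, E a (coeff m Φ) = 0) {D e : ℕ}
    (hL : Lead Φ D e) (h1 : ∀ m, coeff m Φ ≠ 0 → 1 ≤ ν (coeff m Φ)) :
    gam ν E O P y ^ (2 * e) * ν (kW E P y) ^ D
      ≤ ν (aeval ![P, y] Φ) ^ 2 * gam ν E O P y ^ D * O ^ (2 * D) := by
  have h := KeyP.isDeg ν hn
  have pos : ∀ {x : ℝ≥0}, x ≠ 0 → (0 : ℝ) < x := fun hx => by exact_mod_cast pos_iff_ne_zero.2 hx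
  have hO' : (0 : ℝ) < O := by exact_mod_cast hO
  let F : Fin 2 → B →+ B := fun a => (E a).toLinearMap.toAddMonoidHom
  have hF : ∀ a g, F a g = E a g := fun _ _ => rfl
  have hLb : ∀ a, KeyP.Lb (F a) := fun a f g => by
    simp only [hF, Derivation.leibniz, smul_eq_mul]
  have ho : ∀ a g, ν (F a g) ≠ 0 → ν g ≠ 0 ∧ Real.log (ν (F a g)) ≤ Real.log (ν g) + Real.log O :=
    fun a g hx => by
      have h0 : ν g ≠ 0 := fun h0 => hx (le_antisymm (by rw [hF]; simpa [h0] using hE a g) zero_le)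
      refine ⟨h0, ?_⟩
      rw [← Real.log_mul (pos h0).ne' hO'.ne', mul_comm]
      exact Real.log_le_log (pos hx) (by exact_mod_cast hE a g)
  set b := max (ν (E 0 y)) (ν (E 1 y)) with hb
  set M := max (ν (kW E P y) * O) (max (max (ν (kt E P y 0 0)) (ν (kt E P y 0 1)))
    (max (ν (kt E P y 1 0)) (ν (kt E P y 1 1)))) with hM
  have hg : gam ν E O P y = M / (b ^ 2 * O) := rfl
  have hb0 : b ≠ 0 := fun h0 => hW (by
    have h1 : ν (E 0 y) = 0 := le_antisymm (h0 ▸ le_max_left _ _) zero_le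
    have h2 : ν (E 1 y) = 0 := le_antisymm (h0 ▸ le_max_right _ _) zero_le
    have := ν.map_sub (E 0 y * E 1 P) (E 1 y * E 0 P)
    rw [map_mul, map_mul, h1, h2, zero_mul, zero_mul, max_self] at this
    exact le_antisymm this zero_le)
  have hWO : ν (kW E P y) * O ≠ 0 := mul_ne_zero hW hO.ne'
  have hM0 : M ≠ 0 := fun h0 => hWO (le_antisymm (h0 ▸ le_max_left _ _) zero_le)
  have hg0 : gam ν E O P y ≠ 0 := hg ▸ div_ne_zero hM0 (mul_ne_zero (pow_ne_zero _ hb0) hO.ne')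
  set γ := Real.log (gam ν E O P y) with hγ
  have hγM : Real.log M = γ + 2 * Real.log b + Real.log O := by
    rw [hγ, hg, NNReal.coe_div, NNReal.coe_mul, NNReal.coe_pow,
      Real.log_div (pos hM0).ne' (mul_pos (pow_pos (pos hb0) _) hO').ne',
      Real.log_mul (pow_pos (pos hb0) _).ne' hO'.ne', Real.log_pow]
    push_cast
    ring
  have hlWO : Real.log (ν (kW E P y) * O : ℝ≥0) = Real.log (ν (kW E P y)) + Real.log O := by
    rw [NNReal.coe_mul, Real.log_mul (pos hW).ne' hO'.ne']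
  have hγW : Real.log (ν (kW E P y)) - 2 * Real.log b ≤ γ := by
    have : Real.log (ν (kW E P y) * O : ℝ≥0) ≤ Real.log M :=
      Real.log_le_log (pos hWO) (by exact_mod_cast le_max_left _ _)
    linarith
  have hkt : ∀ j a, kt E P y j a = F j y * F a (F j P) - F j P * F a (F j y) := fun _ _ => rfl
  have htM : ∀ j a, ν (kt E P y j a) ≤ M := fun j a => by
    fin_cases j <;> fin_cases a <;> simp [hM]
  have ht : ∀ j a, KeyP.Le (fun a => ν a ≠ 0) (fun a => Real.log (ν a)) (kt E P y j a)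
      (γ + 2 * Real.log b + Real.log O) := fun j a hx => by
    rw [← hγM]
    exact Real.log_le_log (pos hx) (by exact_mod_cast htM j a)
  have hatt : Real.log (ν (kW E P y)) - 2 * Real.log b < γ → ∃ j a, ν (kt E P y j a) ≠ 0 ∧
      γ + 2 * Real.log b + Real.log O ≤ Real.log (ν (kt E P y j a)) := fun hlt => by
    have : ∃ j a, M = ν (kt E P y j a) := by
      rcases max_choice (ν (kW E P y) * O) (max (max (ν (kt E P y 0 0)) (ν (kt E P y 0 1)))
        (max (ν (kt E P y 1 0)) (ν (kt E P y 1 1)))) with h1 | h1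
      · rw [← hM] at h1
        rw [h1] at hγM
        linarith
      · rw [← hM] at h1
        rw [h1]
        rcases max_choice (max (ν (kt E P y 0 0)) (ν (kt E P y 0 1)))
          (max (ν (kt E P y 1 0)) (ν (kt E P y 1 1))) with h2 | h2 <;> rw [h2]
        · rcases max_choice (ν (kt E P y 0 0)) (ν (kt E P y 0 1)) with h3 | h3 <;>
            exact ⟨_, _, h3⟩
        · rcases max_choice (ν (kt E P y 1 0)) (ν (kt E P y 1 1)) with h3 | h3 <;>
            exact ⟨_, _, h3⟩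
    obtain ⟨j, a, e⟩ := this
    exact ⟨j, a, e ▸ hM0, by rw [← hγM, e]⟩
  have hLe : ∀ a, KeyP.Le (fun a => ν a ≠ 0) (fun a => Real.log (ν a)) (F a y) (Real.log b) :=
    fun a hx => Real.log_le_log (pos hx) (by
      have : ν (E a y) ≤ b := by fin_cases a <;> simp [hb]
      exact_mod_cast this)
  obtain ⟨m0, hm0, e0, e1⟩ := hL.ex
  have hc1 := h1 m0 hm0
  have hc : ν (coeff m0 Φ) ≠ 0 := fun h0 => by simp [h0] at hc1
  have hc2 : 0 ≤ Real.log (ν (coeff m0 Φ)) := Real.log_nonneg (by exact_mod_cast hc1)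
  have hD : ∀ m ∈ Φ.support, m 0 + m 1 ≤ D ∧ (m 0 + m 1 = D → m 0 ≤ e) := fun m hm =>
    ⟨hL.le m (mem_support_iff.1 hm), hL.top m (mem_support_iff.1 hm)⟩
  have main : ν (eval ![P, y] Φ) ≠ 0 ∧ Real.log (ν (coeff m0 Φ)) +
      D * (Real.log (ν (kW E P y)) / 2 - Real.log O) + (e - D / 2) * γ ≤
        Real.log (ν (eval ![P, y] Φ)) := by
    rcases max_choice (ν (E 0 y)) (ν (E 1 y)) with h2 | h2 <;> rw [← hb] at h2
    · have hw : ν (F 0 y * F 1 P - F 0 P * F 1 y) = ν (kW E P y) := by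
        congr 1
        simp only [hF, kW]
        ring
      have := KeyP.core' h (F 0) (F 1) (hLb 0) (hLb 1) (Real.log O) (Real.log b) γ (ho 0) (ho 1)
        P y (by rw [hF, ← h2]; exact hb0) (by rw [hF, ← h2]) (hLe 1) (by rw [hw]; exact hW)
        (by rw [hw]; exact hγW) (ht 0 0) (fun hlt => by
          rw [hw] at hlt
          obtain ⟨j, a, x1, x2⟩ := hatt hlt
          exact ⟨F j, F a, by fin_cases j <;> simp, by fin_cases a <;> simp, x1, x2⟩)
        Φ (hΦ 0) (hΦ 1) D e m0 e0 e1 hD hc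
      rwa [hw] at this
    · have hw : ν (F 1 y * F 0 P - F 1 P * F 0 y) = ν (kW E P y) := by
        rw [← ν.map_neg]
        congr 1
        simp only [hF, kW]
        ring
      have := KeyP.core' h (F 1) (F 0) (hLb 1) (hLb 0) (Real.log O) (Real.log b) γ (ho 1) (ho 0)
        P y (by rw [hF, ← h2]; exact hb0) (by rw [hF, ← h2]) (hLe 0) (by rw [hw]; exact hW)
        (by rw [hw]; exact hγW) (ht 1 1) (fun hlt => by
          rw [hw] at hlt
          obtain ⟨j, a, x1, x2⟩ := hatt hlt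
          exact ⟨F j, F a, by fin_cases j <;> simp, by fin_cases a <;> simp, x1, x2⟩)
        Φ (hΦ 1) (hΦ 0) D e m0 e0 e1 hD hc
      rwa [hw] at this
  obtain ⟨m1, m2⟩ := main
  rw [← NNReal.coe_le_coe, aeval_eq_eval]
  push_cast
  rw [← Real.log_le_log_iff (mul_pos (pow_pos (pos hg0) _) (pow_pos (pos hW) _))
    (mul_pos (mul_pos (pow_pos (pos m1) _) (pow_pos (pos hg0) _)) (pow_pos hO' _)),
    Real.log_mul (pow_pos (pos hg0) _).ne' (pow_pos (pos hW) _).ne',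
    Real.log_mul (mul_pos (pow_pos (pos m1) _) (pow_pos (pos hg0) _)).ne' (pow_pos hO' _).ne',
    Real.log_mul (pow_pos (pos m1) _).ne' (pow_pos (pos hg0) _).ne']
  simp only [Real.log_pow, ← hγ]
  push_cast
  linarith

end Pool.Agent.P.MP_dabb5b_ag.N
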