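import Pool.Agent.P.MP_dabb5b_ag.Sigma

/-! Leading data of a polynomial in two variables. -/

namespace Pool.Agent.P.MP_dabb5b_ag.N

open MvPolynomial

variable {B B' : Type*} [CommRing B] [CommRing B']

/-- `F` has total degree `D`, and `e` is the largest exponent of `X 0` in a monomial of degree `D` -/
structure Lead (F : S B) (D e : ℕ) : Prop where
  le : ∀ m : Fin 2 →₀ ℕ, coeff m F ≠ 0 → m 0 + m 1 ≤ D
  top : ∀ m : Fin 2 →₀ ℕ, coeff m F ≠ 0 → m 0 + m 1 = D → m 0 ≤ e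
  ex : ∃ m : Fin 2 →₀ ℕ, coeff m F ≠ 0 ∧ m 0 = e ∧ m 0 + m 1 = D

/-- more than half of the top form of `F` is a power of `X 1` -/
def Maj (F : S B) : Prop := ∃ D e, Lead F D e ∧ 2 * e < D

variable {F : S B} {F' : S B'} {D e D' e' : ℕ}

lemma exists_lead (hF : F ≠ 0) : ∃ D e, Lead F D e := by
  classical
  obtain ⟨m, hm, h1⟩ := F.support.exists_max_image (fun m => m 0 + m 1) (support_nonempty.2 hF)
  obtain ⟨m', hm', h2⟩ := (F.support.filter fun m' => m' 0 + m' 1 = m 0 + m 1).exists_max_image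
    (fun m => m 0) ⟨m, Finset.mem_filter.2 ⟨hm, rfl⟩⟩
  rw [Finset.mem_filter] at hm'
  exact ⟨m 0 + m 1, m' 0, fun n hn => h1 n (mem_support_iff.2 hn),
    fun n hn e => h2 n (Finset.mem_filter.2 ⟨mem_support_iff.2 hn, e⟩),
    m', mem_support_iff.1 hm'.1, rfl, hm'.2⟩

lemma Lead.ne_zero (h : Lead F D e) : F ≠ 0 := by
  obtain ⟨m, hm, -⟩ := h.ex
  rintro rfl
  exact hm rfl

lemma Lead.e_le (h : Lead F D e) : e ≤ D := by
  obtain ⟨m, -, h1, h2⟩ := h.ex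
  omega

lemma Lead.unique (h : Lead F D e) (h' : Lead F D' e') : D = D' ∧ e = e' := by
  obtain ⟨m, hm, a1, a2⟩ := h.ex
  obtain ⟨m', hm', b1, b2⟩ := h'.ex
  have c1 := h.le m' hm'
  have c2 := h'.le m hm
  have c3 := h.top m' hm' (by omega)
  have c4 := h'.top m hm (by omega)
  omega

lemma Lead.congr (h : Lead F D e) (hs : ∀ m, coeff m F ≠ 0 ↔ coeff m F' ≠ 0) : Lead F' D e :=
  ⟨fun m hm => h.le m ((hs m).2 hm), fun m hm => h.top m ((hs m).2 hm),
    h.ex.imp fun m hm => ⟨(hs m).1 hm.1, hm.2⟩⟩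

lemma Lead.maj_iff (h : Lead F D e) : Maj F ↔ 2 * e < D :=
  ⟨fun ⟨_, _, h1, h2⟩ => by have := h.unique h1; omega, fun h1 => ⟨D, e, h, h1⟩⟩

lemma maj_congr_supp (hs : ∀ m, coeff m F ≠ 0 ↔ coeff m F' ≠ 0) : Maj F ↔ Maj F' :=
  ⟨fun ⟨D, e, h1, h2⟩ => ⟨D, e, h1.congr hs, h2⟩,
    fun ⟨D, e, h1, h2⟩ => ⟨D, e, h1.congr fun m => (hs m).symm, h2⟩⟩

lemma sum_two (m : Fin 2 →₀ ℕ) : (m.sum fun _ n => n) = m 0 + m 1 := by
  rw [Finsupp.sum_fintype _ _ (fun _ => rfl), Fin.sum_univ_two]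

lemma Lead.totalDegree (h : Lead F D e) : F.totalDegree = D := by
  refine le_antisymm (Finset.sup_le fun m hm => ?_) ?_
  · rw [sum_two]; exact h.le m (mem_support_iff.1 hm)
  · obtain ⟨m, hm, -, h2⟩ := h.ex
    rw [← h2, ← sum_two]
    exact le_totalDegree (mem_support_iff.2 hm)

lemma Lead.pos (h : Lead F D e) (hF : ∀ c, F ≠ C c) : 0 < D := by
  rw [← h.totalDegree]
  exact Nat.pos_of_ne_zero fun h0 => hF _ (totalDegree_eq_zero_iff_eq_C.1 h0)

lemma lead_X1 [Nontrivial B] : Lead (X 1 : S B) 1 0 := by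
  classical
  have h : ∀ m : Fin 2 →₀ ℕ, coeff m (X 1 : S B) ≠ 0 → m = Finsupp.single 1 1 := fun m hm => by
    rw [coeff_X] at hm
    by_contra h
    exact hm (if_neg (Ne.symm h))
  refine ⟨fun m hm => by simp [h m hm], fun m hm _ => by simp [h m hm],
    Finsupp.single 1 1, by simp, by simp, by simp⟩

lemma maj_X1 [Nontrivial B] : Maj (X 1 : S B) := ⟨1, 0, lead_X1, by omega⟩

lemma lead_lin {v : B} (hv : v ≠ 0) : Lead (X 1 + C v * X 0 : S B) 1 1 := by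
  classical
  have h : ∀ m : Fin 2 →₀ ℕ, coeff m (X 1 + C v * X 0 : S B) ≠ 0 → m 0 + m 1 = 1 := fun m hm => by
    rw [coeff_add, coeff_C_mul, coeff_X, coeff_X] at hm
    by_cases h1 : Finsupp.single 1 1 = m
    · simp [← h1]
    · by_cases h0 : Finsupp.single 0 1 = m
      · simp [← h0]
      · simp [h0, h1] at hm
  refine ⟨fun m hm => (h m hm).le, fun m hm _ => by omega, Finsupp.single 0 1, ?_, by simp, by simp⟩
  rw [coeff_add, coeff_C_mul, coeff_X, coeff_X, if_pos rfl, if_neg, zero_add, mul_one]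
  · exact hv
  · simp [Finsupp.single_eq_single_iff]

lemma not_maj_lin {v : B} (hv : v ≠ 0) : ¬ Maj (X 1 + C v * X 0 : S B) := by
  rw [(lead_lin hv).maj_iff]; omega

end Pool.Agent.P.MP_dabb5b_ag.N
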