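import Pool.Agent.P.MP_dabb5b_ag.N.NF

/-! Semilinear automorphisms and the majority condition. -/

namespace Pool.Agent.P.MP_dabb5b_ag.N

open MvPolynomial

variable {R : Type*} [CommRing R] [IsDomain R]

omit [IsDomain R] in
lemma lift_image {δ : RingAut (S R)} {γ : RingAut (S (FractionRing R))}
    (h : ∀ f, γ (io R f) = io R (δ f)) (U : Set (S (FractionRing R))) :
    δ '' (io R ⁻¹' U) = io R ⁻¹' (γ '' U) := by
  ext f
  constructor
  · rintro ⟨g, hg, rfl⟩
    exact ⟨_, hg, h g⟩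
  · rintro ⟨u, hu, e⟩
    refine ⟨δ.symm f, ?_, δ.apply_symm_apply f⟩
    have : io R (δ.symm f) = u := γ.injective (by rw [h, δ.apply_symm_apply, e])
    rwa [Set.mem_preimage, this]

theorem exists_lift {w : R} (hw : w ≠ 0) {δ : RingAut (S R)} (hδ : Semi δ) :
    ∃ ψ : S (FractionRing R) ≃ₐ[FractionRing R] S (FractionRing R),
      ψ (X 0) = io R (δ (PP w)) ∧ ψ (X 1) = io R (δ (X 1)) ∧
      (∀ f, Maj (FF w (δ.symm f)) ↔ Maj (ψ.symm (io R f))) ∧
      δ '' (io R ⁻¹' VA (io R (PP w)) (X 1)) = io R ⁻¹' VA (ψ (X 0)) (ψ (X 1)) ∧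
      δ '' (io R ⁻¹' VB (X 1)) = io R ⁻¹' VB (ψ (X 1)) := by
  obtain ⟨γ, hγ, h⟩ := exists_ext hδ
  obtain ⟨φ, h0, h1, h2⟩ := exists_psi hw
  obtain ⟨ψ, e0, e1⟩ := hγ.co (P := φ (X 0)) (Q := φ (X 1)) ⟨φ, rfl, rfl⟩
  have ioX : io R (X 1) = X 1 := by simp [io]
  have hV := fun P Q => hγ.image_VA (P := P) (Q := Q)
  have hW := fun Q => hγ.image_VB (Q := Q)
  obtain ⟨ρ, hρ⟩ := hγ
  have key : ∀ g, γ (φ g) = ψ (map ρ.toRingHom g) := fun g => by
    have : γ.toRingHom.comp φ.toRingEquiv.toRingHom =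
        ψ.toRingEquiv.toRingHom.comp (map ρ.toRingHom) := by
      refine ringHom_ext (fun a => ?_) fun i => ?_
      · have a1 : φ (C a) = C a := φ.commutes a
        have a2 : ψ (C (ρ a)) = C (ρ a) := ψ.commutes _
        simp [a1, a2, hρ]
      · fin_cases i
        · simpa using e0.symm
        · simpa using e1.symm
    exact DFunLike.congr_fun this g
  refine ⟨ψ, by rw [e0, h0, h], by rw [e1, h1, ← h, ioX], fun f => ?_, ?_, ?_⟩
  · have : ψ.symm (io R f) = map ρ.toRingHom (FF w (δ.symm f)) := by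
      rw [AlgEquiv.symm_apply_eq, ← key, FF, ← h2, φ.apply_symm_apply, h, δ.apply_symm_apply]
    rw [this]
    exact maj_congr_supp fun m => by
      rw [coeff_map]
      exact (map_ne_zero_iff _ ρ.injective).symm
  · rw [lift_image h, hV, e0, e1, h0, h1]
  · rw [lift_image h, hW, e1, h1]

end Pool.Agent.P.MP_dabb5b_ag.N
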