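import Pool.Agent.P.MP_dabb5b_ag.N.Key
import Pool.Agent.P.MP_dabb5b_ag.N.Deriv
import Pool.Agent.P.MP_dabb5b_ag.N.Base

/-! Coherence and gap. -/

namespace Pool.Agent.P.MP_dabb5b_ag.N

open MvPolynomial NNReal

variable {k κ ι : Type*} [Field k] [Fintype κ] [DecidableEq κ]

/-- the partial derivatives of `AA k κ` used as columns -/
noncomputable def col (k κ : Type*) [Field k] [DecidableEq κ] (a : Fin 2) (l : Option κ) :
    Derivation k (AA k κ) (AA k κ) :=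
  l.elim ((pderiv a : Derivation (MvPolynomial κ k) (AA k κ) (AA k κ)).restrictScalars k)
    fun i => cw (Fin 2) (pderiv i)

variable (θ θ' : MvPolynomial ι k ≃ₐ[k] AA k κ)

/-- the two determinant derivations -/
noncomputable def lE (a : Fin 2) :
    Derivation k (MvPolynomial (ι ⊕ ι) (AA k κ)) (MvPolynomial (ι ⊕ ι) (AA k κ)) :=
  dd (fun l => cw (ι ⊕ ι) (col k κ a l)) fun i => eps θ θ' (C (X i))

omit [DecidableEq κ] in
lemma nu_ww (τ : ℝ) : nu θ θ' τ (C (ww k κ)) = ∏ i, nu θ θ' τ (C (X i)) := by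
  rw [ww, map_prod, map_prod]

lemma lE_le (τ : ℝ) (a : Fin 2) (g) :
    gv (wt ι τ) (lE θ θ' a g) ≤ nu θ θ' τ (C (ww k κ)) * gv (wt ι τ) g := by
  rw [nu_ww]
  refine dd_le (gv (wt ι τ)) _ _ (fun l g => gv_mono_supp fun m hm h0 => hm ?_) g
  rw [coeff_cw, h0, map_zero]

lemma lE_C (a : Fin 2) (r : MvPolynomial κ k) : lE θ θ' a (eps θ θ' (C r)) = 0 := by
  induction r using MvPolynomial.induction_on with
  | C t =>
    rw [show (C (C t) : AA k κ) = algebraMap k _ t from rfl, AlgHom.commutes,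
      Derivation.map_algebraMap]
  | add p q hp hq => rw [map_add, map_add, map_add, hp, hq, add_zero]
  | mul_X p j hp =>
    rw [map_mul, map_mul, Derivation.leibniz, hp, lE, dd_z, smul_zero, smul_zero, add_zero]

omit [Fintype κ] [DecidableEq κ] in
lemma const_cw {σ : Type*} (E : Derivation k (AA k κ) (AA k κ)) (g : MvPolynomial σ (AA k κ)) :
    constantCoeff (cw σ E g) = E (constantCoeff g) := coeff_cw E g 0

lemma const_lE (a : Fin 2) (f : AA k κ) :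
    constantCoeff (lE θ θ' a (eps θ θ' f)) = pderiv a f := by
  refine (map_dd (A := MvPolynomial (ι ⊕ ι) (AA k κ)) (A' := AA k κ) constantCoeff _ _
    (fun i => ?_) (fun i l => ?_) _).trans ?_
  · rw [const_cw, const_eps]
    exact pderiv_C
  · rw [const_cw, const_eps]
    change cw (Fin 2) (pderiv l) (C (X i)) = _
    rw [cw_C, pderiv_X, Pi.single_apply]
    split_ifs <;> simp
  · rw [const_cw, const_eps]
    rfl

lemma kW_ge (τ : ℝ) : nu θ θ' τ (C (ww k κ)) ^ 18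
    ≤ gv (wt ι τ) (kW (lE θ θ') (eps θ θ' (PP (ww k κ))) (eps θ θ' (X 1))) := by
  have h : ∀ a, lE θ θ' a (eps θ θ' (PP (ww k κ)))
      = eps θ θ' (C (ww k κ)) ^ 18 * lE θ θ' a (eps θ θ' (X 0))
        + 3 * eps θ θ' (X 1) ^ 2 * lE θ θ' a (eps θ θ' (X 1)) := fun a => by
    rw [PP, map_add, map_add, map_mul, Derivation.leibniz, lE_C, map_pow (eps θ θ') (X 1),
      Derivation.leibniz_pow, map_pow, map_pow]
    simp only [smul_eq_mul, nsmul_eq_mul]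
    push_cast
    ring
  have h2 : kW (lE θ θ') (eps θ θ' (PP (ww k κ))) (eps θ θ' (X 1))
      = eps θ θ' (C (ww k κ)) ^ 18 * (lE θ θ' 0 (eps θ θ' (X 1)) * lE θ θ' 1 (eps θ θ' (X 0))
        - lE θ θ' 1 (eps θ θ' (X 1)) * lE θ θ' 0 (eps θ θ' (X 0))) := by
    rw [kW, h, h]; ring
  rw [h2, map_mul, map_pow, ← nu_apply]
  refine le_mul_of_one_le_right' (one_le_gv ?_)
  rw [map_sub, map_mul, map_mul, const_lE, const_lE, const_lE, const_lE]
  simp

omit [DecidableEq κ] in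
lemma one_le_O (τ : ℝ) : 1 ≤ nu θ θ' τ (C (ww k κ)) :=
  one_le_nu θ θ' τ (C_ne_zero.2 ww_ne_zero)

theorem exists_gamma [CharZero k] : ∃ γ : ℝ → ℝ≥0, Continuous γ ∧ (∀ τ, 0 < γ τ) ∧
    ∀ τ f D e, Lead (FF (ww k κ) f) D e →
      γ τ ^ (2 * e) * nu θ θ' τ (C (ww k κ)) ^ (4 * D) ≤ nu θ θ' τ f ^ 2 * γ τ ^ D := by
  set P := eps θ θ' (PP (ww k κ))
  set y := eps θ θ' (X 1)
  have hO : ∀ τ, 0 < nu θ θ' τ (C (ww k κ)) := fun τ => one_pos.trans_le (one_le_O θ θ' τ)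
  have hW : ∀ τ, 0 < gv (wt ι τ) (kW (lE θ θ') P y) := fun τ =>
    (pow_pos (hO τ) 18).trans_le (kW_ge θ θ' τ)
  have hb : ∀ τ, 0 < max (gv (wt ι τ) (lE θ θ' 0 y)) (gv (wt ι τ) (lE θ θ' 1 y)) := fun τ => by
    by_contra h
    rw [not_lt, max_le_iff, nonpos_iff_eq_zero, nonpos_iff_eq_zero] at h
    have h0 : lE θ θ' 0 y = 0 := by_contra fun h0 => (gv_pos h0).ne' h.1
    have h1 : lE θ θ' 1 y = 0 := by_contra fun h0 => (gv_pos h0).ne' h.2
    have := hW τ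
    rw [kW, h0, h1] at this
    simp at this
  have hc : ∀ g, Continuous fun τ => gv (wt ι τ) (g : MvPolynomial (ι ⊕ ι) (AA k κ)) :=
    gv_cont _ fun v => by
      rcases v with v | v
      · exact continuous_const
      · exact continuous_id
  refine ⟨fun τ => gam (gv (wt ι τ)) (lE θ θ') (nu θ θ' τ (C (ww k κ))) P y, ?_, fun τ => ?_,
    fun τ f D e h => ?_⟩
  · refine Continuous.div (((hc _).mul (hc _)).max (((hc _).max (hc _)).max ((hc _).max (hc _))))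
      ((((hc _).max (hc _)).pow 2).mul (hc _)) fun τ => (mul_pos (pow_pos (hb τ) 2) (hO τ)).ne'
  · exact div_pos (lt_max_of_lt_left (mul_pos (hW τ) (hO τ))) (mul_pos (pow_pos (hb τ) 2) (hO τ))
  obtain ⟨j, Φ, h1, h2, h3⟩ := nf ww_ne_zero f h
  let π : MvPolynomial κ k →+* MvPolynomial (ι ⊕ ι) (AA k κ) := (eps θ θ').toRingHom.comp C
  have hπ : ∀ r, π r = eps θ θ' (C r) := fun _ => rfl
  have hs : ∀ m, coeff m Φ ≠ 0 ↔ coeff m (map π Φ) ≠ 0 := fun m => by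
    rw [coeff_map, hπ]
    refine not_congr ⟨fun h => by rw [h, map_zero, map_zero], fun h => ?_⟩
    have := congrArg constantCoeff h
    rw [const_eps, map_zero] at this
    exact C_eq_zero.1 this
  have h4 := key (gv (wt ι τ)) (fun n => by
      rw [show ((n : MvPolynomial (ι ⊕ ι) (AA k κ)) + 1) = C ((n : AA k κ) + 1) by simp]
      exact gv_C (Nat.cast_add_one_ne_zero n)) (lE θ θ') (hO τ) (lE_le θ θ' τ) P y (hW τ).ne'
    (map π Φ) (fun a m => by rw [coeff_map, hπ, lE_C]) (h2.congr hs) fun m hm => by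
      rw [coeff_map, hπ, ← nu_apply]
      exact one_le_nu θ θ' τ (C_ne_zero.2 ((hs m).2 hm))
  have h5 : aeval ![P, y] (map π Φ) = eps θ θ' (aeval ![PP (ww k κ), X 1] Φ) := by
    have : (aeval ![P, y]).toRingHom.comp (map π)
        = (eps θ θ').toRingHom.comp (aeval ![PP (ww k κ), X 1]).toRingHom := by
      refine ringHom_ext (fun r => by simp [hπ]) fun i => ?_
      fin_cases i <;> simp [P, y]
    exact DFunLike.congr_fun this Φ
  rw [h5, ← h1, ← nu_apply, map_mul, map_pow, map_pow] at h4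
  set O := nu θ θ' τ (C (ww k κ))
  set g := gam (gv (wt ι τ)) (lE θ θ') O P y
  have h6 : O ^ j ≤ O ^ (6 * D) := pow_le_pow_right₀ (one_le_O θ θ' τ) h3
  have h7 : g ^ (2 * e) * O ^ (4 * D) * O ^ (14 * D) ≤ nu θ θ' τ f ^ 2 * g ^ D * O ^ (14 * D) :=
    calc g ^ (2 * e) * O ^ (4 * D) * O ^ (14 * D) = g ^ (2 * e) * (O ^ 18) ^ D := by ring
      _ ≤ g ^ (2 * e) * gv (wt ι τ) (kW (lE θ θ') P y) ^ D := by
        gcongr
        exact kW_ge θ θ' τ
      _ ≤ _ := h4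
      _ ≤ (O ^ (6 * D) * nu θ θ' τ f) ^ 2 * g ^ D * O ^ (2 * D) := by gcongr
      _ = _ := by ring
  exact le_of_mul_le_mul_right h7 (pow_pos (hO τ) _)

/-- the majority condition in the chart `(P, y)` -/
def MajA (f : AA k κ) : Prop := Maj (FF (ww k κ) f)

omit [DecidableEq κ] in
lemma exists_leadA {f : AA k κ} (hf : ∀ r, f ≠ C r) :
    ∃ D e, Lead (FF (ww k κ) f) D e ∧ 0 < D := by
  obtain ⟨D, e, h⟩ := exists_lead (F := FF (ww k κ) f) fun h =>
    FF_ne_C ww_ne_zero hf 0 (h.trans (map_zero C).symm)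
  exact ⟨D, e, h, h.pos (FF_ne_C ww_ne_zero hf)⟩

lemma sign_aux {g O v : ℝ≥0} {D e : ℕ} (hg : 0 < g) (hO : 1 < O) (hD : 0 < D) (hv : v ≤ O)
    (h : g ^ (2 * e) * O ^ (4 * D) ≤ v ^ 2 * g ^ D) : (2 * e < D → 1 < g) ∧ (D ≤ 2 * e → g < 1) := by
  have key : ¬ g ^ D ≤ g ^ (2 * e) := fun h1 => by
    have h2 : g ^ D * O ^ (4 * D) ≤ g ^ D * O ^ 2 :=
      calc g ^ D * O ^ (4 * D) ≤ g ^ (2 * e) * O ^ (4 * D) := by gcongr
        _ ≤ v ^ 2 * g ^ D := h
        _ ≤ O ^ 2 * g ^ D := by gcongr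
        _ = _ := mul_comm _ _
    exact absurd (le_of_mul_le_mul_left h2 (pow_pos hg D))
      (pow_lt_pow_right₀ hO (by omega)).not_ge
  exact ⟨fun h1 => lt_of_not_ge fun h2 => key (pow_le_pow_of_le_one hg.le h2 h1.le),
    fun h1 => lt_of_not_ge fun h2 => key (pow_le_pow_right₀ h2 h1)⟩

omit [DecidableEq κ] in
lemma ww_ne_const [Nonempty κ] (φ : AA k κ ≃ₐ[k] AA k κ) (c : k) :
    φ (C (ww k κ)) ≠ algebraMap k (AA k κ) c := fun h => by
  rw [← φ.commutes, φ.injective.eq_iff] at h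
  have h1 : ww k κ = C c := C_injective (Fin 2) _ h
  have h2 := congrArg constantCoeff h1
  obtain ⟨i⟩ := ‹Nonempty κ›
  rw [ww, map_prod, Finset.prod_eq_zero (Finset.mem_univ i) (constantCoeff_X k i),
    constantCoeff_C] at h2
  exact ww_ne_zero (h1.trans (by rw [← h2, map_zero]))

theorem local_main [CharZero k] [Nonempty κ] {lo hi : ℝ} (hle : lo ≤ hi)
    (hlo : ∀ j, nu θ θ' lo (θ' (X j)) ≤ ex 1) (hhi : ∀ i, nu θ θ' hi (θ (X i)) ≤ ex hi) :
    (∀ i i', (∀ r, θ (X i) ≠ C r) → (∀ r, θ (X i') ≠ C r) → MajA (θ (X i)) → MajA (θ (X i'))) ∧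
    ∀ i j, (∀ r, θ (X i) ≠ C r) → (∀ r, θ' (X j) ≠ C r) → ¬ (MajA (θ (X i)) ↔ MajA (θ' (X j))) →
      ∃ τ ∈ Set.Icc lo hi, Gap (nu θ θ' τ) AlgEquiv.refl := by
  obtain ⟨γ, hc, hp, h⟩ := exists_gamma θ θ'
  have hw := ww_ne_const (k := k) (κ := κ) AlgEquiv.refl
  have sg : ∀ τ f, (∀ r, f ≠ C r) → nu θ θ' τ f ≤ nu θ θ' τ (C (ww k κ)) →
      (MajA f → 1 < γ τ) ∧ (¬ MajA f → γ τ < 1) := fun τ f hf h1 => by
    obtain ⟨D, e, h2, h3⟩ := exists_leadA hf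
    rw [MajA, h2.maj_iff, not_lt]
    exact sign_aux (hp τ) (one_lt_ex_one.trans_le (ex_one_le_nu θ θ' τ hw)) h3 h1 (h τ f D e h2)
  have s1 := fun i hi' => sg hi (θ (X i)) hi' ((hhi i).trans (ex_le_nu θ θ' hi hw))
  have s2 := fun j hj => sg lo (θ' (X j)) hj ((hlo j).trans (ex_one_le_nu θ θ' lo hw))
  refine ⟨fun i i' a b c => by_contra fun d => ((s1 i a).1 c).not_gt ((s1 i' b).2 d),
    fun i j a b c => ?_⟩
  obtain ⟨τ, hτ, h1⟩ : ∃ τ ∈ Set.Icc lo hi, γ τ = 1 := by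
    by_cases d : MajA (θ (X i))
    · exact intermediate_value_Icc hle hc.continuousOn
        ⟨((s2 j b).2 fun e => c (iff_of_true d e)).le, ((s1 i a).1 d).le⟩
    · exact intermediate_value_Icc' hle hc.continuousOn
        ⟨((s1 i a).2 d).le, ((s2 j b).1 (by_contra fun e => c (iff_of_false d e))).le⟩
  refine ⟨τ, hτ, fun f hf => ?_⟩
  obtain ⟨D, e, h2, h3⟩ := exists_leadA (f := f) fun r hr => hf ⟨r, hr.symm⟩
  have h4 := h τ f D e h2
  rw [h1, one_pow, one_pow, one_mul, mul_one] at h4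
  refine (pow_le_pow_iff_left₀ zero_le zero_le two_ne_zero).1 (le_trans ?_ h4)
  rw [← pow_mul]
  exact pow_le_pow_right₀ (one_le_O θ θ' τ) (by omega)

omit [Fintype κ] [DecidableEq κ] in
lemma not_base_iff (φ : AA k κ ≃ₐ[k] AA k κ) (f : AA k κ) :
    f ∉ base φ ↔ ∀ r, φ.symm f ≠ C r := by
  simp only [base, Set.mem_range, not_exists, ne_eq, AlgEquiv.symm_apply_eq]
  exact forall_congr' fun _ => not_congr eq_comm

omit [Fintype κ] [DecidableEq κ] in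
lemma nu_symm (φ : AA k κ ≃ₐ[k] AA k κ) (τ : ℝ) (f : AA k κ) :
    nu (θ.trans φ.symm) (θ'.trans φ.symm) τ f = nu θ θ' τ (φ f) := by
  rw [← nu_equiv θ θ' φ.symm, AlgEquiv.symm_apply_apply]

omit [DecidableEq κ] in
theorem coherent [CharZero k] [Nonempty κ] [Finite ι] (φ : AA k κ ≃ₐ[k] AA k κ) {i i' : ι}
    (h : θ (X i) ∉ base φ) (h' : θ (X i') ∉ base φ) (hm : MajA (φ.symm (θ (X i)))) :
    MajA (φ.symm (θ (X i'))) := by
  classical
  obtain ⟨lo, hi, -, a, -, b, c, -⟩ := exists_window (θ.trans φ.symm) (θ.trans φ.symm)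
  exact (local_main _ _ a b c).1 i i' ((not_base_iff φ _).1 h) ((not_base_iff φ _).1 h') hm

omit [DecidableEq κ] in
theorem exists_gap [CharZero k] [Nonempty κ] [Finite ι] : ∃ lo hi : ℝ,
    ∀ (φ : AA k κ ≃ₐ[k] AA k κ) (i j : ι), θ (X i) ∉ base φ → θ' (X j) ∉ base φ →
      ¬ (MajA (φ.symm (θ (X i))) ↔ MajA (φ.symm (θ' (X j)))) →
      ∃ τ ∈ Set.Icc lo hi, Gap (nu θ θ' τ) φ := by
  classical
  obtain ⟨lo, hi, -, a, -, b, c, -⟩ := exists_window θ θ'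
  refine ⟨lo, hi, fun φ i j h h' hm => ?_⟩
  obtain ⟨τ, hτ, hg⟩ := (local_main (θ.trans φ.symm) (θ'.trans φ.symm) a
    (fun j => by rw [nu_symm]; simpa using b j) fun i => by rw [nu_symm]; simpa using c i).2 i j
    ((not_base_iff φ _).1 h) ((not_base_iff φ _).1 h') hm
  refine ⟨τ, hτ, fun f hf => ?_⟩
  have := hg (φ.symm f) fun ⟨r, hr⟩ => (not_base_iff φ f).1 hf r hr.symm
  rwa [nu_symm, nu_symm, AlgEquiv.apply_symm_apply] at this

end Pool.Agent.P.MP_dabb5b_ag.N
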