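import Pool.Agent.P.MP_dabb5b_ag.N.NF

/-! The explicit automorphism. -/

namespace Pool.Agent.P.MP_dabb5b_ag.N

open MvPolynomial

section Formulas

variable {A : Type*} [CommRing A]

def sigP (x y t w : A) : A := t * w ^ 2 * x + y ^ 3

def sigQ (x y t w : A) : A := t * w ^ 2 * x + y ^ 3 - 3 * (t * w) * y ^ 5

def sigY (x y t w : A) : A := y + t * w * sigP x y t w

def sigX (x y t w : A) : A :=
  x - 3 * (t * w) * x * y ^ 2 + t * (-3 * y * sigP x y t w ^ 2 - t * w * sigP x y t w ^ 3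
    + 3 * sigP x y t w * (5 * y ^ 4 + 10 * y ^ 3 * (t * w * sigP x y t w)
      + 10 * y ^ 2 * (t * w * sigP x y t w) ^ 2 + 5 * y * (t * w * sigP x y t w) ^ 3
      + (t * w * sigP x y t w) ^ 4))

def sigY' (x y t w : A) : A := y - t * w * sigQ x y t w

def sigX' (x y t w : A) : A :=
  x + 3 * (t * w) * y ^ 2 * x
    + t * (-9 * y ^ 7 - 3 * y * sigQ x y t w ^ 2 + t * w * sigQ x y t w ^ 3)

lemma sig_J1 (x y t w : A) : sigQ (sigX x y t w) (sigY x y t w) t w = sigP x y t w := by
  have h : y ^ 3 = sigP x y t w - t * w ^ 2 * x := by unfold sigP; ring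
  unfold sigQ sigX sigY
  generalize sigP x y t w = P at h ⊢
  linear_combination (1 - 3 * t * w * y ^ 2) * h

lemma sig_J2 (x y t w : A) : sigP (sigX' x y t w) (sigY' x y t w) t w = sigQ x y t w := by
  have h : y ^ 3 = sigQ x y t w - t * w ^ 2 * x + 3 * (t * w) * y ^ 5 := by unfold sigQ; ring
  unfold sigP sigX' sigY'
  generalize sigQ x y t w = P at h ⊢
  linear_combination (1 + 3 * t * w * y ^ 2) * h

lemma sig_Y1 (x y t w : A) : sigY' (sigX x y t w) (sigY x y t w) t w = y := by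
  rw [sigY', sig_J1, sigY]; ring

lemma sig_Y2 (x y t w : A) : sigY (sigX' x y t w) (sigY' x y t w) t w = y := by
  rw [sigY, sig_J2, sigY']; ring

lemma sig_X1 [IsDomain A] (x y : A) {t w : A} (h : t * w ^ 2 ≠ 0) :
    sigX' (sigX x y t w) (sigY x y t w) t w = x := by
  refine mul_left_cancel₀ h ?_
  have h1 := sig_J2 (sigX x y t w) (sigY x y t w) t w
  rw [sig_J1, sig_Y1, sigP, sigP] at h1
  linear_combination h1

lemma sig_X2 [IsDomain A] (x y : A) {t w : A} (h : t * w ^ 2 ≠ 0) :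
    sigX (sigX' x y t w) (sigY' x y t w) t w = x := by
  refine mul_left_cancel₀ h ?_
  have h1 := sig_J1 (sigX' x y t w) (sigY' x y t w) t w
  rw [sig_J2, sig_Y2, sigQ, sigQ] at h1
  linear_combination h1

variable {B F : Type*} [CommRing B] [FunLike F A B] [RingHomClass F A B] (φ : F) (x y t w : A)

lemma map_sigQ : φ (sigQ x y t w) = sigQ (φ x) (φ y) (φ t) (φ w) := by simp [sigQ, map_ofNat]
lemma map_sigY : φ (sigY x y t w) = sigY (φ x) (φ y) (φ t) (φ w) := by simp [sigY, sigP]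
lemma map_sigX : φ (sigX x y t w) = sigX (φ x) (φ y) (φ t) (φ w) := by
  simp [sigX, sigP, map_ofNat]
lemma map_sigY' : φ (sigY' x y t w) = sigY' (φ x) (φ y) (φ t) (φ w) := by
  simp [sigY', sigQ, map_ofNat]
lemma map_sigX' : φ (sigX' x y t w) = sigX' (φ x) (φ y) (φ t) (φ w) := by
  simp [sigX', sigQ, map_ofNat]

end Formulas

variable {R : Type*} [CommRing R] [IsDomain R]

/-- `P₂ = w ^ 18 x + y ^ 3 - 3 w ^ 17 y ^ 5` -/
noncomputable def PQ (w : R) : S R := C (w ^ 18) * X 0 + X 1 ^ 3 - 3 * C (w ^ 17) * X 1 ^ 5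

theorem exists_sig {w : R} (hw : w ≠ 0) : ∃ σ : S R ≃ₐ[R] S R,
    σ (X 1) = X 1 + C (w ^ 17) * PP w ∧ σ (PQ w) = PP w ∧
    pderiv 0 (σ (X 0)) * pderiv 1 (σ (X 1)) - pderiv 0 (σ (X 1)) * pderiv 1 (σ (X 0)) = 1 := by
  have h0 : (C (w ^ 16) * C w ^ 2 : S R) ≠ 0 :=
    mul_ne_zero (by simpa using hw) (pow_ne_zero 2 (by simpa using hw))
  have eP : PP w = sigP (X 0) (X 1) (C (w ^ 16)) (C w) := by
    simp only [PP, sigP, map_pow]; ring
  have eQ : PQ w = sigQ (X 0) (X 1) (C (w ^ 16)) (C w) := by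
    simp only [PQ, sigQ, map_pow]; ring
  have a0 : ∀ H F : S R, aeval ![H, F] (X 0 : S R) = H := fun H F => by simp
  have a1 : ∀ H F : S R, aeval ![H, F] (X 1 : S R) = F := fun H F => by simp
  have a2 : ∀ (H F : S R) (r : R), aeval ![H, F] (C r : S R) = C r := fun H F r => by simp
  let σ : S R ≃ₐ[R] S R := AlgEquiv.ofAlgHom
    (aeval ![sigX (X 0) (X 1) (C (w ^ 16)) (C w), sigY (X 0) (X 1) (C (w ^ 16)) (C w)])
    (aeval ![sigX' (X 0) (X 1) (C (w ^ 16)) (C w), sigY' (X 0) (X 1) (C (w ^ 16)) (C w)])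
    (algHom_ext fun i => by
      revert i
      rw [Fin.forall_fin_two]
      constructor
      · rw [AlgHom.comp_apply, a0, map_sigX', a0, a1, a2, a2, sig_X1 _ _ h0]; rfl
      · rw [AlgHom.comp_apply, a1, map_sigY', a0, a1, a2, a2, sig_Y1]; rfl)
    (algHom_ext fun i => by
      revert i
      rw [Fin.forall_fin_two]
      constructor
      · rw [AlgHom.comp_apply, a0, map_sigX, a0, a1, a2, a2, sig_X2 _ _ h0]; rfl
      · rw [AlgHom.comp_apply, a1, map_sigY, a0, a1, a2, a2, sig_Y2]; rfl)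
  have s0 : σ (X 0) = sigX (X 0) (X 1) (C (w ^ 16)) (C w) := a0 _ _
  have s1 : σ (X 1) = sigY (X 0) (X 1) (C (w ^ 16)) (C w) := a1 _ _
  have s2 : ∀ r, σ (C r) = C r := a2 _ _
  refine ⟨σ, ?_, ?_, ?_⟩
  · rw [s1, sigY, eP]; simp only [map_pow]; ring
  · rw [eP, eQ, map_sigQ, s0, s1, s2, s2, sig_J1]
  · have e := sig_J1 (X 0 : S R) (X 1) (C (w ^ 16)) (C w)
    rw [← s0, ← s1, sigQ, sigP] at e
    rw [sigY, sigP] at s1
    have b0 := congrArg (pderiv 0) e
    have b1 := congrArg (pderiv 1) e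
    have c0 := congrArg (pderiv 0) s1
    have c1 := congrArg (pderiv 1) s1
    have three : ∀ i : Fin 2, pderiv i (3 : S R) = 0 := fun i => (pderiv i).map_natCast 3
    clear_value σ
    generalize w ^ 16 = t at h0 b0 b1 c0 c1
    simp only [map_sub, map_add, pderiv_mul, pderiv_pow, pderiv_C, pderiv_X_self,
      pderiv_X_of_ne (zero_ne_one (α := Fin 2)), pderiv_X_of_ne (one_ne_zero (α := Fin 2)),
      three] at b0 b1 c0 c1
    refine mul_left_cancel₀ h0 ?_
    push_cast at b0 b1 c0 c1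
    linear_combination pderiv 1 (σ (X 1)) * b0 - pderiv 0 (σ (X 1)) * b1
      + C t * C w ^ 2 * c1 - 3 * X 1 ^ 2 * c0

/-- the edge at `P₂` is not in the orbit of the edge at `P` -/
theorem not_orb {w : R} (hw : w ≠ 0) (h3 : ¬ w ∣ 3) {δ : RingAut (S R)} (hδ : Semi δ)
    (h1 : io R (δ (X 1)) ∈ VB (X 1 : S (FractionRing R)))
    (h2 : io R (δ (PP w)) ∈ VA (io R (PQ w)) (X 1)) : False := by
  classical
  have inj := IsFractionRing.injective R (FractionRing R)
  obtain ⟨ρ, hρ⟩ := hδ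
  obtain ⟨b, c, e1⟩ := h1
  obtain ⟨α, β, γ, e2⟩ := h2
  have hA : ρ (w ^ 18) ≠ 0 := by simpa using hw
  rw [PP, map_add, map_mul, map_pow δ, hρ, map_add, map_mul, map_pow (io R), e1] at e2
  generalize ρ (w ^ 18) = A at hA e2
  set ι := algebraMap R (FractionRing R) with hι
  have e3 : C (ι A) * io R (δ (X 0)) = C (α * ι w ^ 18) * X 0 + C (-(3 * α * ι w ^ 17)) * X 1 ^ 5
      + C (α - b ^ 3) * X 1 ^ 3 + C (-(3 * b ^ 2 * c)) * X 1 ^ 2 + C (β - 3 * b * c ^ 2) * X 1
      + C (γ - c ^ 3) := by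
    simp only [io, PQ, map_sub, map_add, map_mul, map_pow, map_C, map_X, map_ofNat, ← hι] at e2
    simp only [io, map_neg, map_sub, map_mul, map_pow, map_ofNat, ← hι]
    linear_combination e2
  have c5 := congrArg (coeff (Finsupp.single 1 5)) e3
  rw [coeff_C_mul, io, coeff_map] at c5
  simp only [coeff_add, coeff_C_mul, coeff_X_pow, coeff_X, coeff_C, Finsupp.single_eq_single_iff,
    (Finsupp.single_ne_zero.2 (show (5 : ℕ) ≠ 0 by norm_num)).symm] at c5
  simp at c5
  have d0 := congrArg (pderiv 0) e3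
  simp only [map_add, pderiv_C_mul, pderiv_pow, pderiv_C, pderiv_X_self,
    pderiv_X_of_ne (one_ne_zero (α := Fin 2)), mul_zero, add_zero, mul_one, io, pderiv_map] at d0
  have d1 : pderiv 0 (δ (X 1)) = 0 := by
    have := congrArg (pderiv 0) e1
    simp only [map_add, pderiv_C_mul, pderiv_C, pderiv_X_of_ne (one_ne_zero (α := Fin 2)),
      mul_zero, add_zero, io, pderiv_map] at this
    exact io_inj (this.trans (map_zero _).symm)
  have d2 : ∀ f, pderiv 0 (δ (X 0)) ∣ pderiv 0 (δ f) := fun f => by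
    induction f using MvPolynomial.induction_on with
    | C r => rw [hρ, pderiv_C]; exact dvd_zero _
    | add p q hp hq => rw [map_add, map_add]; exact dvd_add hp hq
    | mul_X p i hp =>
      rw [map_mul, pderiv_mul]
      refine dvd_add (hp.mul_right _) (Dvd.dvd.mul_left ?_ _)
      revert i
      rw [Fin.forall_fin_two]
      exact ⟨dvd_rfl, by rw [d1]; exact dvd_zero _⟩
  obtain ⟨q, hq⟩ := d2 (δ.symm (X 0))
  rw [RingEquiv.apply_symm_apply, pderiv_X_self] at hq
  have d3 := congrArg constantCoeff hq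
  have d4 := congrArg constantCoeff d0
  rw [map_mul, map_one] at d3
  rw [map_mul, constantCoeff_C, constantCoeff_C, constantCoeff_map] at d4
  refine h3 ⟨-(coeff (Finsupp.single 1 5) (δ (X 0)) * constantCoeff q), ?_⟩
  have d5 : w * coeff (Finsupp.single 1 5) (δ (X 0)) = -3 * constantCoeff (pderiv 0 (δ (X 0))) := by
    refine mul_left_cancel₀ hA (inj ?_)
    simp only [map_mul, map_neg, map_ofNat]
    linear_combination ι w * c5 + 3 * d4
  linear_combination 3 * d3 + constantCoeff q * d5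

/-- the Jacobian of an automorphism over the base ring, in all `m + 3` variables -/
theorem jac_transport (k : Type*) [Field k] (m : ℕ)
    (σ : S (MvPolynomial (Fin (m + 1)) k) ≃ₐ[MvPolynomial (Fin (m + 1)) k]
      S (MvPolynomial (Fin (m + 1)) k))
    (h : pderiv 0 (σ (X 0)) * pderiv 1 (σ (X 1)) - pderiv 0 (σ (X 1)) * pderiv 1 (σ (X 0)) = 1) :
    (Matrix.of fun i j : Fin (m + 3) =>
      pderiv i ((EE k m).symm (σ (EE k m (X j))))).det = 1 := by
  classical
  have fix : ∀ j, (EE k m).symm (σ (EE k m (X (ee m (.inr j))))) = X (ee m (.inr j)) := fun j => by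
    rw [EE_inr, show σ (C (X j)) = C (X j) from σ.commutes (X j), ← EE_inr,
      AlgEquiv.symm_apply_apply]
  have comm : ∀ (i : Fin 2) (f : MvPolynomial (Fin (m + 3)) k),
      EE k m (pderiv (ee m (.inl i)) f) = pderiv i (EE k m f) := fun i f => by
    induction f using MvPolynomial.induction_on with
    | C t =>
      rw [pderiv_C, map_zero, show EE k m (C t) = C (C t) from (EE k m).commutes t, pderiv_C]
    | add p q hp hq => simp only [map_add, hp, hq]
    | mul_X p j hp =>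
      rw [pderiv_mul, map_add, map_mul, map_mul, map_mul, pderiv_mul, hp]
      congr 2
      obtain ⟨j | j, rfl⟩ := (ee m).surjective j
      · rw [EE_inl]
        by_cases hij : j = i
        · rw [hij, pderiv_X_self, pderiv_X_self, map_one]
        · rw [pderiv_X_of_ne hij, pderiv_X_of_ne (by simpa using hij), map_zero]
      · rw [EE_inr, pderiv_C, pderiv_X_of_ne (by simp), map_zero]
  rw [← Matrix.det_submatrix_equiv_self (ee m)]
  have e : (Matrix.of fun i j => pderiv i ((EE k m).symm (σ (EE k m (X j))))).submatrix (ee m) (ee m)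
      = Matrix.fromBlocks
        (Matrix.of fun i j => pderiv (ee m (.inl i)) ((EE k m).symm (σ (EE k m (X (ee m (.inl j)))))))
        0 (Matrix.of fun i j =>
          pderiv (ee m (.inr i)) ((EE k m).symm (σ (EE k m (X (ee m (.inl j))))))) 1 := by
    ext1 (i | i) (j | j)
    · rfl
    · simp [fix]
    · rfl
    · simp [fix, Pi.single_apply, Matrix.one_apply, eq_comm]
  rw [e, Matrix.det_fromBlocks_zero₁₂, Matrix.det_one, mul_one, Matrix.det_fin_two]
  apply (EE k m).injective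
  simp only [Matrix.of_apply, map_sub, map_mul, comm, AlgEquiv.apply_symm_apply, EE_inl, map_one]
  linear_combination h

end Pool.Agent.P.MP_dabb5b_ag.N
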