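import Pool.Agent.P.MP_dabb5b_ag.N.Local
import Pool.Agent.P.MP_dabb5b_ag.N.Bad
import Pool.Agent.P.MP_dabb5b_ag.N.Chi
import Pool.Agent.P.MP_dabb5b_ag.N.Sig
import Pool.Agent.P.MP_dabb5b_ag.N.Lift

/-! The commensurated set and its transfer character. -/

namespace Pool.Agent.P.MP_dabb5b_ag.N

open MvPolynomial NNReal
open scoped Pointwise

variable {k κ ι : Type*} [Field k] [Fintype κ]

/-- the base flag -/
noncomputable def h0 (k κ : Type*) [Field k] [Fintype κ] :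
    Set (AA k κ) × Set (AA k κ) × Set (AA k κ) :=
  (Set.range C, io _ ⁻¹' VA (io _ (PP (ww k κ))) (X 1), io _ ⁻¹' VB (X 1))

/-- the flags that point towards the coordinate system `θ` -/
def SS (θ : MvPolynomial ι k ≃ₐ[k] AA k κ) : Set (Set (AA k κ) × Set (AA k κ) × Set (AA k κ)) :=
  {h | ∃ φ : AA k κ ≃ₐ[k] AA k κ, h = φ • h0 k κ ∧
    ∃ i, θ (X i) ∉ base φ ∧ MajA (φ.symm (θ (X i)))}

lemma smul_h0_fst (φ : AA k κ ≃ₐ[k] AA k κ) : (φ • h0 k κ).1 = base φ :=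
  (Set.range_comp φ C).symm

omit [Fintype κ] in
lemma base_refl : base (AlgEquiv.refl : AA k κ ≃ₐ[k] AA k κ) = Set.range C := rfl

lemma mem_SS_trans {θ : MvPolynomial ι k ≃ₐ[k] AA k κ} (ψ : AA k κ ≃ₐ[k] AA k κ) {h}
    (hh : h ∈ SS θ) : ψ • h ∈ SS (θ.trans ψ) := by
  obtain ⟨φ, rfl, i, h1, h2⟩ := hh
  refine ⟨ψ * φ, (mul_smul _ _ _).symm, i, ?_, ?_⟩
  · rintro ⟨r, hr⟩
    exact h1 ⟨r, ψ.injective hr⟩
  · have : (ψ * φ).symm ((θ.trans ψ) (X i)) = φ.symm (θ (X i)) := by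
      rw [AlgEquiv.symm_apply_eq, AlgEquiv.mul_apply, AlgEquiv.apply_symm_apply]; rfl
    rwa [this]

lemma smul_mem_SS {θ : MvPolynomial ι k ≃ₐ[k] AA k κ} (ψ : AA k κ ≃ₐ[k] AA k κ) {h} :
    ψ • h ∈ SS (θ.trans ψ) ↔ h ∈ SS θ := by
  refine ⟨fun hh => ?_, mem_SS_trans ψ⟩
  have h1 := mem_SS_trans ψ⁻¹ hh
  have h2 : (θ.trans ψ).trans ψ⁻¹ = θ := AlgEquiv.ext fun f => ψ.symm_apply_apply _
  rwa [inv_smul_smul, h2] at h1

lemma image_SS (θ : MvPolynomial ι k ≃ₐ[k] AA k κ) (ψ : AA k κ ≃ₐ[k] AA k κ) :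
    (fun x => ψ • x) '' SS θ = SS (θ.trans ψ) := by
  ext h
  refine ⟨fun ⟨h', a, b⟩ => b ▸ mem_SS_trans ψ a, fun hh => ⟨ψ⁻¹ • h, ?_, smul_inv_smul ψ h⟩⟩
  rwa [← smul_mem_SS ψ, smul_inv_smul]

omit [Fintype κ] in
lemma semi_of_base {φ : AA k κ ≃ₐ[k] AA k κ} (h : base φ = Set.range C) : Semi φ.toRingEquiv := by
  refine semi_of (fun r => ?_) fun r => ?_
  · obtain ⟨s, hs⟩ : φ (C r) ∈ Set.range C := h ▸ ⟨r, rfl⟩
    exact ⟨s, hs.symm⟩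
  · obtain ⟨s, hs⟩ : C r ∈ base φ := h ▸ ⟨r, rfl⟩
    exact ⟨s, φ.symm_apply_eq.2 hs.symm⟩

lemma lift_of_base {φ : AA k κ ≃ₐ[k] AA k κ} (h : base φ = Set.range C) :
    ∃ ψ : S (FractionRing (MvPolynomial κ k)) ≃ₐ[FractionRing (MvPolynomial κ k)]
        S (FractionRing (MvPolynomial κ k)),
      ψ (X 0) = io _ (φ (PP (ww k κ))) ∧ ψ (X 1) = io _ (φ (X 1)) ∧
      (∀ f, MajA (φ.symm f) ↔ Maj (ψ.symm (io _ f))) ∧
      φ • h0 k κ = (Set.range C, io _ ⁻¹' VA (ψ (X 0)) (ψ (X 1)), io _ ⁻¹' VB (ψ (X 1))) := by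
  obtain ⟨ψ, a, b, c, d, e⟩ := exists_lift (ww_ne_zero (k := k) (κ := κ)) (semi_of_base h)
  exact ⟨ψ, a, b, c, Prod.ext ((smul_h0_fst φ).trans h) (Prod.ext d e)⟩

variable [CharZero k] (θ θ' : MvPolynomial ι k ≃ₐ[k] AA k κ)

omit [Fintype κ] in
lemma charK : CharZero (FractionRing (MvPolynomial κ k)) :=
  charZero_of_injective_algebraMap (IsFractionRing.injective (MvPolynomial κ k) _)

omit [CharZero k] in
lemma diff_data {h} (hh : h ∈ SS θ \ SS θ') : ∃ φ : AA k κ ≃ₐ[k] AA k κ, h = φ • h0 k κ ∧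
    ∃ i j, θ (X i) ∉ base φ ∧ θ' (X j) ∉ base φ ∧ MajA (φ.symm (θ (X i))) ∧
      ¬ MajA (φ.symm (θ' (X j))) := by
  obtain ⟨⟨φ, rfl, i, h1, h2⟩, h3⟩ := hh
  obtain ⟨j, hj⟩ := exists_not_base θ' φ
  exact ⟨φ, rfl, i, j, h1, hj, h2, fun h => h3 ⟨φ, rfl, j, hj, h⟩⟩

lemma fibre_finite [Finite ι] : {h ∈ SS θ \ SS θ' | h.1 = Set.range C}.Finite := by
  have := charK (k := k) (κ := κ)
  refine (Set.finite_iUnion fun i : {i // θ (X i) ∉ Set.range C} =>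
    Set.finite_iUnion fun j : {j // θ' (X j) ∉ Set.range C} =>
      (finite_edges (io_ne_C fun r hr => i.2 ⟨r, hr.symm⟩)
        (io_ne_C fun r hr => j.2 ⟨r, hr.symm⟩)).image
        fun p => (Set.range C, io _ ⁻¹' p.1, io _ ⁻¹' p.2)).subset ?_
  rintro h ⟨hh, hb⟩
  obtain ⟨φ, rfl, i, j, a, b, c, d⟩ := diff_data θ θ' hh
  rw [smul_h0_fst] at hb
  obtain ⟨ψ, -, -, e, e'⟩ := lift_of_base hb
  exact Set.mem_iUnion.2 ⟨⟨i, hb ▸ a⟩, Set.mem_iUnion.2 ⟨⟨j, hb ▸ b⟩, _,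
    ⟨ψ, rfl, (e _).1 c, fun h => d ((e _).2 h)⟩, e'.symm⟩⟩

theorem diff_finite [Finite ι] [Nonempty κ] : (SS θ \ SS θ').Finite := by
  obtain ⟨lo, hi, hg⟩ := exists_gap θ θ'
  refine ((finite_base θ θ' lo hi).biUnion (t := fun b => {h ∈ SS θ \ SS θ' | h.1 = b})
    ?_).subset fun h hh => ?_
  · rintro _ ⟨φ, rfl, -⟩
    refine ((fibre_finite (θ.trans φ⁻¹) (θ'.trans φ⁻¹)).image fun x => φ • x).subset ?_
    rintro h ⟨⟨a, b⟩, c⟩
    refine ⟨φ⁻¹ • h, ⟨⟨mem_SS_trans _ a, fun h => b ((smul_mem_SS _).1 h)⟩, ?_⟩,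
      smul_inv_smul φ h⟩
    rw [Prod.smul_fst, c, ← smul_h0_fst, Prod.smul_fst, inv_smul_smul]
    rfl
  · obtain ⟨φ, rfl, i, j, a, b, c, d⟩ := diff_data θ θ' hh
    exact Set.mem_biUnion ⟨φ, rfl, hg φ i j a b fun e => d (e.1 c)⟩ ⟨hh, smul_h0_fst φ⟩

lemma base_fix [Finite ι] [Nonempty κ]
    (hz : ∀ i : κ, ∃ j j', θ (X j) = C (X i) ∧ θ' (X j') = C (X i)) {φ : AA k κ ≃ₐ[k] AA k κ}
    {i j : ι} (a : θ (X i) ∉ base φ) (b : θ' (X j) ∉ base φ)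
    (c : ¬ (MajA (φ.symm (θ (X i))) ↔ MajA (φ.symm (θ' (X j))))) : base φ = Set.range C := by
  obtain ⟨lo, hi, hg⟩ := exists_gap θ θ'
  obtain ⟨τ, -, h⟩ := hg φ i j a b c
  refine (base_eq_of_subset (φ := AlgEquiv.refl) (base_subset fun l => by_contra fun hl => ?_)).symm
  obtain ⟨j, j', e, e'⟩ := hz l
  have h1 := ex_one_le_nu θ θ' τ (ww_ne_const φ)
  have h2 := ex_le_nu θ θ' τ (ww_ne_const φ)
  have h3 : nu θ θ' τ (C (X l)) ≤ nu θ θ' τ (φ (C (ww k κ))) := by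
    rw [nu_apply, ← e, eps_X, e, ← e', iot_X]
    refine Valuation.map_add_le _ (Valuation.map_add_le _ ?_ ?_) ?_
    · exact (gv_C_le _).trans (one_lt_ex_one.le.trans h1)
    · rw [gv_X]; exact h1
    · rw [gv_X]; exact h2
  have h4 := (h _ hl).trans h3
  exact absurd h4 (lt_self_pow₀ (one_lt_ex_one.trans_le h1) one_lt_two).not_ge

section Edges

variable {K : Type*} [Field K]

lemma semi_alg (ψ : S K ≃ₐ[K] S K) : Semi ψ.toRingEquiv :=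
  ⟨RingEquiv.refl K, fun a => ψ.commutes a⟩

lemma deg_lin {v : K} (hv : v ≠ 0) : (X 1 + C v * X 0 : S K).totalDegree = 1 :=
  (lead_lin hv).totalDegree

lemma VA_lin (v : K) (P Q : S K) : VA P (Q + C v * P) = VA P Q :=
  Set.Subset.antisymm (VA_sub left_mem_VA ⟨v, 1, 0, by simp [add_comm]⟩)
    (VA_sub left_mem_VA ⟨-v, 1, 0, by simp⟩)

lemma VA_push {ψ ψ0 : S K ≃ₐ[K] S K}
    (h : VA (ψ0.symm (ψ (X 0))) (ψ0.symm (ψ (X 1))) = VA (X 0) (X 1)) :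
    VA (ψ (X 0)) (ψ (X 1)) = VA (ψ0 (X 0)) (ψ0 (X 1)) := by
  have := congrArg (fun U => ψ0.toRingEquiv '' U) h
  simp only [(semi_alg ψ0).image_VA] at this
  simpa using this

lemma edge_a [CharZero K] {v : K} (hv : v ≠ 0) {ψ ψ0 : S K ≃ₐ[K] S K}
    (h1 : Maj (ψ.symm (ψ0 (X 1)))) (h2 : ¬ Maj (ψ.symm (ψ0 (X 1 + C v * X 0)))) :
    VA (ψ (X 0)) (ψ (X 1)) = VA (ψ0 (X 0)) (ψ0 (X 1)) ∧ VB (ψ (X 1)) = VB (ψ0 (X 1)) := by
  have h := VA_push (edge_deg_one (φ := ψ.trans ψ0.symm) (totalDegree_X 1) (deg_lin hv) h1 h2)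
  exact ⟨h, maj_unique h h1 (by rw [AlgEquiv.symm_apply_apply]; exact maj_X1)⟩

lemma edge_b [CharZero K] {v : K} (hv : v ≠ 0) {ψ ψ0 : S K ≃ₐ[K] S K}
    (h1 : Maj (ψ.symm (ψ0 (X 1 + C v * X 0)))) (h2 : ¬ Maj (ψ.symm (ψ0 (X 1)))) :
    VA (ψ (X 0)) (ψ (X 1)) = VA (ψ0 (X 0)) (ψ0 (X 1 + C v * X 0)) ∧
      VB (ψ (X 1)) = VB (ψ0 (X 1 + C v * X 0)) := by
  have h := VA_push (edge_deg_one (φ := ψ.trans ψ0.symm) (deg_lin hv) (totalDegree_X 1) h1 h2)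
  obtain ⟨β, b0, b1⟩ := ((Co.base (K := K)).swap.elem v 1).swap
  rw [pow_one] at b1
  have h' : VA (ψ (X 0)) (ψ (X 1)) = VA ((β.trans ψ0) (X 0)) ((β.trans ψ0) (X 1)) := by
    rw [h, AlgEquiv.trans_apply, AlgEquiv.trans_apply, b0, b1, map_add, map_mul,
      show ψ0 (C v) = C v from ψ0.commutes v, VA_lin]
  have h'' := maj_unique h' h1 (by
    rw [← b1, ← AlgEquiv.trans_apply β ψ0, AlgEquiv.symm_apply_apply]; exact maj_X1)
  rw [AlgEquiv.trans_apply, b1] at h''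
  rw [AlgEquiv.trans_apply, AlgEquiv.trans_apply, b0, b1] at h'
  exact ⟨h', h''⟩

end Edges

omit [CharZero k] [Fintype κ] in
lemma X1_not_base : (X 1 : AA k κ) ∉ Set.range C := by
  rintro ⟨r, hr⟩
  simpa using congrArg (pderiv 1) hr

theorem chi_sigma [Finite ι] [Nonempty κ] {j1 : ι} (h1 : θ (X j1) = X 1)
    (hz : ∀ i : κ, ∃ j, θ (X j) = C (X i)) (σ : AA k κ ≃ₐ[MvPolynomial κ k] AA k κ)
    (s1 : σ (X 1) = X 1 + C (ww k κ ^ 17) * PP (ww k κ)) (s2 : σ (PQ (ww k κ)) = PP (ww k κ)) :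
    SS θ \ SS (θ.trans (σ.restrictScalars k)) = {h0 k κ} ∧
      SS (θ.trans (σ.restrictScalars k)) \ SS θ = ∅ := by
  have := charK (k := k) (κ := κ)
  set θ1 := θ.trans (σ.restrictScalars k)
  have hC : ∀ r, σ (C r) = C r := fun r => σ.commutes r
  have t1 : θ1 (X j1) = σ (X 1) := by rw [← h1]; rfl
  have hz1 : ∀ i : κ, ∃ j j', θ (X j) = C (X i) ∧ θ1 (X j') = C (X i) := fun i => by
    obtain ⟨j, hj⟩ := hz i
    exact ⟨j, j, hj, by rw [← hC, ← hj]; rfl⟩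
  have hz2 : ∀ i : κ, ∃ j j', θ1 (X j) = C (X i) ∧ θ (X j') = C (X i) := fun i => by
    obtain ⟨j, j', a, b⟩ := hz1 i
    exact ⟨j', j, b, a⟩
  have n0 : θ (X j1) ∉ Set.range C := h1 ▸ X1_not_base
  have n1 : θ1 (X j1) ∉ Set.range C := by
    rintro ⟨r, hr⟩
    rw [t1, ← hC, σ.injective.eq_iff] at hr
    exact X1_not_base ⟨r, hr⟩
  obtain ⟨ψ0, p0, p1, p2⟩ := exists_psi (ww_ne_zero (k := k) (κ := κ))
  set v := algebraMap _ (FractionRing (MvPolynomial κ k)) (ww k κ ^ 17)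
  have hv : v ≠ 0 := (map_ne_zero_iff _ (IsFractionRing.injective _ _)).2
    (pow_ne_zero _ ww_ne_zero)
  have ioX : io (MvPolynomial κ k) (X 1) = X 1 := by simp [io]
  have q0 : io _ (θ (X j1)) = ψ0 (X 1) := by rw [h1, p1, ioX]
  have q1 : io _ (θ1 (X j1)) = ψ0 (X 1 + C v * X 0) := by
    rw [t1, s1, ← FF_Y ww_ne_zero, FF, ← p2, AlgEquiv.apply_symm_apply]
  refine ⟨Set.eq_singleton_iff_unique_mem.2 ⟨⟨⟨1, (one_smul _ _).symm, j1, n0, ?_⟩, ?_⟩,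
    fun h hh => ?_⟩, Set.eq_empty_of_forall_notMem fun h hh => ?_⟩
  · change Maj (FF _ (θ (X j1)))
    rw [h1, FF_X1]
    exact maj_X1
  · rintro ⟨φ, e, i, a, b⟩
    have hb : base φ = Set.range C := by rw [← smul_h0_fst, ← e]; rfl
    obtain ⟨ψ, l0, l1, l2, l3⟩ := lift_of_base hb
    have c := (l2 _).1 (coherent θ1 φ a (hb ▸ n1) b)
    have u : φ • (h0 k κ).2.1 = (h0 k κ).2.1 := (congrArg (fun h => h.2.1) e).symm
    have u' : φ • (h0 k κ).2.2 = (h0 k κ).2.2 := (congrArg (fun h => h.2.2) e).symm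
    have w : (h0 k κ).2.1 = io _ ⁻¹' VA (ψ (X 0)) (ψ (X 1)) :=
      congrArg (fun h => h.2.1) (e.trans l3)
    have w' : (h0 k κ).2.2 = io _ ⁻¹' VB (ψ (X 1)) := congrArg (fun h => h.2.2) (e.trans l3)
    have m0 : PP (ww k κ) ∈ (h0 k κ).2.1 := left_mem_VA
    have m1 : X 1 ∈ (h0 k κ).2.1 := by
      rw [h0, Set.mem_preimage, ioX]; exact right_mem_VA
    have m2 : X 1 ∈ (h0 k κ).2.2 := by
      rw [h0, Set.mem_preimage, ioX]; exact mem_VB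
    have hU : VA (ψ (X 0)) (ψ (X 1)) = VA (ψ0 (X 0)) (ψ0 (X 1)) := by
      rw [p0, p1]
      refine Set.Subset.antisymm ?_ (VA_sub (w ▸ m0 :) ?_)
      · rw [l0, l1]
        exact VA_sub (u ▸ Set.smul_mem_smul_set (a := φ) m0 : φ • PP (ww k κ) ∈ (h0 k κ).2.1)
          (u ▸ Set.smul_mem_smul_set (a := φ) m1 : φ • X 1 ∈ (h0 k κ).2.1)
      · rwa [w, Set.mem_preimage, ioX] at m1
    have hW : VB (ψ (X 1)) = VB (ψ0 (X 1)) := by
      rw [p1]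
      refine Set.Subset.antisymm ?_ (VB_sub ?_)
      · rw [l1]
        exact VB_sub (u' ▸ Set.smul_mem_smul_set (a := φ) m2 : φ • X 1 ∈ (h0 k κ).2.2)
      · rwa [w', Set.mem_preimage, ioX] at m2
    rw [maj_congr hU hW, q1, AlgEquiv.symm_apply_apply] at c
    exact not_maj_lin hv c
  · obtain ⟨φ, rfl, i, j, a, b, c, d⟩ := diff_data θ θ1 hh
    have hb := base_fix θ θ1 hz1 a b fun e => d (e.1 c)
    obtain ⟨ψ, -, -, l2, l3⟩ := lift_of_base hb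
    have c' := (l2 _).1 (coherent θ φ a (hb ▸ n0) c)
    have d' := fun e => d (coherent θ1 φ (hb ▸ n1) b ((l2 _).2 e))
    rw [q0] at c'
    rw [q1] at d'
    obtain ⟨e, e'⟩ := edge_a hv c' d'
    rw [l3, e, e', p0, p1]
    rfl
  · obtain ⟨φ, rfl, i, j, a, b, c, d⟩ := diff_data θ1 θ hh
    have hb := base_fix θ1 θ hz2 a b fun e => d (e.1 c)
    obtain ⟨ψ, l0, l1, l2, -⟩ := lift_of_base hb
    have c' := (l2 _).1 (coherent θ1 φ a (hb ▸ n1) c)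
    have d' := fun e => d (coherent θ φ (hb ▸ n0) b ((l2 _).2 e))
    rw [q1] at c'
    rw [q0] at d'
    obtain ⟨e, e'⟩ := edge_b hv c' d'
    rw [← q1, t1] at e e'
    rw [p0, ← s2] at e
    have hs : Semi σ.toRingEquiv := ⟨RingEquiv.refl _, hC⟩
    obtain ⟨γ, g1, g2⟩ := exists_ext hs.inv
    have g3 : ∀ f, γ (io _ (σ f)) = io _ f := fun f =>
      (g2 _).trans (congrArg _ (σ.symm_apply_apply f))
    refine not_orb ww_ne_zero (fun h3 => ?_) (hs.inv.mul (semi_of_base hb)) ?_ ?_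
    · obtain ⟨i⟩ := ‹Nonempty κ›
      have := map_dvd (constantCoeff (R := k)) h3
      rw [ww, map_prod, Finset.prod_eq_zero (Finset.mem_univ i) (constantCoeff_X k i)] at this
      simp [map_ofNat] at this
    · have := Set.mem_image_of_mem γ (e' ▸ mem_VB : ψ (X 1) ∈ VB (io _ (σ (X 1))))
      rwa [g1.image_VB, g3, l1, g2, ioX] at this
    · have := Set.mem_image_of_mem γ
        (e ▸ left_mem_VA : ψ (X 0) ∈ VA (io _ (σ (PQ (ww k κ)))) (io _ (σ (X 1))))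
      rwa [g1.image_VA, g3, g3, l0, g2, ioX] at this

theorem exists_chi_n (k : Type*) [Field k] [CharZero k] (m : ℕ) :
    ∃ (χ : (MvPolynomial (Fin (m + 3)) k ≃ₐ[k] MvPolynomial (Fin (m + 3)) k) →* Multiplicative ℤ)
      (σ : MvPolynomial (Fin (m + 3)) k ≃ₐ[k] MvPolynomial (Fin (m + 3)) k),
      (Matrix.of fun i j => pderiv i (σ (X j))).det = 1 ∧ χ σ = Multiplicative.ofAdd 1 := by
  obtain ⟨σ, s1, s2, s3⟩ := exists_sig (ww_ne_zero (k := k) (κ := Fin (m + 1)))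
  obtain ⟨χ, hχ⟩ := exists_transfer (G := AA k (Fin (m + 1)) ≃ₐ[k] AA k (Fin (m + 1)))
    (SS (EE k m)) fun g => by rw [image_SS]; exact diff_finite _ _
  obtain ⟨a, b⟩ := chi_sigma (EE k m) (EE_inl k m 1) (fun i => ⟨_, EE_inr k m i⟩) σ s1 s2
  refine ⟨χ.comp (AlgEquiv.autCongr (EE k m)).toMonoidHom,
    (AlgEquiv.autCongr (EE k m)).symm (σ.restrictScalars k), jac_transport k m σ s3, ?_⟩
  rw [MonoidHom.comp_apply, MulEquiv.coe_toMonoidHom, MulEquiv.apply_symm_apply, hχ, image_SS, a, b]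
  simp

end Pool.Agent.P.MP_dabb5b_ag.N
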